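import Mathlib

/-! Definitions for the exclusion process on the integers. -/

namespace Pool.Agent.Helper28Excl

open Filter Topology MeasureTheory

/-- Transition kernels on the integers: nonnegative with total mass one. -/
def IsKernel (p : ℤ → ℝ) : Prop := (∀ x, 0 ≤ p x) ∧ HasSum p 1

/-- Irreducibility of the random walk with step distribution `p`: every integer is a sum of
integers charged by `p`. -/
def Irred (p : ℤ → ℝ) : Prop := ∀ x : ℤ, x ∈ AddSubmonoid.closure {y : ℤ | 0 < p y}

/-- Finite first absolute moment. -/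
def FiniteMean (p : ℤ → ℝ) : Prop := Summable fun x : ℤ => |(x : ℝ)| * p x

/-- Condition (H): finite mean, positive drift, infinite second moment of the left tail. -/
def CondH (p : ℤ → ℝ) : Prop :=
  FiniteMean p ∧ 0 < ∑' x : ℤ, (x : ℝ) * p x ∧
    ¬ Summable fun x : ℤ => if x < 0 then (x : ℝ) ^ 2 * p x else 0

/-- The configuration obtained from `η` by moving the particle at `x` to the site `y`
(`η x = true` means that `x` is occupied). -/
def move (x y : ℤ) (η : ℤ → Bool) : ℤ → Bool :=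
  Function.update (Function.update η x false) y true

/-- The generator of the exclusion process: each particle at `x` jumps to a vacant site `y` at
rate `p (y - x)`. -/
noncomputable def gen (p : ℤ → ℝ) (f : (ℤ → Bool) → ℝ) (η : ℤ → Bool) : ℝ :=
  ∑' q : ℤ × ℤ, if η q.1 = true ∧ η q.2 = false
    then p (q.2 - q.1) * (f (move q.1 q.2 η) - f η) else 0

/-- Functions of finitely many coordinates. -/
def IsCyl (f : (ℤ → Bool) → ℝ) : Prop :=
  ∃ S : Finset ℤ, ∀ η ζ : ℤ → Bool, (∀ x ∈ S, η x = ζ x) → f η = f ζ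

/-- `S t`, `t ≥ 0`, is the Feller semigroup of the exclusion process with kernel `p`: a strongly
continuous Markov semigroup on the continuous functions on `{0,1}^ℤ` whose generator on cylinder
functions is `gen p`. -/
structure IsExclusionSemigroup (p : ℤ → ℝ)
    (S : ℝ → C(ℤ → Bool, ℝ) →ₗ[ℝ] C(ℤ → Bool, ℝ)) : Prop where
  zero : ∀ f, S 0 f = f
  add : ∀ s t, 0 ≤ s → 0 ≤ t → ∀ f, S (s + t) f = S s (S t f)
  nonneg : ∀ t, 0 ≤ t → ∀ f : C(ℤ → Bool, ℝ), (∀ η, 0 ≤ f η) → ∀ η, 0 ≤ S t f η
  one : ∀ t, 0 ≤ t → S t 1 = 1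
  cont : ∀ f, Tendsto (fun t => S t f) (𝓝[>] 0) (𝓝 f)
  generator : ∀ f : C(ℤ → Bool, ℝ), IsCyl f →
    TendstoUniformly (fun t η => (S t f η - f η) / t) (gen p f) (𝓝[>] 0)

/-- `μ` is a stationary distribution of the process with semigroup `S`: if the initial
distribution is `μ`, then the distribution at every time `t ≥ 0` is `μ`. -/
def IsStationary (S : ℝ → C(ℤ → Bool, ℝ) →ₗ[ℝ] C(ℤ → Bool, ℝ)) (μ : Measure (ℤ → Bool)) :
    Prop :=
  IsProbabilityMeasure μ ∧ ∀ t, 0 ≤ t → ∀ f : C(ℤ → Bool, ℝ), ∫ η, S t f η ∂μ = ∫ η, f η ∂μ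

/-- The two limits of the problem: the density of particles tends to `0` at `-∞` and to `1` at
`+∞`. -/
def HasLimits (μ : Measure (ℤ → Bool)) : Prop :=
  Tendsto (fun x : ℤ => μ {η | η x = true}) atBot (𝓝 0) ∧
    Tendsto (fun x : ℤ => μ {η | η x = true}) atTop (𝓝 1)

end Pool.Agent.Helper28Excl
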