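import Pool.Agent.Helper28_Excl.Power
import Pool.Agent.Helper28_Excl.Defs

/-! From measures to functionals. -/

namespace Pool.Agent.Helper28Excl

open Filter Topology MeasureTheory

set_option linter.unusedSectionVars false
set_option linter.unusedVariables false

/-- The kernel structure. -/
def mkKern {p : ℤ → ℝ} (hp : IsKernel p) (hm : FiniteMean p) : Kern where
  p := p
  nonneg := hp.1
  sum_one := hp.2.tsum_eq
  summ := hp.2.summable
  mom := hm

lemma jmp_eq_move {u v : ℤ} {η : Config} (hu : η u = true) (hv : η v = false) :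
    jmp u v η = move u v η := by
  have huv : v ≠ u := by
    intro h
    rw [h, hu] at hv
    exact absurd hv (by decide)
  funext x
  unfold move
  by_cases hx : x = v
  · subst hx
    rw [jmp_snd huv, hu, Function.update_self]
    rfl
  · rw [Function.update_of_ne hx]
    by_cases hxu : x = u
    · subst hxu
      rw [jmp_fst, hu, hv, Function.update_self]
      rfl
    · rw [Function.update_of_ne hxu, jmp_of_ne _ hxu hx]

lemma jmp_eq_self {u v : ℤ} {η : Config} (h : ¬ (η u = true ∧ η v = false)) :
    jmp u v η = η := by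
  funext x
  unfold jmp
  by_cases hxu : x = u
  · subst hxu
    simp only [if_true]
    cases h1 : η x
    · rfl
    · cases h2 : η v
      · exact absurd ⟨h1, h2⟩ h
      · rfl
  · rw [if_neg hxu]
    by_cases hxv : x = v
    · subst hxv
      simp only [if_true]
      cases h1 : η u
      · rfl
      · cases h2 : η x
        · exact absurd ⟨h1, h2⟩ h
        · rfl
    · rw [if_neg hxv]

lemma isCyl_of_Cyl {K : ℕ} {f : C(Config, ℝ)} (h : Cyl X K f) : IsCyl f :=
  ⟨box K, fun η ζ hηζ => h η ζ hηζ⟩

lemma exists_Cyl {f : C(Config, ℝ)} (h : IsCyl f) : ∃ K, Cyl X K f := by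
  obtain ⟨S, hS⟩ := h
  have : ∃ K, S ⊆ box K := by
    have h1 : ∀ x ∈ S, ∀ᶠ N in atTop, x ∈ box N := fun x _ => by
      obtain ⟨K, hK⟩ := exists_box x
      filter_upwards [eventually_ge_atTop K] with N hN
      exact box_mono hN hK
    exact ((Filter.eventually_all_finset S).mpr h1).exists
  obtain ⟨K, hK⟩ := this
  exact ⟨K, fun η ζ h => hS η ζ fun x hx => h x (hK hx)⟩

variable {p : ℤ → ℝ} (hp : IsKernel p) (hm : FiniteMean p)

lemma Linf_apply {K : ℕ} {f : C(Config, ℝ)} (hf : Cyl X K f) (η : Config) :
    Linf X (mkKern hp hm) f η = gen p f η := by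
  have h1 : HasSum (Lterm X (mkKern hp hm) f) (Linf X (mkKern hp hm) f) :=
    (summable_Lterm X _ hf).hasSum
  have h2 := h1.map (ContinuousMap.evalCLM ℝ η) (ContinuousMap.evalCLM ℝ η).continuous
  have h3 := h2.tsum_eq
  rw [ContinuousMap.evalCLM_apply] at h3
  rw [← h3]
  unfold gen
  refine tsum_congr fun q => ?_
  simp only [Function.comp_apply, ContinuousMap.evalCLM_apply, Lterm, ContinuousMap.smul_apply,
    ContinuousMap.sub_apply, ContinuousMap.comp_apply, X_T, smul_eq_mul]
  split_ifs with h
  · rw [jmp_eq_move h.1 h.2]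
    rfl
  · rw [jmp_eq_self h, sub_self, mul_zero]

lemma integrable_cont (μ : Measure Config) [IsFiniteMeasure μ] (f : C(Config, ℝ)) :
    Integrable f μ := by
  refine Integrable.mono' (integrable_const ‖f‖) f.continuous.aestronglyMeasurable ?_
  exact Eventually.of_forall fun z => f.norm_coe_le_norm z

/-- Integration as a functional. -/
noncomputable def intFun (μ : Measure Config) [IsFiniteMeasure μ] : C(Config, ℝ) →ₗ[ℝ] ℝ where
  toFun f := ∫ η, f η ∂μ
  map_add' f g := by
    simp only [ContinuousMap.add_apply]
    exact integral_add (integrable_cont μ f) (integrable_cont μ g)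
  map_smul' c f := by
    simp only [ContinuousMap.smul_apply, smul_eq_mul, RingHom.id_apply]
    exact integral_const_mul c _

lemma intFun_apply (μ : Measure Config) [IsFiniteMeasure μ] (f : C(Config, ℝ)) :
    intFun μ f = ∫ η, f η ∂μ := rfl

lemma intFun_pos (μ : Measure Config) [IsFiniteMeasure μ] : IsPos (intFun μ) := fun g hg =>
  integral_nonneg hg

lemma intFun_one (μ : Measure Config) [IsProbabilityMeasure μ] : intFun μ 1 = 1 := by
  rw [intFun_apply]
  simp

lemma intFun_ev (μ : Measure Config) [IsProbabilityMeasure μ] (x : ℤ) :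
    intFun μ (ev x) = (μ {η | η x = true}).toReal := by
  rw [intFun_apply]
  have h1 : (fun η : Config => ev x η) = Set.indicator {η : Config | η x = true} 1 := by
    funext η
    rw [ev_apply]
    by_cases h : η x = true
    · rw [if_pos h, Set.indicator_of_mem (by exact h)]
      rfl
    · rw [if_neg h, Set.indicator_of_notMem (by exact h)]
  have hmeas : MeasurableSet {η : Config | η x = true} :=
    measurableSet_eq_fun (measurable_pi_apply x) measurable_const
  rw [h1, integral_indicator_one hmeas]
  rfl

/-- Measures annihilated by the generator give stationary states. -/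
lemma invState_of_gen {μ : Measure Config} [IsProbabilityMeasure μ]
    (h : ∀ f : C(Config, ℝ), IsCyl f → ∫ η, gen p f η ∂μ = 0) :
    InvState X (mkKern hp hm) (intFun μ) := by
  refine ⟨intFun_pos μ, intFun_one μ, fun K f hf => ?_⟩
  rw [intFun_apply]
  simp only [Linf_apply hp hm hf]
  exact h f (isCyl_of_Cyl hf)

/-- Stationary distributions of the process are annihilated by the generator. -/
lemma gen_of_stationary (hp : IsKernel p) (hm : FiniteMean p) {S : ℝ → C(Config, ℝ) →ₗ[ℝ] C(Config, ℝ)}
    (hS : IsExclusionSemigroup p S) {μ : Measure Config} (hμ : IsStationary S μ)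
    (f : C(Config, ℝ)) (hf : IsCyl f) : ∫ η, gen p f η ∂μ = 0 := by
  have := hμ.1
  obtain ⟨K, hK⟩ := exists_Cyl hf
  have h1 : Tendsto (fun t : ℝ => t⁻¹ • (S t f - f)) (𝓝[>] 0)
      (𝓝 (Linf X (mkKern hp hm) f)) := by
    rw [ContinuousMap.tendsto_iff_tendstoUniformly]
    have h2 := hS.generator f hf
    have h3 : (⇑(Linf X (mkKern hp hm) f) : Config → ℝ) = gen p f := by
      funext η
      exact Linf_apply hp hm hK η
    rw [h3]
    intro u hu
    filter_upwards [h2 u hu] with t ht η
    have h4 := ht η
    have h5 : (t⁻¹ • (S t f - f)) η = (S t f η - f η) / t := by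
      simp only [ContinuousMap.smul_apply, ContinuousMap.sub_apply, smul_eq_mul]
      ring
    rw [h5]
    exact h4
  have h2 := (intFun_pos μ).tendsto h1
  have h3 : Tendsto (fun t : ℝ => intFun μ (t⁻¹ • (S t f - f))) (𝓝[>] 0) (𝓝 0) := by
    refine tendsto_const_nhds.congr' ?_
    filter_upwards [self_mem_nhdsWithin] with t ht
    rw [map_smul, map_sub]
    have h4 : intFun μ (S t f) = intFun μ f := hμ.2 t (le_of_lt ht) f
    rw [h4, sub_self, smul_zero]
  have h4 := tendsto_nhds_unique h2 h3
  rw [intFun_apply] at h4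
  simpa only [Linf_apply hp hm hK] using h4

/-- Nonexistence at the level of the generator. -/
theorem no_measure (hreach : Reach p) (hpos : ∀ n : ℕ, 1 ≤ n → 0 < p (-(n : ℤ)))
    (hp : IsKernel p) (hm : FiniteMean p) {μ : Measure Config} [IsProbabilityMeasure μ]
    (h : ∀ f : C(Config, ℝ), IsCyl f → ∫ η, gen p f η ∂μ = 0) : ¬ HasLimits μ := by
  rintro ⟨hl, hr⟩
  have hinv := invState_of_gen hp hm h
  refine no_state (k := mkKern hp hm) hreach hpos hinv ?_ ?_
  · simp only [intFun_ev]
    have := (ENNReal.tendsto_toReal ENNReal.zero_ne_top).comp hl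
    rw [ENNReal.toReal_zero] at this
    exact this
  · simp only [intFun_ev]
    have := (ENNReal.tendsto_toReal ENNReal.one_ne_top).comp hr
    rw [ENNReal.toReal_one] at this
    exact this

end Pool.Agent.Helper28Excl
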