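import Pool.Agent.Helper28_Excl.Count

/-! Generic resolvent lemmas, the exclusion jump system and discrepancy bounds. -/

namespace Pool.Agent.Helper28Excl

open Filter Topology

set_option linter.unusedSectionVars false
set_option linter.unusedVariables false

section generic

variable {Z : Type*} [TopologicalSpace Z] [CompactSpace Z] (J : JumpSys Z) (k : Kern)

lemma continuous_ev (z : Z) : Continuous fun s : C(Z, ℝ) => s z :=
  continuous_eval_const z

lemma Aop_apply (N : ℕ) (g : C(Z, ℝ)) (z : Z) :
    Aop J k N g z = ∑ q ∈ box N ×ˢ box N, k.p (q.2 - q.1) * g (J.T q.1 q.2 z) := by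
  unfold Aop
  rw [ContinuousMap.coe_sum, Finset.sum_apply]
  rfl

lemma LN_apply (N : ℕ) (g : C(Z, ℝ)) (z : Z) :
    LN J k N g z = ∑ q ∈ box N ×ˢ box N, k.p (q.2 - q.1) * (g (J.T q.1 q.2 z) - g z) := by
  unfold LN
  rw [ContinuousMap.coe_sum, Finset.sum_apply]
  rfl

lemma Cyl_Aop {N : ℕ} {g : C(Z, ℝ)} (hg : Cyl J N g) : Cyl J N (Aop J k N g) := by
  intro z z' h
  rw [Aop_apply, Aop_apply]
  refine Finset.sum_congr rfl fun q hq => ?_
  rw [Finset.mem_product] at hq
  rw [hg _ _ (J.pres hq.1 hq.2 h)]

lemma Cyl_Rop {N : ℕ} {t : ℝ} (ht : 0 ≤ t) {g : C(Z, ℝ)} (hg : Cyl J N g) :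
    Cyl J N (Rop J k N t g) := by
  have hS : IsClosed {s : C(Z, ℝ) | Cyl J N s} := by
    have : {s : C(Z, ℝ) | Cyl J N s}
        = ⋂ z, ⋂ z', ⋂ (_ : J.agree N z z'), {s : C(Z, ℝ) | s z = s z'} := by
      ext s
      simp only [Set.mem_ofPred_eq, Set.mem_iInter, Cyl]
    rw [this]
    exact isClosed_iInter fun z => isClosed_iInter fun z' => isClosed_iInter fun _ =>
      isClosed_eq (continuous_ev z) (continuous_ev z')
  refine Rop_mem J k hS N ht g ?_ ?_
  · intro z z' _; rfl
  · intro s hs z z' h
    have h1 := hg z z' h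
    have h2 := Cyl_Aop J k hs z z' h
    simp only [ContinuousMap.smul_apply, ContinuousMap.add_apply, h1, h2]

lemma Rop_nonneg {N : ℕ} {t : ℝ} (ht : 0 ≤ t) {g : C(Z, ℝ)} (hg : ∀ z, 0 ≤ g z) :
    ∀ z, 0 ≤ Rop J k N t g z := by
  have hS : IsClosed {s : C(Z, ℝ) | ∀ z, 0 ≤ s z} := by
    simp only [Set.ofPred_forall]
    exact isClosed_iInter fun z => isClosed_le continuous_const (continuous_ev z)
  refine Rop_mem J k hS N ht g (fun z => le_rfl) fun s hs z => ?_
  simp only [ContinuousMap.smul_apply, ContinuousMap.add_apply, smul_eq_mul]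
  refine mul_nonneg (alph_pos k N ht).le (add_nonneg (hg z) (mul_nonneg ht ?_))
  rw [Aop_apply]
  exact Finset.sum_nonneg fun q _ => mul_nonneg (k.nonneg _) (hs _)

lemma Rop_le_one {N : ℕ} {t : ℝ} (ht : 0 ≤ t) {g : C(Z, ℝ)} (hg : ∀ z, g z ≤ 1) :
    ∀ z, Rop J k N t g z ≤ 1 := by
  have hS : IsClosed {s : C(Z, ℝ) | ∀ z, s z ≤ 1} := by
    simp only [Set.ofPred_forall]
    exact isClosed_iInter fun z => isClosed_le (continuous_ev z) continuous_const
  refine Rop_mem J k hS N ht g (fun z => zero_le_one) fun s hs z => ?_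
  simp only [ContinuousMap.smul_apply, ContinuousMap.add_apply, smul_eq_mul]
  rw [← alph_mul k N ht]
  refine mul_le_mul_of_nonneg_left (add_le_add (hg z) (mul_le_mul_of_nonneg_left ?_ ht))
    (alph_pos k N ht).le
  rw [Aop_apply, crate]
  refine Finset.sum_le_sum fun q _ => ?_
  have := mul_le_mul_of_nonneg_left (hs (J.T q.1 q.2 z)) (k.nonneg (q.2 - q.1))
  rwa [mul_one] at this

/-- Uniqueness for the resolvent equation. -/
lemma Rop_unique {N : ℕ} {t : ℝ} (ht : 0 ≤ t) {g s : C(Z, ℝ)}
    (hs : s = alph k N t • (g + t • Aop J k N s)) : s = Rop J k N t g := by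
  have h1 := Rop_fix J k N ht g
  set r := Rop J k N t g with hr
  have h2 : s - r = (alph k N t * t) • Acl J k N (s - r) := by
    rw [map_sub, Acl_apply, Acl_apply, smul_sub]
    conv_lhs => rw [hs, h1]
    rw [smul_add, smul_add, smul_smul, smul_smul]
    abel
  have h3 : ‖s - r‖ ≤ (alph k N t * t * crate k N) * ‖s - r‖ := by
    conv_lhs => rw [h2]
    have ha := (alph_pos k N ht).le
    rw [norm_smul, Real.norm_of_nonneg (by positivity), Acl_apply, mul_assoc _ (crate k N)]
    exact mul_le_mul_of_nonneg_left (norm_Aop_le J k N _) (by positivity)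
  have h4 := ratio_lt k N ht
  have h5 : ‖s - r‖ = 0 := by
    by_contra hne
    have h6 : 0 < ‖s - r‖ := lt_of_le_of_ne (norm_nonneg _) (Ne.symm hne)
    nlinarith
  exact sub_eq_zero.mp (norm_eq_zero.mp h5)

lemma Rop_one {N : ℕ} {t : ℝ} (ht : 0 ≤ t) : Rop J k N t 1 = 1 := by
  refine (Rop_unique J k ht ?_).symm
  ext z
  simp only [ContinuousMap.smul_apply, ContinuousMap.add_apply, smul_eq_mul,
    ContinuousMap.one_apply, Aop_apply, mul_one]
  exact (alph_mul k N ht).symm

end generic

/-- Particle configurations. -/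
abbrev Config := ℤ → Bool

/-- The configuration after the clock of `(u, v)` rings. -/
def jmp (u v : ℤ) (η : Config) : Config := fun x =>
  if x = u then (η u && η v) else if x = v then (η u || η v) else η x

lemma continuous_jmp (u v : ℤ) : Continuous (jmp u v) := by
  refine continuous_pi fun x => ?_
  unfold jmp
  split_ifs
  · have h : Continuous fun q : Bool × Bool => (q.1 && q.2) := continuous_of_discreteTopology
    have h2 : Continuous fun η : Config => (η u, η v) :=
      (continuous_apply u).prodMk (continuous_apply v)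
    exact h.comp h2
  · have h : Continuous fun q : Bool × Bool => (q.1 || q.2) := continuous_of_discreteTopology
    have h2 : Continuous fun η : Config => (η u, η v) :=
      (continuous_apply u).prodMk (continuous_apply v)
    exact h.comp h2
  · exact continuous_apply x

lemma jmp_of_ne {u v x : ℤ} (η : Config) (h1 : x ≠ u) (h2 : x ≠ v) : jmp u v η x = η x := by
  unfold jmp
  rw [if_neg h1, if_neg h2]

/-- The exclusion jump system. -/
def X : JumpSys Config where
  T u v := ⟨jmp u v, continuous_jmp u v⟩
  agree N η ζ := ∀ x ∈ box N, η x = ζ x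
  agree_refl _ _ _ _ := rfl
  agree_mono h h' x hx := h' x (box_mono h hx)
  loc := by
    intro N u v η hu hv x hx
    have h1 : x ≠ u := fun h => hu (h ▸ hx)
    have h2 : x ≠ v := fun h => hv (h ▸ hx)
    exact jmp_of_ne η h1 h2
  pres := by
    intro N u v η ζ hu hv h x hx
    change jmp u v η x = jmp u v ζ x
    unfold jmp
    rw [h u hu, h v hv, h x hx]

@[simp] lemma X_T (u v : ℤ) (η : Config) : X.T u v η = jmp u v η := rfl

/-- Discrepancy bound. -/
def Disc (ψ : ℤ → ℝ) (g : C(Config, ℝ)) : Prop :=
  ∀ x η, |g (Function.update η x true) - g (Function.update η x false)| ≤ ψ x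

/-- A single discrepancy stays a single discrepancy. -/
lemma jmp_update (u v x : ℤ) (η : Config) : ∃ (x' : ℤ) (ω : Config),
    (x' = x ∨ ((x = u ∨ x = v) ∧ (x' = u ∨ x' = v))) ∧
    jmp u v (Function.update η x true) = Function.update ω x' true ∧
    jmp u v (Function.update η x false) = Function.update ω x' false := by
  by_cases hxu : x = u
  · subst hxu
    by_cases huv : x = v
    · subst huv
      refine ⟨x, η, Or.inl rfl, ?_, ?_⟩ <;>
      · funext z
        unfold jmp
        by_cases hz : z = x
        · subst hz; simp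
        · simp [hz]
    · by_cases hv : η v = true
      · refine ⟨x, jmp x v (Function.update η x false), Or.inl rfl, ?_, ?_⟩ <;>
        · funext z
          unfold jmp
          by_cases hz : z = x
          · subst hz; simp [Ne.symm huv, hv]
          · by_cases hzv : z = v
            · subst hzv; simp [hz, hv]
            · simp [hz, hzv]
      · rw [Bool.not_eq_true] at hv
        refine ⟨v, jmp x v (Function.update η x false), Or.inr ⟨Or.inl rfl, Or.inr rfl⟩, ?_, ?_⟩ <;>
        · funext z
          unfold jmp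
          by_cases hz : z = x
          · subst hz; simp [Ne.symm huv, hv, huv]
          · by_cases hzv : z = v
            · subst hzv; simp [hz, hv]
            · simp [hz, hzv]
  · by_cases hxv : x = v
    · subst hxv
      by_cases hu : η u = true
      · refine ⟨u, jmp u x (Function.update η x false), Or.inr ⟨Or.inr rfl, Or.inl rfl⟩, ?_, ?_⟩ <;>
        · funext z
          unfold jmp
          by_cases hz : z = x
          · subst hz; simp [hxu, Ne.symm hxu, hu]
          · by_cases hzu : z = u
            · subst hzu; simp [hz, hu]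
            · simp [hz, hzu]
      · rw [Bool.not_eq_true] at hu
        refine ⟨x, jmp u x (Function.update η x false), Or.inl rfl, ?_, ?_⟩ <;>
        · funext z
          unfold jmp
          by_cases hz : z = x
          · subst hz; simp [hxu, Ne.symm hxu, hu]
          · by_cases hzu : z = u
            · subst hzu; simp [hz, hu]
            · simp [hz, hzu]
    · refine ⟨x, jmp u v η, Or.inl rfl, ?_, ?_⟩ <;>
      · funext z
        unfold jmp
        by_cases hz : z = x
        · subst hz; simp [hxu, hxv]
        · simp [hz, Ne.symm hxu, Ne.symm hxv]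

end Pool.Agent.Helper28Excl
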