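import Pool.Agent.Helper28_Excl.Gen

/-! Counting lemmas for the flux through the boundary of a box. -/

namespace Pool.Agent.Helper28Excl

open Filter Topology

set_option linter.unusedSectionVars false
set_option linter.unusedVariables false

lemma card_cross (K : ℕ) (n : ℤ) :
    (((box K).filter fun u => u + n ∉ box K).card : ℝ) ≤ |(n : ℝ)| := by
  have h1 : ((box K).filter fun u => u + n ∉ box K) ⊆
      (if 0 ≤ n then Finset.Ioc ((K : ℤ) - n) K else Finset.Ico (-(K : ℤ)) (-(K : ℤ) - n)) := by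
    intro u hu
    rw [Finset.mem_filter, mem_box, mem_box] at hu
    obtain ⟨hu1, hu2⟩ := hu
    rw [abs_le] at hu1
    rw [abs_le] at hu2
    split_ifs with hn
    · rw [Finset.mem_Ioc]
      constructor <;> omega
    · rw [Finset.mem_Ico]
      constructor <;> omega
  have h2 := Finset.card_le_card h1
  have h3 : (if 0 ≤ n then Finset.Ioc ((K : ℤ) - n) K
      else Finset.Ico (-(K : ℤ)) (-(K : ℤ) - n)).card = n.natAbs := by
    split_ifs with hn
    · rw [Int.card_Ioc]; omega
    · rw [Int.card_Ico]; omega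
  rw [h3] at h2
  calc (((box K).filter fun u => u + n ∉ box K).card : ℝ) ≤ (n.natAbs : ℝ) := by exact_mod_cast h2
    _ = |(n : ℝ)| := by rw [Nat.cast_natAbs]; push_cast; rfl

lemma count_le {g : ℤ → ℝ} (hg : ∀ n, 0 ≤ g n) (hs : Summable fun n : ℤ => |(n : ℝ)| * g n)
    (K : ℕ) (S : Finset ℤ) :
    ∑ u ∈ box K, ∑ v ∈ S \ box K, g (v - u) ≤ ∑' n : ℤ, |(n : ℝ)| * g n := by
  classical
  rw [← Finset.sum_product']
  set P := box K ×ˢ (S \ box K) with hP
  set D := P.image fun q => q.2 - q.1 with hD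
  have h1 : ∑ q ∈ P, g (q.2 - q.1) = ∑ n ∈ D, ∑ q ∈ P with q.2 - q.1 = n, g (q.2 - q.1) :=
    (Finset.sum_fiberwise_of_maps_to (fun q hq => Finset.mem_image_of_mem _ hq) _).symm
  rw [h1]
  have h2 : ∀ n ∈ D, ∑ q ∈ P with q.2 - q.1 = n, g (q.2 - q.1) ≤ |(n : ℝ)| * g n := by
    intro n _
    have h3 : ∑ q ∈ P with q.2 - q.1 = n, g (q.2 - q.1) = ∑ q ∈ P with q.2 - q.1 = n, g n := by
      refine Finset.sum_congr rfl fun q hq => ?_
      rw [(Finset.mem_filter.mp hq).2]
    rw [h3, Finset.sum_const, nsmul_eq_mul]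
    refine mul_le_mul_of_nonneg_right ?_ (hg n)
    refine le_trans ?_ (card_cross K n)
    have : (P.filter fun q => q.2 - q.1 = n).card ≤ ((box K).filter fun u => u + n ∉ box K).card := by
      refine Finset.card_le_card_of_injOn (fun q => q.1) (fun q hq => ?_) (fun q hq q' hq' h => ?_)
      · rw [Finset.mem_coe, Finset.mem_filter, hP, Finset.mem_product, Finset.mem_sdiff] at hq
        rw [Finset.mem_coe, Finset.mem_filter]
        refine ⟨hq.1.1, ?_⟩
        have : q.1 + n = q.2 := by omega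
        rw [this]
        exact hq.1.2.2
      · rw [Finset.mem_coe, Finset.mem_filter] at hq hq'
        simp only at h
        have h5 : q.2 = q'.2 := by omega
        exact Prod.ext h h5
    exact_mod_cast this
  refine (Finset.sum_le_sum h2).trans ?_
  exact hs.sum_le_tsum _ fun n _ => mul_nonneg (abs_nonneg _) (hg n)

variable (k : Kern)

/-- First absolute moment. -/
noncomputable def mom : ℝ := ∑' n : ℤ, |(n : ℝ)| * k.p n

/-- Tail of the first absolute moment. -/
noncomputable def tmom (j : ℕ) : ℝ := ∑' n : ℤ, |(n : ℝ)| * (if |n| ≤ j then 0 else k.p n)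

lemma mom_nonneg : 0 ≤ mom k := tsum_nonneg fun n => mul_nonneg (abs_nonneg _) (k.nonneg n)

lemma ptail_nonneg (j : ℕ) (n : ℤ) : 0 ≤ (if |n| ≤ (j : ℤ) then 0 else k.p n) := by
  split_ifs
  · exact le_rfl
  · exact k.nonneg n

lemma tmom_nonneg (j : ℕ) : 0 ≤ tmom k j :=
  tsum_nonneg fun n => mul_nonneg (abs_nonneg _) (ptail_nonneg k j n)

lemma summable_tmom (j : ℕ) :
    Summable fun n : ℤ => |(n : ℝ)| * (if |n| ≤ (j : ℤ) then 0 else k.p n) := by
  refine Summable.of_nonneg_of_le (fun n => mul_nonneg (abs_nonneg _) (ptail_nonneg k j n))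
    (fun n => ?_) k.mom
  refine mul_le_mul_of_nonneg_left ?_ (abs_nonneg _)
  split_ifs
  · exact k.nonneg n
  · exact le_rfl

lemma tmom_tendsto : Tendsto (tmom k) atTop (𝓝 0) := by
  have h := tendsto_tsum_of_dominated_convergence (𝓕 := atTop (α := ℕ))
    (f := fun (j : ℕ) (n : ℤ) => |(n : ℝ)| * (if |n| ≤ (j : ℤ) then 0 else k.p n))
    (g := fun _ => (0 : ℝ)) (bound := fun n : ℤ => |(n : ℝ)| * k.p n) k.mom
    (fun n => ?_) (Eventually.of_forall fun j n => ?_)
  · rw [tsum_zero] at h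
    exact h
  · refine tendsto_const_nhds.congr' ?_
    filter_upwards [eventually_ge_atTop n.natAbs] with j hj
    rw [if_pos, mul_zero]
    rw [Int.abs_eq_natAbs]
    exact_mod_cast hj
  · rw [Real.norm_of_nonneg (mul_nonneg (abs_nonneg _) (ptail_nonneg k j n))]
    refine mul_le_mul_of_nonneg_left ?_ (abs_nonneg _)
    split_ifs
    · exact k.nonneg n
    · exact le_rfl

lemma neg_summable {g : ℤ → ℝ} (hs : Summable fun n : ℤ => |(n : ℝ)| * g n) :
    Summable fun n : ℤ => |(n : ℝ)| * g (-n) := by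
  have := (Equiv.neg ℤ).summable_iff.mpr hs
  refine this.congr fun n => ?_
  simp

lemma neg_tsum (g : ℤ → ℝ) :
    ∑' n : ℤ, |(n : ℝ)| * g (-n) = ∑' n : ℤ, |(n : ℝ)| * g n := by
  rw [← (Equiv.neg ℤ).tsum_eq fun n : ℤ => |(n : ℝ)| * g n]
  refine tsum_congr fun n => ?_
  simp

lemma count_le2 {g : ℤ → ℝ} (hg : ∀ n, 0 ≤ g n) (hs : Summable fun n : ℤ => |(n : ℝ)| * g n)
    (K : ℕ) (S : Finset ℤ) :
    ∑ u ∈ box K, ∑ v ∈ S \ box K, (g (v - u) + g (u - v)) ≤ 2 * ∑' n : ℤ, |(n : ℝ)| * g n := by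
  simp only [Finset.sum_add_distrib]
  have h1 := count_le hg hs K S
  have h2 := count_le (g := fun n => g (-n)) (fun n => hg _) (neg_summable hs) K S
  rw [neg_tsum] at h2
  simp only [neg_sub] at h2
  linarith

/-- Crossing rate of the boundary of the box is at most twice the first moment. -/
lemma cross_le (N : ℕ) (S : Finset ℤ) :
    ∑ u ∈ box N, ∑ v ∈ S \ box N, (k.p (v - u) + k.p (u - v)) ≤ 2 * mom k :=
  count_le2 k.nonneg k.mom N S

lemma cross_far_le (N j : ℕ) (S : Finset ℤ) :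
    ∑ u ∈ box N, ∑ v ∈ S \ box N, ((if |v - u| ≤ (j : ℤ) then 0 else k.p (v - u))
      + (if |u - v| ≤ (j : ℤ) then 0 else k.p (u - v))) ≤ 2 * tmom k j :=
  count_le2 (ptail_nonneg k j) (summable_tmom k j) N S

lemma weighted_cross_le {ψ : ℤ → ℝ} {a s : ℝ} {J N : ℕ} (hJ : J ≤ N) (hψ : ∀ u, 0 ≤ ψ u)
    (ha : ∀ u ∈ box J, ψ u ≤ a) (hs : ∀ u ∉ box J, ψ u ≤ s) (ha0 : 0 ≤ a) (hs0 : 0 ≤ s)
    (S : Finset ℤ) :
    ∑ u ∈ box N, ∑ v ∈ S \ box N, (k.p (v - u) + k.p (u - v)) * ψ u
      ≤ 2 * a * tmom k (N - J) + 2 * s * mom k := by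
  have h1 : ∀ u ∈ box N, ∀ v ∈ S \ box N, (k.p (v - u) + k.p (u - v)) * ψ u
      ≤ a * ((if |v - u| ≤ ((N - J : ℕ) : ℤ) then 0 else k.p (v - u))
        + (if |u - v| ≤ ((N - J : ℕ) : ℤ) then 0 else k.p (u - v)))
        + s * (k.p (v - u) + k.p (u - v)) := by
    intro u hu v hv
    have h2 := k.nonneg (v - u)
    have h3 := k.nonneg (u - v)
    have h4 := ptail_nonneg k (N - J) (v - u)
    have h5 := ptail_nonneg k (N - J) (u - v)
    by_cases huJ : u ∈ box J
    · have h6 : ¬ |v - u| ≤ ((N - J : ℕ) : ℤ) := by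
        rw [Finset.mem_sdiff] at hv
        have hv2 := hv.2
        rw [mem_box] at hv2 huJ
        push_cast [hJ]
        have := abs_sub_abs_le_abs_sub v u
        omega
      have h7 : ¬ |u - v| ≤ ((N - J : ℕ) : ℤ) := by rwa [abs_sub_comm]
      rw [if_neg h6, if_neg h7]
      have := ha u huJ
      nlinarith [mul_nonneg hs0 (add_nonneg h2 h3)]
    · have := hs u huJ
      nlinarith [mul_nonneg ha0 (add_nonneg h4 h5)]
  refine (Finset.sum_le_sum fun u hu => Finset.sum_le_sum fun v hv => h1 u hu v hv).trans ?_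
  simp only [Finset.sum_add_distrib (f := fun v => a * _), ← Finset.mul_sum]
  have h2 := cross_le k N S
  have h3 := cross_far_le k N (N - J) S
  nlinarith

/-- Sites at distance at most `j` from the boundary of `box K`. -/
noncomputable def nearBd (K j : ℕ) : Finset ℤ := (box (K + j)).filter fun x => (K : ℤ) - j ≤ |x|

lemma sum_rate_le (S : Finset ℤ) (u : ℤ) : ∑ v ∈ S, (k.p (v - u) + k.p (u - v)) ≤ 2 := by
  rw [Finset.sum_add_distrib]
  have h1 := (summable_shift k u).sum_le_tsum S fun v _ => k.nonneg _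
  have h2 := (summable_shift' k u).sum_le_tsum S fun v _ => k.nonneg _
  rw [tsum_shift] at h1
  rw [tsum_shift'] at h2
  linarith

/-- Flux of discrepancies of density `d` through the boundary. -/
lemma flux_le {d : ℤ → ℝ} (hd0 : ∀ x, 0 ≤ d x) (hd1 : ∀ x, d x ≤ 1) (K j : ℕ) (S : Finset ℤ) :
    ∑ u ∈ box K, ∑ v ∈ S \ box K, (k.p (v - u) + k.p (u - v)) * (d u + d v)
      ≤ 4 * ∑ x ∈ nearBd K j, d x + 4 * tmom k j := by
  classical
  have h1 : ∀ u ∈ box K, ∀ v ∈ S \ box K, (k.p (v - u) + k.p (u - v)) * (d u + d v)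
      ≤ 2 * ((if |v - u| ≤ (j : ℤ) then 0 else k.p (v - u))
        + (if |u - v| ≤ (j : ℤ) then 0 else k.p (u - v)))
        + ((if u ∈ nearBd K j then d u else 0) * (k.p (v - u) + k.p (u - v))
        + (if v ∈ nearBd K j then d v else 0) * (k.p (v - u) + k.p (u - v))) := by
    intro u hu v hv
    have h2 := k.nonneg (v - u)
    have h3 := k.nonneg (u - v)
    have hu0 := hd0 u
    have hv0 := hd0 v
    have hu1 := hd1 u
    have hv1 := hd1 v
    by_cases hj : |v - u| ≤ (j : ℤ)
    · have hj' : |u - v| ≤ (j : ℤ) := by rwa [abs_sub_comm]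
      rw [if_pos hj, if_pos hj']
      rw [Finset.mem_sdiff] at hv
      have hv2 := hv.2
      rw [mem_box] at hv2 hu
      have h5 := abs_sub_abs_le_abs_sub v u
      have hun : u ∈ nearBd K j := by
        rw [nearBd, Finset.mem_filter, mem_box]
        push_cast
        constructor <;> omega
      have hvn : v ∈ nearBd K j := by
        rw [nearBd, Finset.mem_filter, mem_box]
        push_cast
        constructor <;> omega
      rw [if_pos hun, if_pos hvn]
      nlinarith
    · have hj' : ¬ |u - v| ≤ (j : ℤ) := by rwa [abs_sub_comm]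
      rw [if_neg hj, if_neg hj']
      have h6 : 0 ≤ (if u ∈ nearBd K j then d u else 0) := by split_ifs <;> linarith
      have h7 : 0 ≤ (if v ∈ nearBd K j then d v else 0) := by split_ifs <;> linarith
      have h8 := mul_nonneg h6 (add_nonneg h2 h3)
      have h9 := mul_nonneg h7 (add_nonneg h2 h3)
      nlinarith
  refine (Finset.sum_le_sum fun u hu => Finset.sum_le_sum fun v hv => h1 u hu v hv).trans ?_
  have e1 : ∀ u, ∑ v ∈ S \ box K, (2 * ((if |v - u| ≤ (j : ℤ) then 0 else k.p (v - u))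
        + (if |u - v| ≤ (j : ℤ) then 0 else k.p (u - v)))
        + ((if u ∈ nearBd K j then d u else 0) * (k.p (v - u) + k.p (u - v))
        + (if v ∈ nearBd K j then d v else 0) * (k.p (v - u) + k.p (u - v))))
      = 2 * (∑ v ∈ S \ box K, ((if |v - u| ≤ (j : ℤ) then 0 else k.p (v - u))
        + (if |u - v| ≤ (j : ℤ) then 0 else k.p (u - v))))
        + ((if u ∈ nearBd K j then d u else 0) * ∑ v ∈ S \ box K, (k.p (v - u) + k.p (u - v))
        + ∑ v ∈ S \ box K, (if v ∈ nearBd K j then d v else 0) * (k.p (v - u) + k.p (u - v))) := by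
    intro u
    rw [Finset.sum_add_distrib, Finset.sum_add_distrib, ← Finset.mul_sum, ← Finset.mul_sum]
  simp only [e1]
  rw [Finset.sum_add_distrib, Finset.sum_add_distrib, ← Finset.mul_sum]
  have h2 := cross_far_le k K j S
  have h3 : ∑ u ∈ box K, (if u ∈ nearBd K j then d u else 0)
      * ∑ v ∈ S \ box K, (k.p (v - u) + k.p (u - v)) ≤ 2 * ∑ x ∈ nearBd K j, d x := by
    calc _ ≤ ∑ u ∈ box K, (if u ∈ nearBd K j then d u else 0) * 2 := by
          refine Finset.sum_le_sum fun u _ => mul_le_mul_of_nonneg_left (sum_rate_le k _ u) ?_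
          split_ifs
          · exact hd0 u
          · exact le_rfl
      _ = 2 * ∑ u ∈ box K, (if u ∈ nearBd K j then d u else 0) := by
          rw [← Finset.sum_mul, mul_comm]
      _ = 2 * ∑ u ∈ box K with u ∈ nearBd K j, d u := by rw [Finset.sum_filter]
      _ ≤ 2 * ∑ x ∈ nearBd K j, d x := by
          refine mul_le_mul_of_nonneg_left ?_ (by norm_num)
          refine Finset.sum_le_sum_of_subset_of_nonneg (fun x hx => (Finset.mem_filter.mp hx).2)
            fun x _ _ => hd0 x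
  have h4 : ∑ u ∈ box K, ∑ v ∈ S \ box K, (if v ∈ nearBd K j then d v else 0)
      * (k.p (v - u) + k.p (u - v)) ≤ 2 * ∑ x ∈ nearBd K j, d x := by
    rw [Finset.sum_comm]
    calc _ = ∑ v ∈ S \ box K, (if v ∈ nearBd K j then d v else 0)
          * ∑ u ∈ box K, (k.p (u - v) + k.p (v - u)) := by
          refine Finset.sum_congr rfl fun v _ => ?_
          rw [Finset.mul_sum]
          refine Finset.sum_congr rfl fun u _ => ?_
          ring
      _ ≤ ∑ v ∈ S \ box K, (if v ∈ nearBd K j then d v else 0) * 2 := by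
          refine Finset.sum_le_sum fun v _ => mul_le_mul_of_nonneg_left (sum_rate_le k _ v) ?_
          split_ifs
          · exact hd0 v
          · exact le_rfl
      _ = 2 * ∑ v ∈ S \ box K, (if v ∈ nearBd K j then d v else 0) := by
          rw [← Finset.sum_mul, mul_comm]
      _ = 2 * ∑ v ∈ S \ box K with v ∈ nearBd K j, d v := by rw [Finset.sum_filter]
      _ ≤ 2 * ∑ x ∈ nearBd K j, d x := by
          refine mul_le_mul_of_nonneg_left ?_ (by norm_num)
          refine Finset.sum_le_sum_of_subset_of_nonneg (fun x hx => (Finset.mem_filter.mp hx).2)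
            fun x _ _ => hd0 x
  linarith

end Pool.Agent.Helper28Excl
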