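import Pool.Agent.Helper28_Excl.Func

/-! Stationary couplings. -/

namespace Pool.Agent.Helper28Excl

open Filter Topology

set_option linter.unusedSectionVars false
set_option linter.unusedVariables false

/-- The product system (basic coupling). -/
def XX : JumpSys (Config × Config) where
  T u v := (X.T u v).prodMap (X.T u v)
  agree N z z' := X.agree N z.1 z'.1 ∧ X.agree N z.2 z'.2
  agree_refl _ _ := ⟨X.agree_refl _ _, X.agree_refl _ _⟩
  agree_mono h h' := ⟨X.agree_mono h h'.1, X.agree_mono h h'.2⟩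
  loc z hu hv := ⟨X.loc z.1 hu hv, X.loc z.2 hu hv⟩
  pres hu hv h := ⟨X.pres hu hv h.1, X.pres hu hv h.2⟩

lemma XX_T (u v : ℤ) (z : Config × Config) : XX.T u v z = (jmp u v z.1, jmp u v z.2) := rfl

/-- First projection. -/
def pfst : C(Config × Config, Config) := ⟨Prod.fst, continuous_fst⟩

/-- Second projection. -/
def psnd : C(Config × Config, Config) := ⟨Prod.snd, continuous_snd⟩

@[simp] lemma pfst_apply (z : Config × Config) : pfst z = z.1 := rfl

@[simp] lemma psnd_apply (z : Config × Config) : psnd z = z.2 := rfl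

lemma pfst_T (u v : ℤ) (z : Config × Config) : pfst (XX.T u v z) = X.T u v (pfst z) := rfl

lemma psnd_T (u v : ℤ) (z : Config × Config) : psnd (XX.T u v z) = X.T u v (psnd z) := rfl

lemma Cyl_fst {K : ℕ} {f : C(Config, ℝ)} (hf : Cyl X K f) : Cyl XX K (pull pfst f) :=
  fun z z' h => hf _ _ h.1

lemma Cyl_snd {K : ℕ} {f : C(Config, ℝ)} (hf : Cyl X K f) : Cyl XX K (pull psnd f) :=
  fun z z' h => hf _ _ h.2

/-- The shift. -/
def sh : C(Config, Config) := ⟨fun η x => η (x + 1), by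
  exact continuous_pi fun x => continuous_apply (x + 1)⟩

@[simp] lemma sh_apply (η : Config) (x : ℤ) : sh η x = η (x + 1) := rfl

lemma sh_T (u v : ℤ) (η : Config) : sh (X.T u v η) = X.T (u + -1) (v + -1) (sh η) := by
  funext x
  simp only [X_T, sh_apply]
  unfold jmp
  have h1 : (x + 1 = u) ↔ (x = u + -1) := by omega
  have h2 : (x + 1 = v) ↔ (x = v + -1) := by omega
  simp only [h1, h2, sh_apply]
  have e1 : u + -1 + 1 = u := by ring
  have e2 : v + -1 + 1 = v := by ring
  rw [e1, e2]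

lemma Cyl_sh {K : ℕ} {f : C(Config, ℝ)} (hf : Cyl X K f) : Cyl X (K + 1) (pull sh f) := by
  intro η ζ h
  refine hf _ _ fun x hx => ?_
  refine h (x + 1) ?_
  rw [mem_box] at *
  push_cast
  rw [abs_le] at *
  constructor <;> omega

variable {k : Kern}

lemma InvState.sh {Λ : C(Config, ℝ) →ₗ[ℝ] ℝ} (h : InvState X k Λ) :
    InvState X k (Λ ∘ₗ pull sh) :=
  ⟨h.1.pull _, by rw [LinearMap.comp_apply, pull_one]; exact h.2.1,
    h.2.2.pull _ (-1) sh_T 1 fun K f hf => Cyl_sh hf⟩

/-- Cylinder functions form a subalgebra. -/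
noncomputable def cylAlg : Subalgebra ℝ C(Config, ℝ) where
  carrier := {f | ∃ K, Cyl X K f}
  mul_mem' := by
    rintro f g ⟨K, hf⟩ ⟨M, hg⟩
    exact ⟨max K M, Cyl_mul (hf.mono (le_max_left _ _)) (hg.mono (le_max_right _ _))⟩
  add_mem' := by
    rintro f g ⟨K, hf⟩ ⟨M, hg⟩
    refine ⟨max K M, fun z z' h => ?_⟩
    simp only [ContinuousMap.add_apply]
    rw [hf.mono (le_max_left _ _) z z' h, hg.mono (le_max_right _ _) z z' h]
  algebraMap_mem' := by
    intro r
    exact ⟨0, fun z z' h => rfl⟩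

/-- The coordinate functions. -/
noncomputable def ev (x : ℤ) : C(Config, ℝ) :=
  ⟨fun η => if η x then 1 else 0, by
    have h : Continuous fun b : Bool => (if b then (1 : ℝ) else 0) := continuous_of_discreteTopology
    exact h.comp (continuous_apply x)⟩

lemma ev_apply (x : ℤ) (η : Config) : ev x η = if η x then 1 else 0 := rfl

lemma Cyl_ev {K : ℕ} {x : ℤ} (hx : x ∈ box K) : Cyl X K (ev x) := by
  intro η ζ h
  rw [ev_apply, ev_apply, h x hx]

lemma exists_box (x : ℤ) : ∃ K : ℕ, x ∈ box K := ⟨x.natAbs, by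
  rw [mem_box, Int.abs_eq_natAbs]⟩

lemma cylAlg_dense : cylAlg.topologicalClosure = ⊤ := by
  refine ContinuousMap.subalgebra_topologicalClosure_eq_top_of_separatesPoints _ ?_
  intro η ζ h
  obtain ⟨x, hx⟩ := Function.ne_iff.mp h
  obtain ⟨K, hK⟩ := exists_box x
  refine ⟨ev x, ⟨ev x, ⟨K, Cyl_ev hK⟩, rfl⟩, ?_⟩
  rw [ev_apply, ev_apply]
  intro he
  apply hx
  cases h1 : η x <;> cases h2 : ζ x <;> simp_all

/-- Two positive functionals which agree on cylinder functions agree. -/
lemma eq_of_cyl {Λ M : C(Config, ℝ) →ₗ[ℝ] ℝ} (hΛ : IsPos Λ) (hM : IsPos M)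
    (h : ∀ K f, Cyl X K f → Λ f = M f) : Λ = M := by
  ext f
  have h1 : f ∈ closure (cylAlg : Set C(Config, ℝ)) := by
    rw [← Subalgebra.topologicalClosure_coe, cylAlg_dense]
    trivial
  obtain ⟨g, hg, hgf⟩ := mem_closure_iff_seq_limit.mp h1
  refine tendsto_nhds_unique (hΛ.tendsto hgf) ?_
  refine (hM.tendsto hgf).congr fun n => ?_
  obtain ⟨K, hK⟩ := hg n
  exact (h K _ hK).symm

/-- The resolvent as a linear map. -/
noncomputable def Ropl {Z : Type*} [TopologicalSpace Z] [CompactSpace Z] (J : JumpSys Z)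
    (k : Kern) (N : ℕ) {t : ℝ} (ht : 0 ≤ t) : C(Z, ℝ) →ₗ[ℝ] C(Z, ℝ) where
  toFun := Rop J k N t
  map_add' := Rop_add J k N ht
  map_smul' := Rop_smul J k N t

/-- Existence of stationary couplings. -/
lemma exists_coupling {M : C(Config × Config, ℝ) →ₗ[ℝ] ℝ} (hM : IsPos M) (hM1 : M 1 = 1)
    (h1 : Stat X k (M ∘ₗ pull pfst)) (h2 : Stat X k (M ∘ₗ pull psnd)) :
    ∃ ν : C(Config × Config, ℝ) →ₗ[ℝ] ℝ, InvState XX k ν ∧
      ν ∘ₗ pull pfst = M ∘ₗ pull pfst ∧ ν ∘ₗ pull psnd = M ∘ₗ pull psnd := by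
  set U : Ultrafilter ℕ := hyperfilter ℕ with hU
  have hUle : (U : Filter ℕ) ≤ atTop := Nat.hyperfilter_le_atTop
  have hT : ∀ T : ℕ, (0 : ℝ) < (T : ℝ) + 1 := fun T => by positivity
  set a : ℕ → ℕ → (C(Config × Config, ℝ) →ₗ[ℝ] ℝ) :=
    fun T N => M ∘ₗ Ropl XX k N (hT T).le with ha
  have hapos : ∀ T N, IsPos (a T N) := fun T N g hg => hM _ (Rop_nonneg XX k (hT T).le hg)
  have ha1 : ∀ T N, a T N 1 = 1 := fun T N => by
    change M (Rop XX k N _ 1) = 1
    rw [Rop_one XX k (hT T).le, hM1]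
  have key : ∀ T : ℕ, ∃ ν : C(Config × Config, ℝ) →ₗ[ℝ] ℝ, IsPos ν ∧ ν 1 = 1 ∧
      (∀ K h, Cyl XX K h → |ν (Linf XX k h)| ≤ 2 * ‖h‖ / (T + 1)) ∧
      ν ∘ₗ pull pfst = M ∘ₗ pull pfst ∧ ν ∘ₗ pull psnd = M ∘ₗ pull psnd := by
    intro T
    obtain ⟨ν, hν, hlim⟩ := exists_ulim U (a T) (hapos T) fun N => (ha1 T N).le
    refine ⟨ν, hν, ?_, fun K h hh => ?_, ?_, ?_⟩
    · refine tendsto_nhds_unique (hlim 1) ?_
      exact tendsto_const_nhds.congr fun N => (ha1 T N).symm
    · have h3 : Tendsto (fun N => a T N (LN XX k N h)) U (𝓝 (ν (Linf XX k h))) := by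
        have h4 : Tendsto (fun N => a T N (LN XX k N h) - a T N (Linf XX k h)) U (𝓝 0) := by
          have h5 : Tendsto (fun N => ‖LN XX k N h - Linf XX k h‖) U (𝓝 0) :=
            (tendsto_iff_norm_sub_tendsto_zero.mp (LN_tendsto XX k hh)).mono_left hUle
          refine squeeze_zero_norm (fun N => ?_) h5
          rw [← map_sub, Real.norm_eq_abs]
          have := (hapos T N).abs_le (LN XX k N h - Linf XX k h)
          rwa [ha1, one_mul] at this
        have h6 := h4.add (hlim (Linf XX k h))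
        rw [zero_add] at h6
        refine h6.congr fun N => ?_
        ring
      refine le_of_tendsto h3.abs ?_
      refine Filter.Eventually.of_forall fun N => ?_
      change |M (Rop XX k N _ (LN XX k N h))| ≤ _
      rw [Rop_LN XX k N (hT T).le]
      have h4 : LN XX k N (Rop XX k N ((T : ℝ) + 1) h)
          = ((T : ℝ) + 1)⁻¹ • (Rop XX k N ((T : ℝ) + 1) h - h) := by
        rw [Rop_eq XX k N (hT T).le, smul_smul, inv_mul_cancel₀ (hT T).ne', one_smul]
      rw [h4, map_smul, smul_eq_mul, abs_mul, abs_of_pos (inv_pos.mpr (hT T)), map_sub]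
      have h5 := (hapos T N).abs_le h
      have h6 := hM.abs_le h
      rw [ha1, one_mul] at h5
      rw [hM1, one_mul] at h6
      have h7 : |M (Rop XX k N ((T : ℝ) + 1) h) - M h| ≤ 2 * ‖h‖ := by
        have h8 : |M (Rop XX k N ((T : ℝ) + 1) h)| ≤ ‖h‖ := h5
        have := abs_sub (M (Rop XX k N ((T : ℝ) + 1) h)) (M h)
        linarith
      calc ((T : ℝ) + 1)⁻¹ * |M (Rop XX k N ((T : ℝ) + 1) h) - M h|
          ≤ ((T : ℝ) + 1)⁻¹ * (2 * ‖h‖) :=
            mul_le_mul_of_nonneg_left h7 (inv_nonneg.mpr (hT T).le)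
        _ = 2 * ‖h‖ / (T + 1) := by ring
    · refine eq_of_cyl (hν.pull _) (hM.pull _) fun K f hf => ?_
      refine tendsto_nhds_unique (hlim (pull pfst f)) ?_
      have h3 := (err_tendsto k hf (hT T).le).mono_left hUle
      have h4 : Tendsto (fun N => a T N (pull pfst f) - M (pull pfst f)) U (𝓝 0) := by
        have h5 := h3.const_mul ((T : ℝ) + 1)
        rw [mul_zero] at h5
        refine squeeze_zero_norm' ?_ h5
        filter_upwards [hUle (eventually_ge_atTop K)] with N hN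
        change ‖M (Rop XX k N _ (pull pfst f)) - _‖ ≤ _
        rw [Rop_pull (J := X) pfst pfst_T N (hT T).le, Real.norm_eq_abs]
        exact abs_Rop_sub_le (Λ := M ∘ₗ pull pfst) (hM.pull _)
          (by rw [LinearMap.comp_apply, pull_one, hM1]) h1 (hf.mono hN) (hT T).le
      have h6 := h4.add_const (M (pull pfst f))
      rw [zero_add] at h6
      exact h6.congr fun N => by ring
    · refine eq_of_cyl (hν.pull _) (hM.pull _) fun K f hf => ?_
      refine tendsto_nhds_unique (hlim (pull psnd f)) ?_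
      have h3 := (err_tendsto k hf (hT T).le).mono_left hUle
      have h4 : Tendsto (fun N => a T N (pull psnd f) - M (pull psnd f)) U (𝓝 0) := by
        have h5 := h3.const_mul ((T : ℝ) + 1)
        rw [mul_zero] at h5
        refine squeeze_zero_norm' ?_ h5
        filter_upwards [hUle (eventually_ge_atTop K)] with N hN
        change ‖M (Rop XX k N _ (pull psnd f)) - _‖ ≤ _
        rw [Rop_pull (J := X) psnd psnd_T N (hT T).le, Real.norm_eq_abs]
        exact abs_Rop_sub_le (Λ := M ∘ₗ pull psnd) (hM.pull _)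
          (by rw [LinearMap.comp_apply, pull_one, hM1]) h2 (hf.mono hN) (hT T).le
      have h6 := h4.add_const (M (pull psnd f))
      rw [zero_add] at h6
      exact h6.congr fun N => by ring
  choose n hnpos hn1 hnstat hnfst hnsnd using key
  obtain ⟨ν, hν, hlim⟩ := exists_ulim U n hnpos fun T => (hn1 T).le
  refine ⟨ν, ⟨hν, ?_, fun K h hh => ?_⟩, ?_, ?_⟩
  · refine tendsto_nhds_unique (hlim 1) ?_
    exact tendsto_const_nhds.congr fun T => (hn1 T).symm
  · refine tendsto_nhds_unique (hlim (Linf XX k h)) ?_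
    have h3 : Tendsto (fun T : ℕ => 2 * ‖h‖ / ((T : ℝ) + 1)) U (𝓝 0) := by
      have h4 := (tendsto_one_div_add_atTop_nhds_zero_nat (𝕜 := ℝ)).const_mul (2 * ‖h‖)
      rw [mul_zero] at h4
      refine (h4.mono_left hUle).congr fun T => ?_
      ring
    exact squeeze_zero_norm (fun T => by rw [Real.norm_eq_abs]; exact hnstat T K h hh) h3
  · ext f
    refine tendsto_nhds_unique (hlim (pull pfst f)) ?_
    refine tendsto_const_nhds.congr fun T => ?_
    exact (LinearMap.congr_fun (hnfst T) f).symm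
  · ext f
    refine tendsto_nhds_unique (hlim (pull psnd f)) ?_
    refine tendsto_const_nhds.congr fun T => ?_
    exact (LinearMap.congr_fun (hnsnd T) f).symm

end Pool.Agent.Helper28Excl
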