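import Pool.Agent.Helper28_Excl.Err

/-! Energy inequality for stationary functionals. -/

namespace Pool.Agent.Helper28Excl

open Filter Topology

set_option linter.unusedSectionVars false
set_option linter.unusedVariables false

section generic

variable {Z : Type*} [TopologicalSpace Z] [CompactSpace Z] (J : JumpSys Z) (k : Kern)

/-- Carre du champ of the finite volume generator. -/
noncomputable def Gam (N : ℕ) (h : C(Z, ℝ)) : C(Z, ℝ) :=
  ∑ q ∈ box N ×ˢ box N, k.p (q.2 - q.1) •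
    ((h.comp (J.T q.1 q.2) - h) * (h.comp (J.T q.1 q.2) - h))

lemma Gam_apply (N : ℕ) (h : C(Z, ℝ)) (z : Z) :
    Gam J k N h z = ∑ q ∈ box N ×ˢ box N, k.p (q.2 - q.1)
      * ((h (J.T q.1 q.2 z) - h z) * (h (J.T q.1 q.2 z) - h z)) := by
  unfold Gam
  rw [ContinuousMap.coe_sum, Finset.sum_apply]
  rfl

lemma LN_sq_apply (N : ℕ) (h : C(Z, ℝ)) (z : Z) :
    LN J k N (h * h) z = 2 * (h z * LN J k N h z) + Gam J k N h z := by
  rw [LN_apply, LN_apply, Gam_apply, Finset.mul_sum, Finset.mul_sum, ← Finset.sum_add_distrib]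
  refine Finset.sum_congr rfl fun q _ => ?_
  simp only [ContinuousMap.mul_apply]
  ring

lemma Rop_eq_apply (N : ℕ) {t : ℝ} (ht : 0 ≤ t) (g : C(Z, ℝ)) (z : Z) :
    Rop J k N t g z - g z = t * LN J k N (Rop J k N t g) z := by
  have := congrArg (fun s : C(Z, ℝ) => s z) (Rop_eq J k N ht g)
  simpa using this

variable {J k}

/-- Energy inequality. -/
lemma energy_le {Λ : C(Z, ℝ) →ₗ[ℝ] ℝ} (hΛ : IsPos Λ) (h1 : Λ 1 = 1) (hs : Stat J k Λ) {N : ℕ}
    {f : C(Z, ℝ)} (hf : Cyl J N f) (hf0 : ∀ z, 0 ≤ f z) (hf1 : ∀ z, f z ≤ 1) {t : ℝ}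
    (ht : 0 < t) :
    Λ (Gam J k N (Rop J k N t f)) ≤ 1 / (2 * t)
      + ‖Linf J k (Rop J k N t f * Rop J k N t f) - LN J k N (Rop J k N t f * Rop J k N t f)‖ := by
  set h := Rop J k N t f with hh
  have hcyl : Cyl J N (h * h) := Cyl_mul (Cyl_Rop J k ht.le hf) (Cyl_Rop J k ht.le hf)
  have h2 : Λ (Gam J k N h) ≤ Λ (LN J k N (h * h) + (1 / (2 * t)) • (1 : C(Z, ℝ))) := by
    refine hΛ.mono fun z => ?_
    simp only [ContinuousMap.add_apply, ContinuousMap.smul_apply, ContinuousMap.one_apply,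
      smul_eq_mul, mul_one]
    rw [LN_sq_apply]
    have e := Rop_eq_apply J k N ht.le f z
    rw [← hh] at e
    have e2 : LN J k N h z = (h z - f z) / t := by
      rw [e]; field_simp
    rw [e2]
    have e3 : 0 ≤ 2 * (h z * ((h z - f z) / t)) + 1 / (2 * t) := by
      have e4 : 2 * (h z * ((h z - f z) / t)) + 1 / (2 * t)
          = (4 * (h z * (h z - f z)) + 1) / (2 * t) := by
        field_simp
        ring
      rw [e4]
      apply div_nonneg _ (by positivity)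
      nlinarith [sq_nonneg (2 * h z - f z), hf0 z, hf1 z]
    linarith
  rw [map_add, map_smul, h1, smul_eq_mul, mul_one] at h2
  have h3 : Λ (LN J k N (h * h)) ≤ ‖Linf J k (h * h) - LN J k N (h * h)‖ := by
    have h4 := hΛ.abs_le (LN J k N (h * h) - Linf J k (h * h))
    rw [map_sub, hs N _ hcyl, sub_zero, h1, one_mul, norm_sub_rev] at h4
    exact (le_abs_self _).trans h4
  linarith

/-- Stationary functionals and the resolvent. -/
lemma abs_Rop_sub_le {Λ : C(Z, ℝ) →ₗ[ℝ] ℝ} (hΛ : IsPos Λ) (h1 : Λ 1 = 1) (hs : Stat J k Λ)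
    {N : ℕ} {f : C(Z, ℝ)} (hf : Cyl J N f) {t : ℝ} (ht : 0 ≤ t) :
    |Λ (Rop J k N t f) - Λ f| ≤ t * ‖Linf J k (Rop J k N t f) - LN J k N (Rop J k N t f)‖ := by
  rw [← map_sub, Rop_eq J k N ht, map_smul, smul_eq_mul, abs_mul, abs_of_nonneg ht]
  refine mul_le_mul_of_nonneg_left ?_ ht
  have h4 := hΛ.abs_le (LN J k N (Rop J k N t f) - Linf J k (Rop J k N t f))
  rw [map_sub, hs N _ (Cyl_Rop J k ht hf), sub_zero, h1, one_mul, norm_sub_rev] at h4
  exact h4

end generic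

end Pool.Agent.Helper28Excl
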