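import Pool.Agent.Helper28_Excl.Config

/-! Discrepancy bounds for resolvents and the finite volume error. -/

namespace Pool.Agent.Helper28Excl

open Filter Topology

set_option linter.unusedSectionVars false
set_option linter.unusedVariables false

variable (k : Kern)

lemma Disc_T {ψ : ℤ → ℝ} {ℓ : ℝ} (hℓ : 0 ≤ ℓ) (hL : ∀ x y, |ψ x - ψ y| ≤ ℓ * |((x - y : ℤ) : ℝ)|)
    {s : C(Config, ℝ)} (hs : Disc ψ s) (u v x : ℤ) (η : Config) :
    |s (jmp u v (Function.update η x true)) - s (jmp u v (Function.update η x false))|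
      ≤ ψ x + ℓ * (if x = u then |((v - u : ℤ) : ℝ)| else 0)
        + ℓ * (if x = v then |((v - u : ℤ) : ℝ)| else 0) := by
  obtain ⟨x', ω, hx', h1, h2⟩ := jmp_update u v x η
  rw [h1, h2]
  have h3 := hs x' ω
  have e0 : 0 ≤ ℓ * (if x = u then |((v - u : ℤ) : ℝ)| else 0) := by
    split_ifs
    · exact mul_nonneg hℓ (abs_nonneg _)
    · simp
  have e1 : 0 ≤ ℓ * (if x = v then |((v - u : ℤ) : ℝ)| else 0) := by
    split_ifs
    · exact mul_nonneg hℓ (abs_nonneg _)
    · simp
  rcases hx' with hx' | ⟨hx, hx'⟩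
  · subst hx'
    linarith
  · have h4 : ψ x' ≤ ψ x + ℓ * |((v - u : ℤ) : ℝ)| := by
      have h5 := hL x' x
      have h6 := le_abs_self (ψ x' - ψ x)
      have h7 : |((x' - x : ℤ) : ℝ)| ≤ |((v - u : ℤ) : ℝ)| := by
        have : |x' - x| ≤ |v - u| := by
          rcases hx with hx | hx <;> rcases hx' with hx' | hx'
          · rw [hx, hx', sub_self, abs_zero]; exact abs_nonneg _
          · rw [hx, hx']
          · rw [hx, hx', abs_sub_comm]
          · rw [hx, hx', sub_self, abs_zero]; exact abs_nonneg _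
        exact_mod_cast this
      have h8 := mul_le_mul_of_nonneg_left h7 hℓ
      linarith
    rcases hx with hx | hx
    · rw [if_pos hx]
      linarith
    · rw [if_pos hx]
      linarith

lemma sum_lip_le (N : ℕ) (x : ℤ) :
    ∑ q ∈ box N ×ˢ box N, k.p (q.2 - q.1) * (if x = q.1 then |((q.2 - q.1 : ℤ) : ℝ)| else 0)
      ≤ mom k := by
  rw [Finset.sum_product]
  calc ∑ u ∈ box N, ∑ v ∈ box N, k.p (v - u) * (if x = u then |((v - u : ℤ) : ℝ)| else 0)
      = ∑ v ∈ box N, ∑ u ∈ box N, k.p (v - u) * (if x = u then |((v - u : ℤ) : ℝ)| else 0) :=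
        Finset.sum_comm
    _ ≤ ∑ v ∈ box N, |((v - x : ℤ) : ℝ)| * k.p (v - x) := by
        refine Finset.sum_le_sum fun v _ => ?_
        have : ∀ u ∈ box N, k.p (v - u) * (if x = u then |((v - u : ℤ) : ℝ)| else 0)
            = if x = u then |((v - x : ℤ) : ℝ)| * k.p (v - x) else 0 := by
          intro u _
          split_ifs with h
          · rw [h]; ring
          · ring
        rw [Finset.sum_congr rfl this, Finset.sum_ite_eq]
        split_ifs
        · exact le_rfl
        · exact mul_nonneg (abs_nonneg _) (k.nonneg _)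
    _ ≤ mom k := by
        have hs : Summable fun v : ℤ => |((v - x : ℤ) : ℝ)| * k.p (v - x) :=
          (Equiv.subRight x).summable_iff.mpr k.mom
        have he : ∑' v : ℤ, |((v - x : ℤ) : ℝ)| * k.p (v - x) = mom k :=
          (Equiv.subRight x).tsum_eq fun n : ℤ => |(n : ℝ)| * k.p n
        rw [← he]
        exact hs.sum_le_tsum _ fun v _ => mul_nonneg (abs_nonneg _) (k.nonneg _)

lemma sum_lip_le' (N : ℕ) (x : ℤ) :
    ∑ q ∈ box N ×ˢ box N, k.p (q.2 - q.1) * (if x = q.2 then |((q.2 - q.1 : ℤ) : ℝ)| else 0)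
      ≤ mom k := by
  rw [Finset.sum_product]
  calc ∑ u ∈ box N, ∑ v ∈ box N, k.p (v - u) * (if x = v then |((v - u : ℤ) : ℝ)| else 0)
      ≤ ∑ u ∈ box N, |((x - u : ℤ) : ℝ)| * k.p (x - u) := by
        refine Finset.sum_le_sum fun u _ => ?_
        have : ∀ v ∈ box N, k.p (v - u) * (if x = v then |((v - u : ℤ) : ℝ)| else 0)
            = if x = v then |((x - u : ℤ) : ℝ)| * k.p (x - u) else 0 := by
          intro v _
          split_ifs with h
          · rw [h]; ring
          · ring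
        rw [Finset.sum_congr rfl this, Finset.sum_ite_eq]
        split_ifs
        · exact le_rfl
        · exact mul_nonneg (abs_nonneg _) (k.nonneg _)
    _ ≤ mom k := by
        have hs : Summable fun v : ℤ => |((x - v : ℤ) : ℝ)| * k.p (x - v) :=
          (Equiv.subLeft x).summable_iff.mpr k.mom
        have he : ∑' v : ℤ, |((x - v : ℤ) : ℝ)| * k.p (x - v) = mom k :=
          (Equiv.subLeft x).tsum_eq fun n : ℤ => |(n : ℝ)| * k.p n
        rw [← he]
        exact hs.sum_le_tsum _ fun v _ => mul_nonneg (abs_nonneg _) (k.nonneg _)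

lemma Disc_Aop {ψ : ℤ → ℝ} {ℓ : ℝ} (hℓ : 0 ≤ ℓ)
    (hL : ∀ x y, |ψ x - ψ y| ≤ ℓ * |((x - y : ℤ) : ℝ)|)
    {s : C(Config, ℝ)} (hs : Disc ψ s) (N : ℕ) :
    Disc (fun x => crate k N * ψ x + 2 * mom k * ℓ) (Aop X k N s) := by
  intro x η
  rw [Aop_apply, Aop_apply, ← Finset.sum_sub_distrib]
  simp only [X_T]
  refine (Finset.abs_sum_le_sum_abs _ _).trans ?_
  have h1 : ∀ q ∈ box N ×ˢ box N,
      |k.p (q.2 - q.1) * s (jmp q.1 q.2 (Function.update η x true))
        - k.p (q.2 - q.1) * s (jmp q.1 q.2 (Function.update η x false))|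
      ≤ k.p (q.2 - q.1) * ψ x
        + (ℓ * (k.p (q.2 - q.1) * (if x = q.1 then |((q.2 - q.1 : ℤ) : ℝ)| else 0))
        + ℓ * (k.p (q.2 - q.1) * (if x = q.2 then |((q.2 - q.1 : ℤ) : ℝ)| else 0))) := by
    intro q _
    rw [← mul_sub, abs_mul, abs_of_nonneg (k.nonneg _)]
    have := mul_le_mul_of_nonneg_left (Disc_T hℓ hL hs q.1 q.2 x η) (k.nonneg (q.2 - q.1))
    linarith
  refine (Finset.sum_le_sum h1).trans ?_
  rw [Finset.sum_add_distrib, Finset.sum_add_distrib, ← Finset.sum_mul, ← Finset.mul_sum,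
    ← Finset.mul_sum]
  have h2 := mul_le_mul_of_nonneg_left (sum_lip_le k N x) hℓ
  have h3 := mul_le_mul_of_nonneg_left (sum_lip_le' k N x) hℓ
  simp only [crate]
  linarith

/-- Discrepancy bound for the resolvent (speed bound). -/
lemma Disc_Rop {ψ : ℤ → ℝ} {ℓ : ℝ} (hℓ : 0 ≤ ℓ) (hψ : ∀ x, 0 ≤ ψ x)
    (hL : ∀ x y, |ψ x - ψ y| ≤ ℓ * |((x - y : ℤ) : ℝ)|)
    {g : C(Config, ℝ)} (hg : Disc ψ g) (N : ℕ) {t : ℝ} (ht : 0 ≤ t) :
    Disc (fun x => ψ x + 2 * mom k * ℓ * t) (Rop X k N t g) := by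
  have hm := mom_nonneg k
  have hκ : 0 ≤ 2 * mom k * ℓ * t := by positivity
  have hS : IsClosed {s : C(Config, ℝ) | Disc (fun x => ψ x + 2 * mom k * ℓ * t) s} := by
    have : {s : C(Config, ℝ) | Disc (fun x => ψ x + 2 * mom k * ℓ * t) s}
        = ⋂ x, ⋂ η, {s : C(Config, ℝ) | |s (Function.update η x true)
          - s (Function.update η x false)| ≤ ψ x + 2 * mom k * ℓ * t} := by
      ext s
      simp only [Set.mem_ofPred_eq, Set.mem_iInter, Disc]
    rw [this]
    exact isClosed_iInter fun x => isClosed_iInter fun η =>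
      isClosed_le ((continuous_ev _).sub (continuous_ev _)).abs continuous_const
  refine Rop_mem X k hS N ht g ?_ ?_
  · intro x η
    simp only [ContinuousMap.zero_apply, sub_self, abs_zero]
    have := hψ x
    linarith
  · intro s hs x η
    have hL' : ∀ x y, |(ψ x + 2 * mom k * ℓ * t) - (ψ y + 2 * mom k * ℓ * t)|
        ≤ ℓ * |((x - y : ℤ) : ℝ)| := by
      intro x y
      rw [add_sub_add_right_eq_sub]
      exact hL x y
    have h1 := Disc_Aop k hℓ hL' hs N x η
    have h2 := hg x η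
    simp only [ContinuousMap.smul_apply, ContinuousMap.add_apply, smul_eq_mul]
    rw [← mul_sub, abs_mul, abs_of_pos (alph_pos k N ht)]
    have h3 : |g (Function.update η x true) + t * Aop X k N s (Function.update η x true)
        - (g (Function.update η x false) + t * Aop X k N s (Function.update η x false))|
        ≤ ψ x + t * (crate k N * (ψ x + 2 * mom k * ℓ * t) + 2 * mom k * ℓ) := by
      have e : g (Function.update η x true) + t * Aop X k N s (Function.update η x true)
        - (g (Function.update η x false) + t * Aop X k N s (Function.update η x false))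
        = (g (Function.update η x true) - g (Function.update η x false))
        + t * (Aop X k N s (Function.update η x true)
          - Aop X k N s (Function.update η x false)) := by ring
      rw [e]
      refine (abs_add_le _ _).trans (add_le_add h2 ?_)
      rw [abs_mul, abs_of_nonneg ht]
      exact mul_le_mul_of_nonneg_left h1 ht
    refine (mul_le_mul_of_nonneg_left h3 (alph_pos k N ht).le).trans ?_
    have h4 := alph_mul k N ht
    have h5 : alph k N t * (ψ x + t * (crate k N * (ψ x + 2 * mom k * ℓ * t) + 2 * mom k * ℓ))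
        = (alph k N t * (1 + t * crate k N)) * (ψ x + 2 * mom k * ℓ * t) := by ring
    rw [h5, h4, one_mul]

/-- Changing one boundary jump. -/
lemma Lterm_out {N : ℕ} {h : C(Config, ℝ)} (hh : Cyl X N h) {ψ : ℤ → ℝ} (hψ : ∀ x, 0 ≤ ψ x)
    (hd : Disc ψ h)
    {u v : ℤ} (hu : u ∈ box N) (hv : v ∉ box N) (η : Config) :
    |h (jmp u v η) - h η| ≤ ψ u ∧ |h (jmp v u η) - h η| ≤ ψ u := by
  have huv : u ≠ v := fun e => hv (e ▸ hu)
  have key : ∀ ζ : Config, (∀ x ∈ box N, x ≠ u → ζ x = η x) → |h ζ - h η| ≤ ψ u := by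
    intro ζ hζ
    by_cases e : ζ u = η u
    · rw [hh ζ η (fun x hx => by
        by_cases hxu : x = u
        · rw [hxu, e]
        · exact hζ x hx hxu), sub_self, abs_zero]
      exact hψ u
    · cases h1 : ζ u
      · have h2 : η u = true := by
          cases h3 : η u
          · rw [h1, h3] at e; exact absurd rfl e
          · rfl
        have e1 : h ζ = h (Function.update η u false) := hh _ _ fun x hx => by
          by_cases hxu : x = u
          · subst hxu; simp [h1]
          · simp [hxu, hζ x hx hxu]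
        have e2 : h η = h (Function.update η u true) := by
          congr 1
          funext x
          by_cases hxu : x = u
          · subst hxu; simp [h2]
          · simp [hxu]
        rw [e1, e2, abs_sub_comm]
        exact hd u η
      · have h2 : η u = false := by
          cases h3 : η u
          · rfl
          · rw [h1, h3] at e; exact absurd rfl e
        have e1 : h ζ = h (Function.update η u true) := hh _ _ fun x hx => by
          by_cases hxu : x = u
          · subst hxu; simp [h1]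
          · simp [hxu, hζ x hx hxu]
        have e2 : h η = h (Function.update η u false) := by
          congr 1
          funext x
          by_cases hxu : x = u
          · subst hxu; simp [h2]
          · simp [hxu]
        rw [e1, e2]
        exact hd u η
  constructor
  · refine key _ fun x hx hxu => jmp_of_ne η hxu fun e => hv (e ▸ hx)
  · refine key _ fun x hx hxu => jmp_of_ne η (fun e => hv (e ▸ hx)) hxu

lemma norm_LN_sub_le {N M : ℕ} (hNM : N ≤ M) {h : C(Config, ℝ)} (hh : Cyl X N h) {ψ : ℤ → ℝ}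
    (hψ : ∀ x, 0 ≤ ψ x) (hd : Disc ψ h) :
    ‖LN X k M h - LN X k N h‖
      ≤ ∑ u ∈ box N, ∑ v ∈ box M \ box N, (k.p (v - u) + k.p (u - v)) * ψ u := by
  rw [LN_eq_sum, LN_eq_sum, sum_box_split (fun u v => Lterm X k h (u, v)) hNM]
  have h0 : ∑ u ∈ box M \ box N, ∑ v ∈ box M \ box N, Lterm X k h (u, v) = 0 := by
    refine Finset.sum_eq_zero fun u hu => Finset.sum_eq_zero fun v hv => ?_
    exact Lterm_zero X k hh (Finset.mem_sdiff.mp hu).2 (Finset.mem_sdiff.mp hv).2
  rw [h0, add_zero, add_sub_cancel_left]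
  refine (norm_sum_le _ _).trans (Finset.sum_le_sum fun u hu => ?_)
  refine (norm_sum_le _ _).trans (Finset.sum_le_sum fun v hv => ?_)
  refine (norm_add_le _ _).trans ?_
  have hv' := (Finset.mem_sdiff.mp hv).2
  rw [add_mul]
  refine add_le_add ?_ ?_
  · unfold Lterm
    rw [norm_smul, Real.norm_of_nonneg (k.nonneg _)]
    refine mul_le_mul_of_nonneg_left ?_ (k.nonneg _)
    rw [ContinuousMap.norm_le _ (hψ u)]
    intro η
    exact (Lterm_out hh hψ hd hu hv' η).1
  · unfold Lterm
    rw [norm_smul, Real.norm_of_nonneg (k.nonneg _)]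
    refine mul_le_mul_of_nonneg_left ?_ (k.nonneg _)
    rw [ContinuousMap.norm_le _ (hψ u)]
    intro η
    exact (Lterm_out hh hψ hd hu hv' η).2

lemma norm_Linf_sub_le {N J : ℕ} (hJ : J ≤ N) {h : C(Config, ℝ)} (hh : Cyl X N h) {ψ : ℤ → ℝ}
    {a s : ℝ} (hψ : ∀ x, 0 ≤ ψ x) (hd : Disc ψ h)
    (ha : ∀ u ∈ box J, ψ u ≤ a) (hs : ∀ u ∉ box J, ψ u ≤ s) (ha0 : 0 ≤ a) (hs0 : 0 ≤ s) :
    ‖Linf X k h - LN X k N h‖ ≤ 2 * a * tmom k (N - J) + 2 * s * mom k := by
  have h1 : Tendsto (fun M => ‖LN X k M h - LN X k N h‖) atTop (𝓝 ‖Linf X k h - LN X k N h‖) :=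
    ((LN_tendsto X k hh).sub_const _).norm
  refine le_of_tendsto h1 ?_
  filter_upwards [eventually_ge_atTop N] with M hM
  exact (norm_LN_sub_le k hM hh hψ hd).trans (weighted_cross_le k hJ hψ ha hs ha0 hs0 _)

/-- The tent profile. -/
noncomputable def tent (K : ℕ) (L : ℝ) (x : ℤ) : ℝ :=
  max 0 (min 1 (1 - (|(x : ℝ)| - K) / L))

lemma tent_nonneg (K : ℕ) (L : ℝ) (x : ℤ) : 0 ≤ tent K L x := le_max_left _ _

lemma tent_le_one (K : ℕ) (L : ℝ) (x : ℤ) : tent K L x ≤ 1 :=
  max_le zero_le_one (min_le_left _ _)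

lemma tent_lip (K : ℕ) {L : ℝ} (hL : 0 < L) (x y : ℤ) :
    |tent K L x - tent K L y| ≤ (1 / L) * |((x - y : ℤ) : ℝ)| := by
  have h1 : |tent K L x - tent K L y|
      ≤ |(1 - (|(x : ℝ)| - K) / L) - (1 - (|(y : ℝ)| - K) / L)| := by
    unfold tent
    rw [max_comm 0, max_comm 0, min_comm 1, min_comm 1]
    refine (abs_max_sub_max_le_abs _ _ _).trans ?_
    have := abs_min_sub_min_le_max (1 - (|(x : ℝ)| - K) / L) 1 (1 - (|(y : ℝ)| - K) / L) 1
    rwa [sub_self, abs_zero, max_eq_left (abs_nonneg _)] at this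
  refine h1.trans ?_
  have h2 : (1 - (|(x : ℝ)| - K) / L) - (1 - (|(y : ℝ)| - K) / L)
      = (1 / L) * (|(y : ℝ)| - |(x : ℝ)|) := by ring
  rw [h2, abs_mul, abs_of_pos (by positivity : 0 < 1 / L)]
  refine mul_le_mul_of_nonneg_left ?_ (by positivity)
  have h3 := abs_abs_sub_abs_le (y : ℝ) (x : ℝ)
  rw [abs_sub_comm (y : ℝ)] at h3
  push_cast
  exact h3

lemma tent_eq_one (K : ℕ) {L : ℝ} (hL : 0 < L) {x : ℤ} (hx : x ∈ box K) : tent K L x = 1 := by
  rw [mem_box] at hx
  have h1 : |(x : ℝ)| ≤ K := by exact_mod_cast hx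
  unfold tent
  have h2 : (|(x : ℝ)| - K) / L ≤ 0 := div_nonpos_of_nonpos_of_nonneg (by linarith) hL.le
  rw [min_eq_left (by linarith), max_eq_right zero_le_one]

lemma tent_eq_zero (K : ℕ) {L : ℝ} (hL : 0 < L) {x : ℤ} (hx : K + L ≤ |(x : ℝ)|) :
    tent K L x = 0 := by
  unfold tent
  have h2 : 1 ≤ (|(x : ℝ)| - K) / L := by
    rw [le_div_iff₀ hL]
    linarith
  exact max_eq_left ((min_le_right _ _).trans (by linarith))

lemma Disc_of_Cyl {K : ℕ} {f : C(Config, ℝ)} (hf : Cyl X K f) {L : ℝ} (hL : 0 < L) :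
    Disc (fun x => 2 * ‖f‖ * tent K L x) f := by
  intro x η
  by_cases hx : x ∈ box K
  · simp only [tent_eq_one K hL hx, mul_one]
    have h1 := f.norm_coe_le_norm (Function.update η x true)
    have h2 := f.norm_coe_le_norm (Function.update η x false)
    rw [Real.norm_eq_abs] at h1 h2
    rw [abs_le] at h1 h2 ⊢
    constructor <;> linarith [h1.1, h1.2, h2.1, h2.2]
  · have : f (Function.update η x true) = f (Function.update η x false) := hf _ _ fun y hy => by
      have : y ≠ x := fun e => hx (e ▸ hy)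
      simp [this]
    rw [this, sub_self, abs_zero]
    exact mul_nonneg (mul_nonneg (by norm_num) (norm_nonneg _)) (tent_nonneg _ _ _)

/-- General finite volume error estimate. -/
lemma err_general {K N0 : ℕ} {A B : ℝ} (hA : 0 ≤ A) (hB : 0 ≤ B) {h : ℕ → C(Config, ℝ)}
    (hcyl : ∀ N ≥ N0, Cyl X N (h N))
    (hd : ∀ L : ℝ, 0 < L → ∀ N ≥ N0, Disc (fun x => A * tent K L x + B / L) (h N)) :
    Tendsto (fun N => ‖Linf X k (h N) - LN X k N (h N)‖) atTop (𝓝 0) := by
  have hm := mom_nonneg k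
  rw [Metric.tendsto_atTop]
  intro ε hε
  set c := B * (2 * mom k) with hc
  have hc0 : 0 ≤ c := by positivity
  obtain ⟨L, hL⟩ := exists_nat_gt (2 * c / ε)
  have hLpos : (0 : ℝ) < L := lt_of_le_of_lt (by positivity) hL
  set s := B / L with hs
  have hs0 : 0 ≤ s := by positivity
  have hsm : 2 * s * mom k < ε / 2 := by
    have h1 : 2 * s * mom k = c / L := by rw [hs, hc]; ring
    rw [h1, div_lt_iff₀ hLpos]
    rw [div_lt_iff₀ hε] at hL
    linarith
  set a := A + s with ha
  have ha0 : 0 ≤ a := by positivity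
  have h2 : Tendsto (fun N : ℕ => 2 * a * tmom k (N - (K + L))) atTop (𝓝 0) := by
    have h3 : Tendsto (fun N : ℕ => tmom k (N - (K + L))) atTop (𝓝 0) :=
      (tmom_tendsto k).comp (tendsto_sub_atTop_nat _)
    have := h3.const_mul (2 * a)
    rwa [mul_zero] at this
  obtain ⟨N1, hN1⟩ := (Metric.tendsto_atTop.mp h2) (ε / 2) (by positivity)
  refine ⟨max (max N0 N1) (K + L), fun N hN => ?_⟩
  have hN3 : N0 ≤ N := (le_max_left _ _).trans ((le_max_left _ _).trans hN)
  have hN4 : N1 ≤ N := (le_max_right _ _).trans ((le_max_left _ _).trans hN)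
  have hN2 : K + L ≤ N := (le_max_right _ _).trans hN
  have h3 := hN1 N hN4
  rw [Real.dist_eq, sub_zero] at h3 ⊢
  have hψ0 : ∀ x, 0 ≤ A * tent K L x := fun x => mul_nonneg hA (tent_nonneg _ _ _)
  have h4 := norm_Linf_sub_le k hN2 (hcyl N hN3) (a := a) (s := s)
      (fun x => by linarith [hψ0 x]) (hd L hLpos N hN3) (fun u _ => by
      have := mul_le_mul_of_nonneg_left (tent_le_one K L u) hA
      rw [ha]
      linarith) (fun u hu => by
      rw [tent_eq_zero K hLpos]
      · rw [mul_zero, zero_add]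
      · rw [mem_box, not_le] at hu
        push_cast at hu
        have : (K : ℝ) + L < |(u : ℝ)| := by exact_mod_cast hu
        exact this.le) ha0 hs0
  rw [abs_of_nonneg (norm_nonneg _)]
  have h5 := le_abs_self (2 * a * tmom k (N - (K + L)))
  linarith

/-- Discrepancy bound of the resolvent of a cylinder function. -/
lemma Disc_Rop_Cyl {K : ℕ} {f : C(Config, ℝ)} (hf : Cyl X K f) {t : ℝ} (ht : 0 ≤ t)
    {L : ℝ} (hL : 0 < L) (N : ℕ) :
    Disc (fun x => 2 * ‖f‖ * tent K L x + 4 * mom k * ‖f‖ * t / L) (Rop X k N t f) := by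
  have hf0 := norm_nonneg f
  have hlip : ∀ x y : ℤ, |2 * ‖f‖ * tent K L x - 2 * ‖f‖ * tent K L y|
      ≤ (2 * ‖f‖ / L) * |((x - y : ℤ) : ℝ)| := by
    intro x y
    rw [← mul_sub, abs_mul, abs_of_nonneg (by positivity)]
    have := mul_le_mul_of_nonneg_left (tent_lip K hL x y) (by positivity : 0 ≤ 2 * ‖f‖)
    calc _ ≤ _ := this
      _ = _ := by ring
  have hψ0 : ∀ x, 0 ≤ 2 * ‖f‖ * tent K L x := fun x =>
    mul_nonneg (by positivity) (tent_nonneg _ _ _)
  have hD := Disc_Rop k (by positivity : 0 ≤ 2 * ‖f‖ / L) hψ0 hlip (Disc_of_Cyl hf hL) N ht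
  intro x η
  refine (hD x η).trans (le_of_eq ?_)
  ring

/-- The finite volume error tends to zero. -/
lemma err_tendsto {K : ℕ} {f : C(Config, ℝ)} (hf : Cyl X K f) {t : ℝ} (ht : 0 ≤ t) :
    Tendsto (fun N => ‖Linf X k (Rop X k N t f) - LN X k N (Rop X k N t f)‖) atTop (𝓝 0) := by
  have hm := mom_nonneg k
  have hf0 := norm_nonneg f
  exact err_general k (K := K) (N0 := K) (A := 2 * ‖f‖) (B := 4 * mom k * ‖f‖ * t)
    (by positivity) (by positivity)
    (fun N hN => Cyl_Rop X k ht (hf.mono hN)) (fun L hL N _ => Disc_Rop_Cyl k hf ht hL N)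

lemma Disc_sq {h : C(Config, ℝ)} {ψ : ℤ → ℝ} (hd : Disc ψ h) (h0 : ∀ z, 0 ≤ h z)
    (h1 : ∀ z, h z ≤ 1) : Disc (fun x => 2 * ψ x) (h * h) := by
  intro x η
  simp only [ContinuousMap.mul_apply]
  have e : h (Function.update η x true) * h (Function.update η x true)
      - h (Function.update η x false) * h (Function.update η x false)
      = (h (Function.update η x true) - h (Function.update η x false))
      * (h (Function.update η x true) + h (Function.update η x false)) := by ring
  rw [e, abs_mul, mul_comm]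
  have h2 := hd x η
  have h3 : |h (Function.update η x true) + h (Function.update η x false)| ≤ 2 := by
    rw [abs_of_nonneg (add_nonneg (h0 _) (h0 _))]
    linarith [h1 (Function.update η x true), h1 (Function.update η x false)]
  have h4 := abs_nonneg (h (Function.update η x true) - h (Function.update η x false))
  nlinarith [abs_nonneg (h (Function.update η x true) + h (Function.update η x false))]

lemma Cyl_mul {Z : Type*} [TopologicalSpace Z] [CompactSpace Z] {J : JumpSys Z} {K : ℕ}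
    {f g : C(Z, ℝ)} (hf : Cyl J K f) (hg : Cyl J K g) : Cyl J K (f * g) := by
  intro z z' hz
  simp only [ContinuousMap.mul_apply]
  rw [hf _ _ hz, hg _ _ hz]

/-- The finite volume error for the square tends to zero. -/
lemma err_sq_tendsto {K : ℕ} {f : C(Config, ℝ)} (hf : Cyl X K f) (h0 : ∀ z, 0 ≤ f z)
    (h1 : ∀ z, f z ≤ 1) {t : ℝ} (ht : 0 ≤ t) :
    Tendsto (fun N => ‖Linf X k (Rop X k N t f * Rop X k N t f)
      - LN X k N (Rop X k N t f * Rop X k N t f)‖) atTop (𝓝 0) := by
  have hm := mom_nonneg k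
  have hf0 := norm_nonneg f
  refine err_general k (h := fun N => Rop X k N t f * Rop X k N t f)
    (K := K) (N0 := K) (A := 2 * (2 * ‖f‖)) (B := 2 * (4 * mom k * ‖f‖ * t))
    (by positivity) (by positivity) (fun N hN => ?_) (fun L hL N _ => ?_)
  · exact Cyl_mul (Cyl_Rop X k ht (hf.mono hN)) (Cyl_Rop X k ht (hf.mono hN))
  · intro x η
    refine (Disc_sq (Disc_Rop_Cyl k hf ht hL N) (Rop_nonneg X k ht h0) (Rop_le_one X k ht h1)
      x η).trans (le_of_eq ?_)
    ring

end Pool.Agent.Helper28Excl
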