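import Pool.Agent.Helper28_Excl.Defs

/-! An explicit kernel satisfying (H). -/

namespace Pool.Agent.Helper28Excl

open Filter Topology

set_option linter.unusedSectionVars false
set_option linter.unusedVariables false
set_option maxHeartbeats 400000

/-- `∑ n^(-5/2)`. -/
noncomputable def Z5 : ℝ := ∑' n : ℕ, ((n : ℝ) + 1) ^ (-(5 / 2) : ℝ)

/-- `∑ n^(-3/2)`. -/
noncomputable def Z3 : ℝ := ∑' n : ℕ, ((n : ℝ) + 1) ^ (-(3 / 2) : ℝ)

lemma summ_pow {s : ℝ} (hs : s < -1) : Summable fun n : ℕ => ((n : ℝ) + 1) ^ s := by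
  have h := (summable_nat_add_iff 1).mpr (Real.summable_nat_rpow.mpr hs)
  refine h.congr fun n => ?_
  push_cast
  rfl

lemma not_summ_pow {s : ℝ} (hs : -1 ≤ s) : ¬ Summable fun n : ℕ => ((n : ℝ) + 1) ^ s := by
  intro h
  have h1 : Summable fun n : ℕ => (((n + 1 : ℕ) : ℝ)) ^ s := by
    refine h.congr fun n => ?_
    push_cast
    rfl
  have h2 := (summable_nat_add_iff (f := fun n : ℕ => (n : ℝ) ^ s) 1).mp h1
  rw [Real.summable_nat_rpow] at h2
  linarith

lemma Z5_nonneg : 0 ≤ Z5 := tsum_nonneg fun n => by positivity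

lemma Z3_pos : 0 < Z3 := by
  have h := (summ_pow (s := -(3 / 2)) (by norm_num)).le_tsum 0 fun n _ => by positivity
  unfold Z3
  refine lt_of_lt_of_le ?_ h
  simp

/-- The normalising constant. -/
noncomputable def cex : ℝ := 1 / (2 * (Z5 + Z3))

lemma cex_pos : 0 < cex := by
  have := Z5_nonneg
  have := Z3_pos
  unfold cex
  positivity

lemma cex_mul : cex * Z5 + cex * Z3 = 1 / 2 := by
  have h1 := Z5_nonneg
  have h2 := Z3_pos
  have h3 : Z5 + Z3 ≠ 0 := by positivity
  unfold cex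
  field_simp

/-- The explicit kernel: `p (-n) = c n^(-5/2)` for `n ≥ 1`, and the rest of the mass at `1`. -/
noncomputable def pex (x : ℤ) : ℝ :=
  if x < 0 then cex * (-(x : ℝ)) ^ (-(5 / 2) : ℝ) else if x = 1 then 1 - cex * Z5 else 0

lemma pex_one_pos : 0 < 1 - cex * Z5 := by
  have h1 := cex_mul
  have h2 := mul_pos cex_pos Z3_pos
  linarith

lemma pex_nonneg (x : ℤ) : 0 ≤ pex x := by
  unfold pex
  split_ifs with h h
  · have : (x : ℝ) < 0 := by exact_mod_cast h
    have h2 : 0 ≤ (-(x : ℝ)) := by linarith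
    have := cex_pos
    positivity
  · exact pex_one_pos.le
  · exact le_rfl

lemma pex_neg (n : ℕ) : pex (-((n : ℤ) + 1)) = cex * ((n : ℝ) + 1) ^ (-(5 / 2) : ℝ) := by
  unfold pex
  rw [if_pos (by omega)]
  push_cast
  rw [neg_neg]

lemma pex_neg' (n : ℕ) (hn : 1 ≤ n) : pex (-(n : ℤ)) = cex * (n : ℝ) ^ (-(5 / 2) : ℝ) := by
  unfold pex
  rw [if_pos (by omega)]
  push_cast
  rw [neg_neg]

lemma pex_nat (n : ℕ) : pex (n : ℤ) = if n = 1 then 1 - cex * Z5 else 0 := by
  unfold pex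
  rw [if_neg (by omega)]
  by_cases h : n = 1
  · rw [if_pos h, if_pos (by omega)]
  · rw [if_neg h, if_neg (by omega)]

lemma isKernel_pex : IsKernel pex := by
  refine ⟨pex_nonneg, ?_⟩
  have h1 : HasSum (fun n : ℕ => pex (n : ℤ)) (1 - cex * Z5) := by
    simp only [pex_nat]
    exact hasSum_ite_eq 1 (1 - cex * Z5)
  have h2 : HasSum (fun n : ℕ => pex (-((n : ℤ) + 1))) (cex * Z5) := by
    simp only [pex_neg]
    exact (summ_pow (s := -(5 / 2)) (by norm_num)).hasSum.mul_left cex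
  have h3 := HasSum.of_nat_of_neg_add_one h1 h2
  have e : 1 - cex * Z5 + cex * Z5 = 1 := by ring
  rwa [e] at h3

lemma rpow_aux (n : ℕ) : ((n : ℝ) + 1) * (cex * ((n : ℝ) + 1) ^ (-(5 / 2) : ℝ))
    = cex * ((n : ℝ) + 1) ^ (-(3 / 2) : ℝ) := by
  have h : (0 : ℝ) < (n : ℝ) + 1 := by positivity
  have e : (-(3 / 2) : ℝ) = 1 + -(5 / 2) := by norm_num
  rw [e, Real.rpow_add h, Real.rpow_one]
  ring

lemma finiteMean_pex : FiniteMean pex := by
  unfold FiniteMean
  obtain ⟨F, hF⟩ : ∃ F : ℤ → ℝ, F = fun x : ℤ => |(x : ℝ)| * pex x := ⟨_, rfl⟩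
  rw [← hF]
  have h1 : Summable (fun n : ℕ => F (n : ℤ)) := by
    refine summable_of_ne_finset_zero (s := {1}) fun n hn => ?_
    rw [Finset.mem_singleton] at hn
    rw [hF]
    simp only
    rw [pex_nat, if_neg hn, mul_zero]
  have h2 : Summable (fun n : ℕ => F (-((n : ℤ) + 1))) := by
    have h3 := (summ_pow (s := -(3 / 2)) (by norm_num)).mul_left cex
    refine h3.congr fun n => ?_
    rw [hF]
    simp only
    rw [pex_neg]
    push_cast
    rw [abs_neg, abs_of_pos (by positivity), rpow_aux]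
  have h3 : HasSum F (∑' n : ℕ, F (n : ℤ) + ∑' n : ℕ, F (-((n : ℤ) + 1))) :=
    HasSum.of_nat_of_neg_add_one h1.hasSum h2.hasSum
  exact h3.summable

lemma drift_pex : ∑' x : ℤ, (x : ℝ) * pex x = 1 / 2 := by
  obtain ⟨F, hF⟩ : ∃ F : ℤ → ℝ, ∀ x, F x = (x : ℝ) * pex x := ⟨_, fun x => rfl⟩
  have h1 : HasSum (fun n : ℕ => F (n : ℤ)) (1 - cex * Z5) := by
    refine (hasSum_ite_eq 1 (1 - cex * Z5)).congr_fun fun n => ?_
    rw [hF, pex_nat]
    by_cases h : n = 1
    · subst h; simp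
    · simp [h]
  have h2 : HasSum (fun n : ℕ => F (-((n : ℤ) + 1))) (-(cex * Z3)) := by
    have h3 := ((summ_pow (s := -(3 / 2)) (by norm_num)).hasSum.mul_left cex).neg
    refine h3.congr_fun fun n => ?_
    rw [hF, pex_neg, ← rpow_aux]
    push_cast
    ring
  have h3 : HasSum F (1 - cex * Z5 + -(cex * Z3)) := HasSum.of_nat_of_neg_add_one h1 h2
  have h4 := h3.tsum_eq
  simp only [hF] at h4
  rw [h4]
  linarith [cex_mul]

lemma condH_pex : CondH pex := by
  refine ⟨finiteMean_pex, by rw [drift_pex]; norm_num, fun hs => ?_⟩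
  have h1 : Summable fun n : ℕ => (fun x : ℤ => if x < 0 then (x : ℝ) ^ 2 * pex x else 0)
      (-((n : ℤ) + 1)) := by
    refine hs.comp_injective (i := fun n : ℕ => -((n : ℤ) + 1)) ?_
    intro a b hab
    simp only [neg_inj, add_left_inj, Nat.cast_inj] at hab
    exact hab
  have h2 : Summable fun n : ℕ => cex * ((n : ℝ) + 1) ^ (-(1 / 2) : ℝ) := by
    refine h1.congr fun n => ?_
    simp only
    rw [if_pos (by omega), pex_neg]
    push_cast
    have h : (0 : ℝ) < (n : ℝ) + 1 := by positivity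
    have e : (-(1 / 2) : ℝ) = 1 + 1 + -(5 / 2) := by norm_num
    rw [e, Real.rpow_add h, Real.rpow_add h, Real.rpow_one]
    ring
  have h3 := (summable_mul_left_iff cex_pos.ne').mp h2
  exact not_summ_pow (by norm_num) h3

lemma irred_pex : Irred pex := by
  intro x
  have h1 : (1 : ℤ) ∈ AddSubmonoid.closure {y : ℤ | 0 < pex y} := by
    refine AddSubmonoid.subset_closure ?_
    have := pex_nat 1
    rw [if_pos rfl] at this
    change 0 < pex 1
    have e : pex 1 = 1 - cex * Z5 := by exact_mod_cast this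
    rw [e]
    exact pex_one_pos
  rcases lt_or_ge x 0 with h | h
  · refine AddSubmonoid.subset_closure ?_
    change 0 < pex x
    have h2 := pex_neg' (-x).toNat (by omega)
    have e : -(((-x).toNat : ℕ) : ℤ) = x := by omega
    rw [e] at h2
    rw [h2]
    have : (0 : ℝ) < ((-x).toNat : ℕ) := by
      have : 0 < (-x).toNat := by omega
      exact_mod_cast this
    have := cex_pos
    positivity
  · have h2 := AddSubmonoid.nsmul_mem _ h1 x.toNat
    have e : x.toNat • (1 : ℤ) = x := by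
      rw [nsmul_eq_mul, mul_one]
      omega
    rwa [e] at h2

end Pool.Agent.Helper28Excl
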