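import Mathlib

/-! Exponentials of bounded operators. -/

namespace Pool.Agent.Helper28Excl

open Filter Topology

set_option linter.unusedSectionVars false
set_option linter.unusedVariables false
set_option maxHeartbeats 400000

variable {E : Type*} [NormedAddCommGroup E] [NormedSpace ℝ E] [CompleteSpace E]

/-- `exp (t (A - c))`. -/
noncomputable def Eg (A : E →L[ℝ] E) (c t : ℝ) : E →L[ℝ] E :=
  NormedSpace.exp (t • (A - c • (1 : E →L[ℝ] E)))

variable (A : E →L[ℝ] E) (c : ℝ)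

lemma Eg_zero : Eg A c 0 = 1 := by
  unfold Eg
  rw [zero_smul, NormedSpace.exp_zero]

lemma Eg_add (s t : ℝ) (f : E) : Eg A c (s + t) f = Eg A c s (Eg A c t f) := by
  unfold Eg
  let _ : NormedAlgebra ℚ (E →L[ℝ] E) := NormedAlgebra.restrictScalars ℚ ℝ (E →L[ℝ] E)
  rw [add_smul, NormedSpace.exp_add_of_commute (((Commute.refl _).smul_left s).smul_right t)]
  rfl

lemma Eg_apply_deriv (f : E) (t : ℝ) :
    HasDerivAt (fun t => Eg A c t f) (Eg A c t (A f - c • f)) t := by
  have h0 : HasDerivAt (fun t => Eg A c t) (Eg A c t * (A - c • (1 : E →L[ℝ] E))) t :=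
    hasDerivAt_exp_smul_const (A - c • (1 : E →L[ℝ] E)) t
  have h := h0.clm_apply (hasDerivAt_const t f)
  rw [map_zero, add_zero] at h
  exact h

lemma Eg_apply_deriv' (f : E) (t : ℝ) :
    HasDerivAt (fun t => Eg A c t f) (A (Eg A c t f) - c • Eg A c t f) t := by
  have h0 : HasDerivAt (fun t => Eg A c t) ((A - c • (1 : E →L[ℝ] E)) * Eg A c t) t :=
    hasDerivAt_exp_smul_const' (A - c • (1 : E →L[ℝ] E)) t
  have h := h0.clm_apply (hasDerivAt_const t f)
  rw [map_zero, add_zero] at h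
  exact h

lemma Eg_tendsto (t : ℝ) (f : E) :
    Tendsto (fun m => Real.exp (-(t * c)) •
      ∑ n ∈ Finset.range m, (t ^ n / (n.factorial : ℝ)) • (A ^ n) f) atTop
      (𝓝 (Eg A c t f)) := by
  have h1 : Eg A c t = Real.exp (-(t * c)) • NormedSpace.exp (t • A) := by
    unfold Eg
    let _ : NormedAlgebra ℚ (E →L[ℝ] E) := NormedAlgebra.restrictScalars ℚ ℝ (E →L[ℝ] E)
    have e : t • (A - c • (1 : E →L[ℝ] E)) = (-(t * c)) • (1 : E →L[ℝ] E) + t • A := by
      rw [smul_sub, smul_smul, neg_smul, sub_eq_add_neg, add_comm]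
    rw [e, NormedSpace.exp_add_of_commute]
    · have e2 : NormedSpace.exp ((-(t * c)) • (1 : E →L[ℝ] E))
          = Real.exp (-(t * c)) • (1 : E →L[ℝ] E) := by
        have h2 := NormedSpace.algebraMap_exp_comm (𝔸 := E →L[ℝ] E) (𝕂 := ℝ) (-(t * c))
        rw [Algebra.algebraMap_eq_smul_one, Algebra.algebraMap_eq_smul_one] at h2
        rw [← h2, Real.exp_eq_exp_ℝ]
      rw [e2, smul_mul_assoc, one_mul]
    · exact ((Commute.one_left _).smul_left _)
  have h2 : HasSum (fun n : ℕ => ((n.factorial : ℝ)⁻¹) • (t • A) ^ n)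
      (NormedSpace.exp (t • A)) := NormedSpace.exp_series_hasSum_exp' (𝕂 := ℝ) _
  have h3 := (ContinuousLinearMap.apply ℝ E f).hasSum h2
  have h4 := (h3.tendsto_sum_nat).const_smul (Real.exp (-(t * c)))
  have h5 : Eg A c t f = Real.exp (-(t * c)) •
      (ContinuousLinearMap.apply ℝ E f) (NormedSpace.exp (t • A)) := by
    rw [h1]
    rfl
  rw [h5]
  refine h4.congr fun m => ?_
  congr 1
  refine Finset.sum_congr rfl fun n _ => ?_
  simp only [map_smul, ContinuousLinearMap.apply_apply]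
  rw [smul_pow, smul_apply, smul_smul]
  congr 1
  ring

lemma Eg_diff (A' : E →L[ℝ] E) (c' t : ℝ) (f : E) (s : ℝ) :
    HasDerivAt (fun s => Eg A' c' (t - s) (Eg A c s f))
      (Eg A' c' (t - s) ((A (Eg A c s f) - c • Eg A c s f)
        - (A' (Eg A c s f) - c' • Eg A c s f))) s := by
  have h0 : HasDerivAt (fun r => Eg A' c' r) (Eg A' c' (t - s) * (A' - c' • (1 : E →L[ℝ] E)))
      (t - s) := hasDerivAt_exp_smul_const (A' - c' • (1 : E →L[ℝ] E)) (t - s)
  have h1 : HasDerivAt (fun s => Eg A' c' (t - s))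
      (-(Eg A' c' (t - s) * (A' - c' • (1 : E →L[ℝ] E)))) s := by
    have := h0.comp_const_sub t s
    exact this
  have h2 := h1.clm_apply (Eg_apply_deriv' A c f s)
  refine h2.congr_deriv ?_
  rw [map_sub (Eg A' c' (t - s)) (A (Eg A c s f) - c • Eg A c s f)]
  have h3 : (-(Eg A' c' (t - s) * (A' - c' • (1 : E →L[ℝ] E)))) (Eg A c s f)
      = -(Eg A' c' (t - s) (A' (Eg A c s f) - c' • Eg A c s f)) := rfl
  rw [h3]
  abel

end Pool.Agent.Helper28Excl
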