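import Pool.Agent.Helper28_Excl.Coup
import Pool.Agent.Helper28_Excl.ExpGen

/-! Finite volume semigroups. -/

namespace Pool.Agent.Helper28Excl

open Filter Topology

set_option linter.unusedSectionVars false
set_option linter.unusedVariables false
set_option maxHeartbeats 400000

section generic

variable {Z : Type*} [TopologicalSpace Z] [CompactSpace Z] (J : JumpSys Z) (k : Kern)

/-- The finite volume semigroup. -/
noncomputable def EN (N : ℕ) (t : ℝ) : C(Z, ℝ) →L[ℝ] C(Z, ℝ) := Eg (Acl J k N) (crate k N) t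

lemma EN_zero (N : ℕ) (f : C(Z, ℝ)) : EN J k N 0 f = f := by
  unfold EN
  rw [Eg_zero]
  rfl

lemma EN_add (N : ℕ) (s t : ℝ) (f : C(Z, ℝ)) :
    EN J k N (s + t) f = EN J k N s (EN J k N t f) := Eg_add _ _ s t f

lemma EN_apply_deriv (N : ℕ) (f : C(Z, ℝ)) (t : ℝ) :
    HasDerivAt (fun t => EN J k N t f) (EN J k N t (LN J k N f)) t := by
  have h := Eg_apply_deriv (Acl J k N) (crate k N) f t
  rw [LN_eq]
  exact h

lemma EN_apply_deriv' (N : ℕ) (f : C(Z, ℝ)) (t : ℝ) :
    HasDerivAt (fun t => EN J k N t f) (LN J k N (EN J k N t f)) t := by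
  have h := Eg_apply_deriv' (Acl J k N) (crate k N) f t
  rw [LN_eq]
  exact h

/-- Partial sums of the exponential. -/
noncomputable def ES (N : ℕ) (t : ℝ) (f : C(Z, ℝ)) (m : ℕ) : C(Z, ℝ) :=
  Real.exp (-(t * crate k N)) •
    ∑ n ∈ Finset.range m, (t ^ n / (n.factorial : ℝ)) • (Aop J k N)^[n] f

lemma Acl_pow_apply (N : ℕ) (n : ℕ) (f : C(Z, ℝ)) :
    (Acl J k N ^ n) f = (Aop J k N)^[n] f := by
  induction n with
  | zero => rfl
  | succ n ih =>
    rw [pow_succ', Function.iterate_succ_apply', ← ih]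
    rfl

lemma ES_tendsto (N : ℕ) (t : ℝ) (f : C(Z, ℝ)) :
    Tendsto (ES J k N t f) atTop (𝓝 (EN J k N t f)) := by
  refine (Eg_tendsto (Acl J k N) (crate k N) t f).congr fun m => ?_
  unfold ES
  congr 1
  refine Finset.sum_congr rfl fun n _ => ?_
  rw [Acl_pow_apply]

lemma exp_sum_le {x : ℝ} (hx : 0 ≤ x) (m : ℕ) :
    Real.exp (-x) * ∑ n ∈ Finset.range m, x ^ n / (n.factorial : ℝ) ≤ 1 := by
  have h := Real.sum_le_exp_of_nonneg hx m
  rw [Real.exp_neg, inv_mul_le_iff₀ (Real.exp_pos x), mul_one]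
  exact h

lemma EN_nonneg (N : ℕ) {t : ℝ} (ht : 0 ≤ t) {f : C(Z, ℝ)} (hf : ∀ z, 0 ≤ f z) :
    ∀ z, 0 ≤ EN J k N t f z := by
  have hiter : ∀ n z, 0 ≤ (Aop J k N)^[n] f z := by
    intro n
    induction n with
    | zero => exact hf
    | succ n ih =>
      intro z
      rw [Function.iterate_succ_apply', Aop_apply]
      exact Finset.sum_nonneg fun q _ => mul_nonneg (k.nonneg _) (ih _)
  intro z
  refine ge_of_tendsto' (((continuous_ev z).tendsto _).comp (ES_tendsto J k N t f)) fun m => ?_
  simp only [Function.comp_apply, ES, ContinuousMap.smul_apply, ContinuousMap.coe_sum,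
    Finset.sum_apply, smul_eq_mul]
  refine mul_nonneg (Real.exp_pos _).le (Finset.sum_nonneg fun n _ => ?_)
  exact mul_nonneg (by positivity) (hiter n z)

lemma EN_norm_le (N : ℕ) {t : ℝ} (ht : 0 ≤ t) (f : C(Z, ℝ)) : ‖EN J k N t f‖ ≤ ‖f‖ := by
  refine le_of_tendsto' (ES_tendsto J k N t f).norm fun m => ?_
  unfold ES
  rw [norm_smul, Real.norm_of_nonneg (Real.exp_pos _).le]
  have hc := crate_nonneg k N
  have h1 : ‖∑ n ∈ Finset.range m, (t ^ n / (n.factorial : ℝ)) • (Aop J k N)^[n] f‖
      ≤ (∑ n ∈ Finset.range m, (t * crate k N) ^ n / (n.factorial : ℝ)) * ‖f‖ := by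
    refine (norm_sum_le _ _).trans ?_
    rw [Finset.sum_mul]
    refine Finset.sum_le_sum fun n _ => ?_
    rw [norm_smul, Real.norm_of_nonneg (by positivity)]
    have := mul_le_mul_of_nonneg_left (norm_Aop_iter_le J k N f n)
      (by positivity : 0 ≤ t ^ n / (n.factorial : ℝ))
    calc _ ≤ _ := this
      _ = _ := by rw [mul_pow]; ring
  have h2 := mul_le_mul_of_nonneg_left h1 (Real.exp_pos (-(t * crate k N))).le
  refine h2.trans ?_
  rw [← mul_assoc]
  have h3 := exp_sum_le (x := t * crate k N) (by positivity) m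
  have := mul_le_mul_of_nonneg_right h3 (norm_nonneg f)
  rwa [one_mul] at this

lemma EN_one (N : ℕ) (t : ℝ) : EN J k N t 1 = 1 := by
  have h0 : LN J k N 1 = 0 := by
    ext z
    rw [LN_apply]
    simp
  have h1 : ∀ s, HasDerivAt (fun t => EN J k N t (1 : C(Z, ℝ))) 0 s := by
    intro s
    have := EN_apply_deriv J k N (1 : C(Z, ℝ)) s
    rwa [h0, map_zero] at this
  have h2 := is_const_of_deriv_eq_zero (f := fun t => EN J k N t (1 : C(Z, ℝ)))
    (fun s => (h1 s).differentiableAt) (fun s => (h1 s).deriv) t 0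
  rw [h2, EN_zero]

lemma Cyl_EN (N : ℕ) (t : ℝ) {f : C(Z, ℝ)} (hf : Cyl J N f) : Cyl J N (EN J k N t f) := by
  have hiter : ∀ n, Cyl J N ((Aop J k N)^[n] f) := by
    intro n
    induction n with
    | zero => exact hf
    | succ n ih =>
      rw [Function.iterate_succ_apply']
      exact Cyl_Aop J k ih
  intro z z' hz
  refine tendsto_nhds_unique (((continuous_ev z).tendsto _).comp (ES_tendsto J k N t f)) ?_
  refine (((continuous_ev z').tendsto _).comp (ES_tendsto J k N t f)).congr fun m => ?_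
  simp only [Function.comp_apply, ES, ContinuousMap.smul_apply, ContinuousMap.coe_sum,
    Finset.sum_apply, smul_eq_mul]
  congr 1
  refine Finset.sum_congr rfl fun n _ => ?_
  rw [hiter n z z' hz]

end generic

variable (k : Kern)

lemma Disc_iter {ψ : ℤ → ℝ} {ℓ : ℝ} (hℓ : 0 ≤ ℓ)
    (hL : ∀ x y, |ψ x - ψ y| ≤ ℓ * |((x - y : ℤ) : ℝ)|)
    {s : C(Config, ℝ)} (hs : Disc ψ s) (N : ℕ) (n : ℕ) :
    Disc (fun x => crate k N ^ n * ψ x + n * crate k N ^ (n - 1) * (2 * mom k * ℓ))
      ((Aop X k N)^[n] s) := by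
  have hc := crate_nonneg k N
  induction n with
  | zero =>
    intro x η
    simpa using hs x η
  | succ n ih =>
    have hlip : ∀ x y, |(crate k N ^ n * ψ x + n * crate k N ^ (n - 1) * (2 * mom k * ℓ))
        - (crate k N ^ n * ψ y + n * crate k N ^ (n - 1) * (2 * mom k * ℓ))|
        ≤ (crate k N ^ n * ℓ) * |((x - y : ℤ) : ℝ)| := by
      intro x y
      rw [add_sub_add_right_eq_sub, ← mul_sub, abs_mul, abs_of_nonneg (by positivity), mul_assoc]
      exact mul_le_mul_of_nonneg_left (hL x y) (by positivity)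
    have h1 := Disc_Aop k (by positivity : 0 ≤ crate k N ^ n * ℓ) hlip ih N
    rw [← Function.iterate_succ_apply' (Aop X k N) n s] at h1
    intro x η
    refine (h1 x η).trans (le_of_eq ?_)
    rcases n with _ | n
    · simp
    · simp only [Nat.add_sub_cancel]
      push_cast
      ring

/-- Discrepancy bound for the finite volume semigroup. -/
lemma Disc_EN {ψ : ℤ → ℝ} {ℓ : ℝ} (hℓ : 0 ≤ ℓ) (hψ : ∀ x, 0 ≤ ψ x)
    (hL : ∀ x y, |ψ x - ψ y| ≤ ℓ * |((x - y : ℤ) : ℝ)|)
    {f : C(Config, ℝ)} (hf : Disc ψ f) (N : ℕ) {t : ℝ} (ht : 0 ≤ t) :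
    Disc (fun x => ψ x + 2 * mom k * ℓ * t) (EN X k N t f) := by
  have hc := crate_nonneg k N
  have hm := mom_nonneg k
  intro x η
  have h1 := (((continuous_ev (Function.update η x true)).tendsto _).comp
    (ES_tendsto X k N t f)).sub (((continuous_ev (Function.update η x false)).tendsto _).comp
    (ES_tendsto X k N t f))
  refine le_of_tendsto' h1.abs fun m => ?_
  simp only [Function.comp_apply, ES, ContinuousMap.smul_apply, ContinuousMap.coe_sum,
    Finset.sum_apply, smul_eq_mul]
  rw [← mul_sub, abs_mul, abs_of_pos (Real.exp_pos _), ← Finset.sum_sub_distrib]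
  have h2 : |∑ n ∈ Finset.range m, (t ^ n / (n.factorial : ℝ)
        * ((Aop X k N)^[n] f) (Function.update η x true)
        - t ^ n / (n.factorial : ℝ) * ((Aop X k N)^[n] f) (Function.update η x false))|
      ≤ (∑ n ∈ Finset.range m, (t * crate k N) ^ n / (n.factorial : ℝ)) * ψ x
        + (∑ n ∈ Finset.range m, (t * crate k N) ^ n / (n.factorial : ℝ))
          * (2 * mom k * ℓ * t) := by
    have h3 : ∀ n ∈ Finset.range m, |t ^ n / (n.factorial : ℝ)
        * ((Aop X k N)^[n] f) (Function.update η x true)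
        - t ^ n / (n.factorial : ℝ) * ((Aop X k N)^[n] f) (Function.update η x false)|
        ≤ (t * crate k N) ^ n / (n.factorial : ℝ) * ψ x
          + (t ^ n / (n.factorial : ℝ) * (n * crate k N ^ (n - 1))) * (2 * mom k * ℓ) := by
      intro n _
      rw [← mul_sub, abs_mul, abs_of_nonneg (by positivity)]
      have := mul_le_mul_of_nonneg_left (Disc_iter k hℓ hL hf N n x η)
        (by positivity : 0 ≤ t ^ n / (n.factorial : ℝ))
      refine this.trans (le_of_eq ?_)
      rw [mul_pow]
      ring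
    refine (Finset.abs_sum_le_sum_abs _ _).trans ((Finset.sum_le_sum h3).trans ?_)
    rw [Finset.sum_add_distrib, ← Finset.sum_mul, ← Finset.sum_mul]
    refine add_le_add le_rfl ?_
    have h4 : ∑ n ∈ Finset.range m, t ^ n / (n.factorial : ℝ) * (n * crate k N ^ (n - 1))
        ≤ (∑ n ∈ Finset.range m, (t * crate k N) ^ n / (n.factorial : ℝ)) * t := by
      rcases m with _ | m
      · simp
      · rw [Finset.sum_range_succ']
        simp only [Nat.cast_zero, zero_mul, mul_zero, add_zero]
        have h5 : ∀ n ∈ Finset.range m, t ^ (n + 1) / ((n + 1).factorial : ℝ)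
            * (((n + 1 : ℕ) : ℝ) * crate k N ^ (n + 1 - 1))
            = (t * crate k N) ^ n / (n.factorial : ℝ) * t := by
          intro n _
          rw [Nat.factorial_succ, Nat.add_sub_cancel, mul_pow]
          push_cast
          have : ((n : ℝ) + 1) ≠ 0 := by positivity
          have : (n.factorial : ℝ) ≠ 0 := by positivity
          field_simp
          ring
        rw [Finset.sum_congr rfl h5, ← Finset.sum_mul]
        refine mul_le_mul_of_nonneg_right ?_ ht
        refine Finset.sum_le_sum_of_subset_of_nonneg (Finset.range_mono (Nat.le_succ m))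
          fun n _ _ => by positivity
    have h6 : 0 ≤ 2 * mom k * ℓ := by positivity
    have h7 := mul_le_mul_of_nonneg_right h4 h6
    linarith
  have h3 := mul_le_mul_of_nonneg_left h2 (Real.exp_pos (-(t * crate k N))).le
  refine h3.trans ?_
  have h4 := exp_sum_le (x := t * crate k N) (by positivity) m
  have h5 : 0 ≤ ψ x + 2 * mom k * ℓ * t := by
    have := hψ x
    positivity
  have h6 := mul_le_mul_of_nonneg_right h4 h5
  linarith

end Pool.Agent.Helper28Excl
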