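import Pool.Agent.Helper28_Excl.Energy

/-! Functionals: pull-backs, ultralimits and extremal stationary functionals. -/

namespace Pool.Agent.Helper28Excl

open Filter Topology

set_option linter.unusedSectionVars false
set_option linter.unusedVariables false

section pull

variable {Z Z' : Type*} [TopologicalSpace Z] [CompactSpace Z] [TopologicalSpace Z']
  [CompactSpace Z']

/-- Pull back of functions as a linear map. -/
noncomputable def pull (φ : C(Z', Z)) : C(Z, ℝ) →ₗ[ℝ] C(Z', ℝ) where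
  toFun f := f.comp φ
  map_add' _ _ := rfl
  map_smul' _ _ := rfl

@[simp] lemma pull_apply (φ : C(Z', Z)) (f : C(Z, ℝ)) (z : Z') : pull φ f z = f (φ z) := rfl

lemma pull_one (φ : C(Z', Z)) : pull φ 1 = 1 := rfl

lemma continuous_pull (φ : C(Z', Z)) : Continuous (pull φ) := φ.continuous_precomp

variable {J : JumpSys Z} {J' : JumpSys Z'} {k : Kern}

lemma Linf_pull (φ : C(Z', Z)) (c : ℤ)
    (hφ : ∀ u v z, φ (J'.T u v z) = J.T (u + c) (v + c) (φ z)) {K : ℕ} {f : C(Z, ℝ)}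
    (hf : Cyl J K f) : Linf J' k (pull φ f) = pull φ (Linf J k f) := by
  have h1 : HasSum (Lterm J k f) (Linf J k f) := (summable_Lterm J k hf).hasSum
  have h2 : HasSum (fun q => pull φ (Lterm J k f q)) (pull φ (Linf J k f)) :=
    h1.map (pull φ) (continuous_pull φ)
  have h3 := (Equiv.prodCongr (Equiv.addRight c) (Equiv.addRight c)).hasSum_iff.mpr h2
  refine h3.tsum_eq.symm ▸ tsum_congr fun q => ?_
  ext z
  simp only [Lterm, ContinuousMap.smul_apply, ContinuousMap.sub_apply, ContinuousMap.comp_apply,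
    Function.comp_apply, pull_apply, Equiv.prodCongr_apply, Prod.map, Equiv.coe_addRight, hφ,
    add_sub_add_right_eq_sub]

lemma Aop_pull (φ : C(Z', Z)) (hφ : ∀ u v z, φ (J'.T u v z) = J.T u v (φ z)) (N : ℕ)
    (f : C(Z, ℝ)) : Aop J' k N (pull φ f) = pull φ (Aop J k N f) := by
  ext z
  simp only [pull_apply, Aop_apply, hφ]

lemma Rop_pull (φ : C(Z', Z)) (hφ : ∀ u v z, φ (J'.T u v z) = J.T u v (φ z)) (N : ℕ) {t : ℝ}
    (ht : 0 ≤ t) (f : C(Z, ℝ)) : Rop J' k N t (pull φ f) = pull φ (Rop J k N t f) := by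
  refine (Rop_unique J' k ht ?_).symm
  rw [Aop_pull φ hφ]
  conv_lhs => rw [Rop_fix J k N ht f]
  rw [map_smul, map_add, map_smul]

lemma Stat.pull {Λ : C(Z', ℝ) →ₗ[ℝ] ℝ} (φ : C(Z', Z)) (c : ℤ)
    (hφ : ∀ u v z, φ (J'.T u v z) = J.T (u + c) (v + c) (φ z)) (d : ℕ)
    (hc : ∀ K (f : C(Z, ℝ)), Cyl J K f → Cyl J' (K + d) (pull φ f)) (hs : Stat J' k Λ) :
    Stat J k (Λ ∘ₗ pull φ) := by
  intro K f hf
  rw [LinearMap.comp_apply, ← Linf_pull φ c hφ hf]
  exact hs (K + d) _ (hc K f hf)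

lemma IsPos.pull {Λ : C(Z', ℝ) →ₗ[ℝ] ℝ} (φ : C(Z', Z)) (h : IsPos Λ) : IsPos (Λ ∘ₗ pull φ) :=
  fun g hg => h _ fun z => hg _

end pull

variable {Z : Type*} [TopologicalSpace Z] [CompactSpace Z]

/-- Ultralimits of positive functionals. -/
lemma exists_ulim (U : Ultrafilter ℕ) (Λ : ℕ → (C(Z, ℝ) →ₗ[ℝ] ℝ)) (hpos : ∀ j, IsPos (Λ j))
    (h1 : ∀ j, Λ j 1 ≤ 1) : ∃ M : C(Z, ℝ) →ₗ[ℝ] ℝ, IsPos M ∧
      ∀ g, Tendsto (fun j => Λ j g) U (𝓝 (M g)) := by
  have key : ∀ g : C(Z, ℝ), ∃ y, Tendsto (fun j => Λ j g) U (𝓝 y) := by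
    intro g
    have hmem : ∀ j, Λ j g ∈ Set.Icc (-‖g‖) ‖g‖ := by
      intro j
      have h2 := (hpos j).abs_le g
      have h3 : Λ j 1 * ‖g‖ ≤ ‖g‖ := by
        have := mul_le_mul_of_nonneg_right (h1 j) (norm_nonneg g)
        rwa [one_mul] at this
      rw [Set.mem_Icc, ← _root_.abs_le]
      exact h2.trans h3
    have hU : Set.Icc (-‖g‖) ‖g‖ ∈ (U.map fun j => Λ j g) := by
      rw [Ultrafilter.mem_map]
      exact Filter.univ_mem' hmem
    obtain ⟨y, _, hy⟩ := isCompact_Icc.ultrafilter_le_nhds' (U.map fun j => Λ j g) hU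
    exact ⟨y, hy⟩
  choose M hM using key
  refine ⟨{ toFun := M, map_add' := fun f g => ?_, map_smul' := fun c f => ?_ }, fun g hg => ?_,
    fun g => hM g⟩
  · refine tendsto_nhds_unique (hM (f + g)) ?_
    refine ((hM f).add (hM g)).congr fun j => ?_
    rw [map_add]
  · refine tendsto_nhds_unique (hM (c • f)) ?_
    refine ((hM f).const_mul c).congr fun j => ?_
    rw [map_smul, smul_eq_mul]
  · exact ge_of_tendsto' (hM g) fun j => hpos j g hg

/-- Stationary states. -/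
def InvState (J : JumpSys Z) (k : Kern) (Λ : C(Z, ℝ) →ₗ[ℝ] ℝ) : Prop :=
  IsPos Λ ∧ Λ 1 = 1 ∧ Stat J k Λ

/-- Extremality. -/
def IsExt (J : JumpSys Z) (k : Kern) (Λ : C(Z, ℝ) →ₗ[ℝ] ℝ) : Prop :=
  ∀ Λ' : C(Z, ℝ) →ₗ[ℝ] ℝ, IsPos Λ' → Stat J k Λ' → IsPos (Λ - Λ') → Λ' = Λ' 1 • Λ

/-- The compact convex set of stationary states. -/
def SS (J : JumpSys Z) (k : Kern) : Set (C(Z, ℝ) → ℝ) :=
  {F | (∀ f g, F (f + g) = F f + F g) ∧ (∀ (c : ℝ) f, F (c • f) = c * F f) ∧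
    (∀ g : C(Z, ℝ), (∀ z, 0 ≤ g z) → 0 ≤ F g) ∧ F 1 = 1 ∧ ∀ K h, Cyl J K h → F (Linf J k h) = 0}

variable {J : JumpSys Z} {k : Kern}

lemma mem_SS {Λ : C(Z, ℝ) →ₗ[ℝ] ℝ} (h : InvState J k Λ) : (⇑Λ) ∈ SS J k :=
  ⟨map_add Λ, fun c f => by rw [map_smul, smul_eq_mul], h.1, h.2.1, h.2.2⟩

lemma exists_of_mem_SS {F : C(Z, ℝ) → ℝ} (h : F ∈ SS J k) :
    ∃ Λ : C(Z, ℝ) →ₗ[ℝ] ℝ, InvState J k Λ ∧ ⇑Λ = F :=
  ⟨{ toFun := F, map_add' := h.1, map_smul' := h.2.1 }, ⟨h.2.2.1, h.2.2.2.1, h.2.2.2.2⟩, rfl⟩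

lemma isClosed_SS : IsClosed (SS J k) := by
  have h1 : IsClosed {F : C(Z, ℝ) → ℝ | ∀ f g, F (f + g) = F f + F g} := by
    simp only [Set.ofPred_forall]
    exact isClosed_iInter fun f => isClosed_iInter fun g =>
      isClosed_eq (continuous_apply _)
        ((continuous_apply (A := fun _ : C(Z, ℝ) => ℝ) f).add
          (continuous_apply (A := fun _ : C(Z, ℝ) => ℝ) g))
  have h2 : IsClosed {F : C(Z, ℝ) → ℝ | ∀ (c : ℝ) f, F (c • f) = c * F f} := by
    simp only [Set.ofPred_forall]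
    exact isClosed_iInter fun c => isClosed_iInter fun f =>
      isClosed_eq (continuous_apply _) (continuous_const.mul (continuous_apply _))
  have h3 : IsClosed {F : C(Z, ℝ) → ℝ | ∀ g : C(Z, ℝ), (∀ z, 0 ≤ g z) → 0 ≤ F g} := by
    simp only [Set.ofPred_forall]
    exact isClosed_iInter fun g => isClosed_iInter fun _ =>
      isClosed_le continuous_const (continuous_apply _)
  have h4 : IsClosed {F : C(Z, ℝ) → ℝ | F 1 = 1} :=
    isClosed_eq (continuous_apply _) continuous_const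
  have h5 : IsClosed {F : C(Z, ℝ) → ℝ | ∀ K h, Cyl J K h → F (Linf J k h) = 0} := by
    simp only [Set.ofPred_forall]
    exact isClosed_iInter fun K => isClosed_iInter fun h => isClosed_iInter fun _ =>
      isClosed_eq (continuous_apply _) continuous_const
  exact h1.inter (h2.inter (h3.inter (h4.inter h5)))

lemma isCompact_SS : IsCompact (SS J k) := by
  refine IsCompact.of_isClosed_subset
    (isCompact_univ_pi fun g : C(Z, ℝ) => isCompact_Icc (a := -‖g‖) (b := ‖g‖)) isClosed_SS ?_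
  intro F hF g _
  obtain ⟨Λ, hΛ, rfl⟩ := exists_of_mem_SS hF
  have h2 := hΛ.1.abs_le g
  rw [hΛ.2.1, one_mul] at h2
  rwa [Set.mem_Icc, ← _root_.abs_le]

/-- Extremal stationary states with controlled values. -/
lemma exists_ext (V : ℕ → C(Z, ℝ)) (hV0 : ∀ n z, 0 ≤ V n z) (hV : ∀ n m, n ≤ m → ∀ z, V n z ≤ V m z)
    {Λ : C(Z, ℝ) →ₗ[ℝ] ℝ} (hΛ : InvState J k Λ) {c : ℝ} (hc : ∀ n, Λ (V n) ≤ c) :
    ∃ Λ0 : C(Z, ℝ) →ₗ[ℝ] ℝ, InvState J k Λ0 ∧ (∀ n, Λ0 (V n) ≤ c) ∧ IsExt J k Λ0 := by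
  set F : ℝ → Set (C(Z, ℝ) → ℝ) := fun a => {x ∈ SS J k | ∀ n, x (V n) ≤ a} with hF
  have hFclosed : ∀ a, IsClosed (F a) := by
    intro a
    have h1 : IsClosed {x : C(Z, ℝ) → ℝ | ∀ n, x (V n) ≤ a} := by
      simp only [Set.ofPred_forall]
      exact isClosed_iInter fun n => isClosed_le (continuous_apply _) continuous_const
    exact isClosed_SS.inter h1
  have hFcomp : ∀ a, IsCompact (F a) := fun a =>
    isCompact_SS.of_isClosed_subset (hFclosed a) fun x hx => hx.1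
  set A : Set ℝ := {a | (F a).Nonempty} with hA
  have hcA : c ∈ A := ⟨_, mem_SS hΛ, hc⟩
  have hAbdd : BddBelow A := by
    refine ⟨0, fun a ha => ?_⟩
    obtain ⟨x, hx, hxa⟩ := ha
    exact (hx.2.2.1 _ (hV0 0)).trans (hxa 0)
  set m := sInf A with hm
  have hmc : m ≤ c := csInf_le hAbdd hcA
  have hmono : ∀ {a b}, a ≤ b → F a ⊆ F b := fun {a b} hab x hx =>
    ⟨hx.1, fun n => (hx.2 n).trans hab⟩
  have hgt : ∀ a, m < a → (F a).Nonempty := by
    intro a ha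
    obtain ⟨b, hb, hba⟩ := exists_lt_of_csInf_lt ⟨c, hcA⟩ ha
    exact hb.mono (hmono hba.le)
  have hmne : (F m).Nonempty := by
    have h1 := IsCompact.nonempty_iInter_of_sequence_nonempty_isCompact_isClosed
      (fun i : ℕ => F (m + 1 / ((i : ℝ) + 1))) (fun i => hmono (by
        have : (1 : ℝ) / (((i + 1 : ℕ) : ℝ) + 1) ≤ 1 / ((i : ℝ) + 1) := by
          apply one_div_le_one_div_of_le
          · positivity
          · push_cast; linarith
        linarith)) (fun i => hgt _ (by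
        have : (0 : ℝ) < 1 / ((i : ℝ) + 1) := by positivity
        linarith)) (hFcomp _) (fun i => hFclosed _)
    obtain ⟨x, hx⟩ := h1
    rw [Set.mem_iInter] at hx
    refine ⟨x, (hx 0).1, fun n => ?_⟩
    have h2 : Tendsto (fun i : ℕ => m + 1 / ((i : ℝ) + 1)) atTop (𝓝 (m + 0)) :=
      tendsto_one_div_add_atTop_nhds_zero_nat.const_add m
    rw [add_zero] at h2
    exact ge_of_tendsto' h2 fun i => (hx i).2 n
  obtain ⟨x, hx⟩ := (hFcomp m).extremePoints_nonempty hmne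
  obtain ⟨Λ0, hΛ0, rfl⟩ := exists_of_mem_SS hx.1.1
  refine ⟨Λ0, hΛ0, fun n => (hx.1.2 n).trans hmc, ?_⟩
  -- the face property
  have face : ∀ y ∈ SS J k, ∀ w ∈ SS J k, ∀ a b : ℝ, 0 < a → 0 < b → a + b = 1 →
      (∀ g, a * y g + b * w g = Λ0 g) → y ∈ F m := by
    intro y hy w hw a b ha hb hab hyw
    refine ⟨hy, fun n => ?_⟩
    by_contra hcon
    push Not at hcon
    set δ := y (V n) - m with hδ
    have hδ0 : 0 < δ := by linarith
    have h3 : ¬ (F (m - a * δ / (2 * b))).Nonempty := by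
      intro hne
      have h4 := csInf_le hAbdd hne
      have : 0 < a * δ / (2 * b) := by positivity
      linarith
    have h5 : ∃ n', m - a * δ / (2 * b) < w (V n') := by
      by_contra hcon2
      push Not at hcon2
      exact h3 ⟨w, hw, hcon2⟩
    obtain ⟨n', hn'⟩ := h5
    obtain ⟨y', hy', rfl⟩ := exists_of_mem_SS hy
    obtain ⟨w', hw', rfl⟩ := exists_of_mem_SS hw
    have h6 := hy'.1.mono (hV n (max n n') (le_max_left _ _))
    have h7 := hw'.1.mono (hV n' (max n n') (le_max_right _ _))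
    have h8 := hx.1.2 (max n n')
    rw [← hyw] at h8
    have h9 : a * (m + δ) + b * (m - a * δ / (2 * b)) = m + a * δ / 2 := by
      have : b * (m - a * δ / (2 * b)) = b * m - a * δ / 2 := by field_simp
      rw [this]
      have : m = (a + b) * m := by rw [hab, one_mul]
      nlinarith
    have h10 : 0 < a * δ := by positivity
    nlinarith [mul_le_mul_of_nonneg_left h6 ha.le, mul_le_mul_of_nonneg_left h7 hb.le,
      mul_lt_mul_of_pos_left hn' hb]
  intro Λ' hΛ'pos hΛ's hdiff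
  have hm0 : 0 ≤ Λ' 1 := hΛ'pos _ fun z => zero_le_one
  have hm1 : 0 ≤ 1 - Λ' 1 := by
    have := hdiff 1 fun z => zero_le_one
    rwa [LinearMap.sub_apply, hΛ0.2.1] at this
  have hzero : ∀ M : C(Z, ℝ) →ₗ[ℝ] ℝ, IsPos M → M 1 = 0 → M = 0 := by
    intro M hM hM1
    ext g
    have := hM.abs_le g
    rw [hM1, zero_mul] at this
    exact abs_eq_zero.mp (le_antisymm this (abs_nonneg _))
  rcases hm0.eq_or_lt with h0 | h0
  · rw [hzero Λ' hΛ'pos h0.symm]
    simp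
  rcases hm1.eq_or_lt with h1 | h1
  · have h2 : Λ' 1 = 1 := by linarith
    have h3 := hzero (Λ0 - Λ') hdiff (by rw [LinearMap.sub_apply, hΛ0.2.1, h2, sub_self])
    rw [h2, one_smul]
    exact (sub_eq_zero.mp h3).symm
  · set a := Λ' 1 with ha
    set b := 1 - Λ' 1 with hb
    have hy : InvState J k (a⁻¹ • Λ') := by
      refine ⟨fun g hg => ?_, ?_, fun K h hh => ?_⟩
      · rw [LinearMap.smul_apply, smul_eq_mul]
        exact mul_nonneg (inv_nonneg.mpr h0.le) (hΛ'pos g hg)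
      · rw [LinearMap.smul_apply, smul_eq_mul, ← ha]
        exact inv_mul_cancel₀ h0.ne'
      · rw [LinearMap.smul_apply, hΛ's K h hh, smul_zero]
    have hw : InvState J k (b⁻¹ • (Λ0 - Λ')) := by
      refine ⟨fun g hg => ?_, ?_, fun K h hh => ?_⟩
      · rw [LinearMap.smul_apply, smul_eq_mul]
        exact mul_nonneg (inv_nonneg.mpr h1.le) (hdiff g hg)
      · rw [LinearMap.smul_apply, smul_eq_mul, LinearMap.sub_apply, hΛ0.2.1, ← ha]
        exact inv_mul_cancel₀ h1.ne'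
      · rw [LinearMap.smul_apply, LinearMap.sub_apply, hΛ0.2.2 K h hh, hΛ's K h hh, sub_zero,
          smul_zero]
    have hyw : ∀ g, a * (a⁻¹ • Λ') g + b * (b⁻¹ • (Λ0 - Λ')) g = Λ0 g := by
      intro g
      simp only [LinearMap.smul_apply, LinearMap.sub_apply, smul_eq_mul]
      rw [← mul_assoc, ← mul_assoc, mul_inv_cancel₀ h0.ne', mul_inv_cancel₀ h1.ne']
      ring
    have hyF := face _ (mem_SS hy) _ (mem_SS hw) a b h0 h1 (by rw [hb]; ring) hyw
    have hwF := face _ (mem_SS hw) _ (mem_SS hy) b a h1 h0 (by rw [hb]; ring)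
      (fun g => by rw [add_comm]; exact hyw g)
    have hseg : (⇑Λ0 : C(Z, ℝ) → ℝ) ∈ openSegment ℝ (⇑(a⁻¹ • Λ')) (⇑(b⁻¹ • (Λ0 - Λ'))) := by
      refine ⟨a, b, h0, h1, by rw [hb]; ring, ?_⟩
      funext g
      exact hyw g
    have := (mem_extremePoints.mp hx).2 _ hyF _ hwF hseg
    have h2 := this.1
    have h3 : a⁻¹ • Λ' = Λ0 := DFunLike.coe_injective h2
    rw [← h3, smul_smul, mul_inv_cancel₀ h0.ne', one_smul]

end Pool.Agent.Helper28Excl
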