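import Pool.Agent.Helper28_Excl.Sys

/-! Infinite volume generator on cylinder functions, positive functionals, counting lemmas. -/

namespace Pool.Agent.Helper28Excl

open Filter Topology

set_option linter.unusedSectionVars false
set_option linter.unusedVariables false

variable {Z : Type*} [TopologicalSpace Z] [CompactSpace Z] (J : JumpSys Z) (k : Kern)

/-- A single term of the generator. -/
noncomputable def Lterm (g : C(Z, ℝ)) (q : ℤ × ℤ) : C(Z, ℝ) :=
  k.p (q.2 - q.1) • (g.comp (J.T q.1 q.2) - g)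

/-- The infinite volume generator. -/
noncomputable def Linf (g : C(Z, ℝ)) : C(Z, ℝ) := ∑' q, Lterm J k g q

/-- The summable dominating weight. -/
noncomputable def Wt (K : ℕ) (q : ℤ × ℤ) : ℝ :=
  (if q.1 ∈ box K then k.p (q.2 - q.1) else 0) + (if q.2 ∈ box K then k.p (q.2 - q.1) else 0)

lemma summable_shift (x : ℤ) : Summable fun y => k.p (y - x) :=
  (Equiv.subRight x).summable_iff.mpr k.summ

lemma summable_shift' (x : ℤ) : Summable fun y => k.p (x - y) :=
  (Equiv.subLeft x).summable_iff.mpr k.summ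

lemma tsum_shift (x : ℤ) : ∑' y, k.p (y - x) = 1 := by
  rw [← k.sum_one]
  exact (Equiv.subRight x).tsum_eq k.p

lemma tsum_shift' (x : ℤ) : ∑' y, k.p (x - y) = 1 := by
  rw [← k.sum_one]
  exact (Equiv.subLeft x).tsum_eq k.p

lemma summable_fst (S : Finset ℤ) :
    Summable fun q : ℤ × ℤ => if q.1 ∈ S then k.p (q.2 - q.1) else 0 := by
  rw [summable_prod_of_nonneg]
  · constructor
    · intro x
      by_cases hx : x ∈ S
      · simpa [hx] using summable_shift k x
      · simp [hx]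
    · refine summable_of_ne_finset_zero (s := S) fun x hx => ?_
      simp [hx]
  · intro q
    simp only [Pi.zero_apply]
    split_ifs
    · exact k.nonneg _
    · exact le_rfl

lemma summable_snd (S : Finset ℤ) :
    Summable fun q : ℤ × ℤ => if q.2 ∈ S then k.p (q.2 - q.1) else 0 := by
  rw [← (Equiv.prodComm ℤ ℤ).summable_iff]
  rw [summable_prod_of_nonneg]
  · constructor
    · intro x
      by_cases hx : x ∈ S
      · simpa [hx] using summable_shift' k x
      · simp [hx]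
    · refine summable_of_ne_finset_zero (s := S) fun x hx => ?_
      simp [hx]
  · intro q
    simp only [Pi.zero_apply, Function.comp_apply]
    split_ifs
    · exact k.nonneg _
    · exact le_rfl

lemma summable_Wt (K : ℕ) : Summable (Wt k K) := (summable_fst k _).add (summable_snd k _)

lemma Lterm_zero {K : ℕ} {g : C(Z, ℝ)} (hg : Cyl J K g) {q : ℤ × ℤ} (h1 : q.1 ∉ box K)
    (h2 : q.2 ∉ box K) : Lterm J k g q = 0 := by
  unfold Lterm
  have : g.comp (J.T q.1 q.2) - g = 0 := by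
    ext z
    simp only [ContinuousMap.sub_apply, ContinuousMap.comp_apply, ContinuousMap.zero_apply]
    rw [hg _ _ (J.loc z h1 h2), sub_self]
  rw [this, smul_zero]

lemma norm_Lterm_le {K : ℕ} {g : C(Z, ℝ)} (hg : Cyl J K g) (q : ℤ × ℤ) :
    ‖Lterm J k g q‖ ≤ 2 * ‖g‖ * Wt k K q := by
  by_cases h : q.1 ∉ box K ∧ q.2 ∉ box K
  · rw [Lterm_zero J k hg h.1 h.2, norm_zero]
    simp [Wt, h.1, h.2]
  · have h1 : ‖g.comp (J.T q.1 q.2) - g‖ ≤ 2 * ‖g‖ := by
      refine (norm_sub_le _ _).trans ?_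
      have := norm_comp_le g (J.T q.1 q.2)
      linarith
    have h2 : k.p (q.2 - q.1) ≤ Wt k K q := by
      have := k.nonneg (q.2 - q.1)
      unfold Wt
      split_ifs with h3 h4 h4
      · linarith
      · linarith
      · linarith
      · exact absurd ⟨h3, h4⟩ h
    unfold Lterm
    rw [norm_smul, Real.norm_of_nonneg (k.nonneg _)]
    have := norm_nonneg g
    have h5 := k.nonneg (q.2 - q.1)
    nlinarith [norm_nonneg (g.comp (J.T q.1 q.2) - g)]

lemma summable_Lterm {K : ℕ} {g : C(Z, ℝ)} (hg : Cyl J K g) : Summable (Lterm J k g) :=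
  Summable.of_norm_bounded ((summable_Wt k K).mul_left _) (norm_Lterm_le J k hg)

lemma LN_eq_sum (N : ℕ) (g : C(Z, ℝ)) : LN J k N g = ∑ q ∈ box N ×ˢ box N, Lterm J k g q := rfl

lemma tendsto_box : Tendsto (fun N : ℕ => box N ×ˢ box N) atTop atTop := by
  refine tendsto_atTop_finset_of_monotone (fun N M h => ?_) (fun q => ?_)
  · exact Finset.product_subset_product (box_mono h) (box_mono h)
  · refine ⟨max q.1.natAbs q.2.natAbs, ?_⟩
    rw [Finset.mem_product, mem_box, mem_box]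
    push_cast
    constructor
    · rw [Int.abs_eq_natAbs]; exact_mod_cast le_max_left _ _
    · rw [Int.abs_eq_natAbs]; exact_mod_cast le_max_right _ _

lemma LN_tendsto {K : ℕ} {g : C(Z, ℝ)} (hg : Cyl J K g) :
    Tendsto (fun N => LN J k N g) atTop (𝓝 (Linf J k g)) :=
  (summable_Lterm J k hg).hasSum.comp tendsto_box

lemma sum_box_split {E : Type*} [AddCommGroup E] (F : ℤ → ℤ → E) {N M : ℕ} (h : N ≤ M) :
    ∑ q ∈ box M ×ˢ box M, F q.1 q.2 = ∑ q ∈ box N ×ˢ box N, F q.1 q.2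
      + ∑ u ∈ box N, ∑ v ∈ box M \ box N, (F u v + F v u)
      + ∑ u ∈ box M \ box N, ∑ v ∈ box M \ box N, F u v := by
  have hs := box_mono h
  have key : ∀ G : ℤ → E, ∑ u ∈ box M, G u = ∑ u ∈ box N, G u + ∑ u ∈ box M \ box N, G u :=
    fun G => by rw [← Finset.sum_sdiff hs, add_comm]
  rw [Finset.sum_product, Finset.sum_product, key]
  simp only [key, Finset.sum_add_distrib]
  rw [Finset.sum_comm (s := box M \ box N) (t := box N)]
  abel

/-- Positivity of a functional. -/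
def IsPos (Λ : C(Z, ℝ) →ₗ[ℝ] ℝ) : Prop := ∀ g : C(Z, ℝ), (∀ z, 0 ≤ g z) → 0 ≤ Λ g

variable {Λ : C(Z, ℝ) →ₗ[ℝ] ℝ}

lemma IsPos.mono (hΛ : IsPos Λ) {f g : C(Z, ℝ)} (h : ∀ z, f z ≤ g z) : Λ f ≤ Λ g := by
  have : 0 ≤ Λ (g - f) := hΛ _ fun z => by
    simp only [ContinuousMap.sub_apply]
    linarith [h z]
  rw [map_sub] at this
  linarith

lemma IsPos.nonneg (hΛ : IsPos Λ) {f : C(Z, ℝ)} (h : ∀ z, 0 ≤ f z) : 0 ≤ Λ f := hΛ _ h

lemma IsPos.abs_le (hΛ : IsPos Λ) (g : C(Z, ℝ)) : |Λ g| ≤ Λ 1 * ‖g‖ := by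
  have h1 : Λ g ≤ Λ (‖g‖ • (1 : C(Z, ℝ))) := hΛ.mono fun z => by
    simp only [ContinuousMap.smul_apply, ContinuousMap.one_apply, smul_eq_mul, mul_one]
    exact (le_abs_self _).trans (g.norm_coe_le_norm z)
  have h2 : Λ (-(‖g‖ • (1 : C(Z, ℝ)))) ≤ Λ g := hΛ.mono fun z => by
    simp only [ContinuousMap.neg_apply, ContinuousMap.smul_apply, ContinuousMap.one_apply,
      smul_eq_mul, mul_one]
    have := g.norm_coe_le_norm z
    rw [Real.norm_eq_abs] at this
    linarith [neg_abs_le (g z)]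
  rw [map_neg, map_smul, smul_eq_mul] at h2
  rw [map_smul, smul_eq_mul] at h1
  rw [_root_.abs_le]
  constructor <;> linarith

lemma IsPos.abs_le' (hΛ : IsPos Λ) {g : C(Z, ℝ)} {a : ℝ} (h : ∀ z, |g z| ≤ a) :
    |Λ g| ≤ Λ 1 * a := by
  have h0 : 0 ≤ Λ 1 := hΛ.nonneg fun z => by simp
  have h1 : Λ g ≤ Λ (a • (1 : C(Z, ℝ))) := hΛ.mono fun z => by
    simp only [ContinuousMap.smul_apply, ContinuousMap.one_apply, smul_eq_mul, mul_one]
    exact (le_abs_self _).trans (h z)
  have h2 : Λ (-(a • (1 : C(Z, ℝ)))) ≤ Λ g := hΛ.mono fun z => by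
    simp only [ContinuousMap.neg_apply, ContinuousMap.smul_apply, ContinuousMap.one_apply,
      smul_eq_mul, mul_one]
    linarith [neg_abs_le (g z), h z]
  rw [map_neg, map_smul, smul_eq_mul] at h2
  rw [map_smul, smul_eq_mul] at h1
  rw [_root_.abs_le]
  constructor <;> linarith

lemma IsPos.tendsto (hΛ : IsPos Λ) {ι : Type*} {l : Filter ι} {g : ι → C(Z, ℝ)} {g0 : C(Z, ℝ)}
    (h : Tendsto g l (𝓝 g0)) : Tendsto (fun i => Λ (g i)) l (𝓝 (Λ g0)) := by
  rw [tendsto_iff_norm_sub_tendsto_zero] at h ⊢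
  refine squeeze_zero (fun i => norm_nonneg _) (fun i => ?_) ((h.const_mul (Λ 1)).trans ?_)
  · rw [← map_sub, Real.norm_eq_abs]
    exact hΛ.abs_le _
  · rw [mul_zero]

/-- Stationarity of a functional. -/
def Stat (Λ : C(Z, ℝ) →ₗ[ℝ] ℝ) : Prop := ∀ K h, Cyl J K h → Λ (Linf J k h) = 0

variable {J k}

lemma Stat.tendsto (hs : Stat J k Λ) (hΛ : IsPos Λ) {K : ℕ} {h : C(Z, ℝ)} (hh : Cyl J K h) :
    Tendsto (fun N => Λ (LN J k N h)) atTop (𝓝 0) := by
  have := hΛ.tendsto (LN_tendsto J k hh)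
  rwa [hs K h hh] at this

lemma stat_of_tendsto (hΛ : IsPos Λ) (h : ∀ K h, Cyl J K h →
    Tendsto (fun N => Λ (LN J k N h)) atTop (𝓝 0)) : Stat J k Λ := fun K g hg =>
  tendsto_nhds_unique (hΛ.tendsto (LN_tendsto J k hg)) (h K g hg)

end Pool.Agent.Helper28Excl
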