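import Pool.Agent.Helper28_Excl.One

/-! The main inequality. -/

namespace Pool.Agent.Helper28Excl

open Filter Topology

set_option linter.unusedSectionVars false
set_option linter.unusedVariables false

variable {k : Kern}

/-- The squared increment along a jump. -/
noncomputable def Esq (h : C(Config, ℝ)) (u v : ℤ) : C(Config, ℝ) :=
  (h.comp (X.T u v) - h) * (h.comp (X.T u v) - h)

lemma Esq_apply (h : C(Config, ℝ)) (u v : ℤ) (η : Config) :
    Esq h u v η = (h (jmp u v η) - h η) * (h (jmp u v η) - h η) := rfl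

lemma Esq_nonneg (h : C(Config, ℝ)) (u v : ℤ) (η : Config) : 0 ≤ Esq h u v η :=
  mul_self_nonneg _

/-- Deterministic three step comparison. -/
lemma three_step {N : ℕ} {h : C(Config, ℝ)} (hh : Cyl X N h) (h0 : ∀ z, 0 ≤ h z)
    (h1 : ∀ z, h z ≤ 1) {ψ : ℤ → ℝ} (hψ : ∀ x, 0 ≤ ψ x) (hd : Disc ψ h) {x y x' : ℤ}
    (hx : x ∈ box N) (hy : y ∈ box N) (hx' : x' ∈ box N) (hxy : x ≠ y) (hxx' : x ≠ x')
    (hyx' : y ≠ x') (z : Config × Config) :
    site sd x z * (h z.2 - h z.1) ≤ |h (jmp x y z.2) - h z.2| + |h (jmp x' y z.1) - h z.1|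
      + ψ x' + ev y z.1 + (1 - ev x' z.1) + site sm x z + exc N z := by
  have a1 := abs_nonneg (h (jmp x y z.2) - h z.2)
  have a2 := abs_nonneg (h (jmp x' y z.1) - h z.1)
  have a3 := hψ x'
  have a4 := ev_nonneg y z.1
  have a5 := ev_le_one x' z.1
  have a6 : 0 ≤ site sm x z := sm_nonneg _ _
  have a7 := exc_nonneg N z
  have b1 := h0 z.1
  have b2 := h0 z.2
  have b3 := h1 z.1
  have b4 := h1 z.2
  by_cases hc : z.1 x = z.2 x
  · have : site sd x z = 0 := by rw [site_apply]; unfold sd; rw [if_pos hc]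
    rw [this, zero_mul]
    linarith
  have hsd1 : site sd x z = 1 := by rw [site_apply]; unfold sd; rw [if_neg hc]
  rw [hsd1, one_mul]
  cases hx1 : z.1 x
  swap
  · have hx2 : z.2 x = false := by
      cases h2 : z.2 x
      · rfl
      · rw [hx1, h2] at hc; exact absurd rfl hc
    have : site sm x z = 1 := by rw [site_apply]; unfold sm; rw [if_pos ⟨hx1, hx2⟩]
    rw [this]
    linarith
  have hx2 : z.2 x = true := by
    cases h2 : z.2 x
    · rw [hx1, h2] at hc; exact absurd rfl hc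
    · rfl
  by_cases hall : ∀ w ∈ box N, w ≠ x → z.1 w = z.2 w
  swap
  · push Not at hall
    obtain ⟨w, hw, hwx, hne⟩ := hall
    have h3 : 2 ≤ cnt sd N z := by
      rw [cnt_apply]
      have h4 : ({x, w} : Finset ℤ) ⊆ box N := by
        intro a ha
        rw [Finset.mem_insert, Finset.mem_singleton] at ha
        rcases ha with rfl | rfl
        · exact hx
        · exact hw
      have h5 := Finset.sum_le_sum_of_subset_of_nonneg (f := fun a => sd (z.1 a) (z.2 a)) h4
        fun a _ _ => sd_nonneg _ _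
      rw [Finset.sum_pair hwx.symm] at h5
      have h6 : sd (z.1 x) (z.2 x) = 1 := by unfold sd; rw [if_neg hc]
      have h7 : sd (z.1 w) (z.2 w) = 1 := by unfold sd; rw [if_neg hne]
      rw [h6, h7] at h5
      linarith
    have h4 : 1 ≤ exc N z := by
      rw [exc_apply]
      exact (by linarith : (1 : ℝ) ≤ cnt sd N z - 1).trans (le_max_left _ _)
    linarith
  cases hy1 : z.1 y
  swap
  · have : ev y z.1 = 1 := by rw [ev_apply, hy1]; simp
    linarith
  cases hx'1 : z.1 x'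
  · have : ev x' z.1 = 0 := by rw [ev_apply, hx'1]; simp
    linarith
  have hy2 : z.2 y = false := by rw [← hall y hy hxy.symm, hy1]
  set ω := jmp x' y z.1 with hω
  have e1 : h (jmp x y z.2) = h (Function.update ω x' true) := by
    refine hh _ _ fun w hw => ?_
    by_cases hwx : w = x
    · subst hwx
      rw [jmp_fst, hx2, hy2]
      rw [Function.update_of_ne hxx', hω, jmp_of_ne _ hxx' hxy, hx1]
      rfl
    · by_cases hwy : w = y
      · subst hwy
        rw [jmp_snd hxy.symm, hx2, hy2, Function.update_of_ne hyx', hω, jmp_snd hyx', hx'1, hy1]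
      · rw [jmp_of_ne _ hwx hwy]
        by_cases hwx' : w = x'
        · subst hwx'
          rw [Function.update_self, ← hall w hw hwx, hx'1]
        · rw [Function.update_of_ne hwx', hω, jmp_of_ne _ hwx' hwy, hall w hw hwx]
  have e2 : ω = Function.update ω x' false := by
    funext w
    by_cases hwx' : w = x'
    · subst hwx'
      rw [Function.update_self, hω, jmp_fst, hx'1, hy1]
      rfl
    · rw [Function.update_of_ne hwx']
  have h3 : |h (jmp x y z.2) - h ω| ≤ ψ x' := by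
    rw [e1]
    conv_lhs => rw [e2]
    rw [Function.update_idem]
    exact hd x' ω
  have h4 := (abs_le.mp h3).2
  have h5 := le_abs_self (h ω - h z.1)
  have h6 := neg_abs_le (h (jmp x y z.2) - h z.2)
  linarith

/-- `|e| ≤ ε + e² / (4 ε)`. -/
lemma abs_le_quad {ε : ℝ} (hε : 0 < ε) (e : ℝ) : |e| ≤ ε + 1 / (4 * ε) * (e * e) := by
  have h : 0 ≤ (2 * ε - |e|) ^ 2 := sq_nonneg _
  have h2 : |e| * |e| = e * e := abs_mul_abs_self e
  have h3 : 4 * ε * |e| ≤ 4 * ε * ε + e * e := by nlinarith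
  have h4 : ε + 1 / (4 * ε) * (e * e) = (4 * ε * ε + e * e) / (4 * ε) := by
    field_simp
  rw [h4, le_div_iff₀ (by positivity)]
  linarith

variable {Λ : C(Config, ℝ) →ₗ[ℝ] ℝ} {ν : C(Config × Config, ℝ) →ₗ[ℝ] ℝ}

/-- Integrated three step comparison. -/
lemma three_step_int (hν : InvState XX k ν) (hν1 : ν ∘ₗ pull pfst = Λ)
    (hν2 : ν ∘ₗ pull psnd = Λ ∘ₗ pull sh) (hsm : ∀ x, ν (site sm x) = 0)
    (hexc : ∀ K, ν (exc K) = 0) {N : ℕ} {h : C(Config, ℝ)} (hh : Cyl X N h) (h0 : ∀ z, 0 ≤ h z)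
    (h1 : ∀ z, h z ≤ 1) {ψ : ℤ → ℝ} (hψ : ∀ x, 0 ≤ ψ x) (hd : Disc ψ h) {x y x' : ℤ}
    (hx : x ∈ box N) (hy : y ∈ box N) (hx' : x' ∈ box N) (hxy : x ≠ y) (hxx' : x ≠ x')
    (hyx' : y ≠ x') {ε : ℝ} (hε : 0 < ε) :
    ν (site sd x * (pull psnd h - pull pfst h)) ≤ 2 * ε
      + 1 / (4 * ε) * (Λ ∘ₗ pull sh) (Esq h x y) + 1 / (4 * ε) * Λ (Esq h x' y)
      + ψ x' + Λ (ev y) + (1 - Λ (ev x')) := by
  have e1 : ∀ f, ν (pull pfst f) = Λ f := fun f => LinearMap.congr_fun hν1 f
  have e2 : ∀ f, ν (pull psnd f) = (Λ ∘ₗ pull sh) f := fun f => LinearMap.congr_fun hν2 f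
  have h2 : ν (site sd x * (pull psnd h - pull pfst h)) ≤ ν ((2 * ε + ψ x' + 1) •
      (1 : C(Config × Config, ℝ)) + (1 / (4 * ε)) • pull psnd (Esq h x y)
      + (1 / (4 * ε)) • pull pfst (Esq h x' y) + pull pfst (ev y) - pull pfst (ev x')
      + site sm x + exc N) := by
    refine hν.1.mono fun z => ?_
    simp only [ContinuousMap.mul_apply, ContinuousMap.sub_apply, ContinuousMap.add_apply,
      ContinuousMap.smul_apply, ContinuousMap.one_apply, pull_apply, smul_eq_mul, mul_one,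
      psnd_apply, pfst_apply, Esq_apply]
    have h3 := three_step hh h0 h1 hψ hd hx hy hx' hxy hxx' hyx' z
    have h4 := abs_le_quad hε (h (jmp x y z.2) - h z.2)
    have h5 := abs_le_quad hε (h (jmp x' y z.1) - h z.1)
    linarith
  refine h2.trans (le_of_eq ?_)
  simp only [map_add, map_sub, map_smul, e1, e2, hsm, hexc, hν.2.1, smul_eq_mul, mul_one]
  ring

/-- Decomposition according to the position of the discrepancy. -/
lemma decomp (hν : InvState XX k ν) (hν1 : ν ∘ₗ pull pfst = Λ)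
    (hν2 : ν ∘ₗ pull psnd = Λ ∘ₗ pull sh)
    (hexc : ∀ K, ν (exc K) = 0) {h : C(Config, ℝ)} (h0 : ∀ z, 0 ≤ h z)
    (h1 : ∀ z, h z ≤ 1) (R : ℕ) :
    (Λ ∘ₗ pull sh) h - Λ h ≤ ν (kap R)
      + ∑ x ∈ box R, ν (site sd x * (pull psnd h - pull pfst h)) := by
  have e1 : ν (pull pfst h) = Λ h := LinearMap.congr_fun hν1 h
  have e2 : ν (pull psnd h) = (Λ ∘ₗ pull sh) h := LinearMap.congr_fun hν2 h
  rw [← e1, ← e2, ← map_sub, ← map_sum, ← map_add]
  have h2 : ν (pull psnd h - pull pfst h) ≤ ν ((kap R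
      + ∑ x ∈ box R, site sd x * (pull psnd h - pull pfst h)) + exc R) := by
    refine hν.1.mono fun z => ?_
    have e3 : (∑ x ∈ box R, site sd x * (pull psnd h - pull pfst h)) z
        = cnt sd R z * (h z.2 - h z.1) := by
      rw [ContinuousMap.coe_sum, Finset.sum_apply, cnt_apply, Finset.sum_mul]
      rfl
    rw [ContinuousMap.add_apply, ContinuousMap.add_apply, e3]
    have e4 : exc R z = cnt sd R z - 1 + kap R z := by
      have := congrArg (fun g : C(Config × Config, ℝ) => g z) (exc_eq R)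
      simpa using this
    have e5 : (pull psnd h - pull pfst h) z = h z.2 - h z.1 := rfl
    rw [e5]
    have h3 := kap_nonneg R z
    have h4 := exc_nonneg R z
    have h5 := h0 z.1
    have h6 := h0 z.2
    have h7 := h1 z.1
    have h8 := h1 z.2
    have h9 : cnt sd R z = exc R z + 1 - kap R z := by linarith
    rw [h9]
    nlinarith
  rw [map_add, hexc, add_zero] at h2
  exact h2

/-- Pigeonhole: a good intermediate site `y` and a good far site `x'`. -/
lemma pigeon {E F : ℤ → ℤ → ℝ} {p : ℤ → ℝ} (hp : ∀ n, 0 ≤ p n) (hE : ∀ u v, 0 ≤ E u v)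
    (hF : ∀ u v, 0 ≤ F u v) {N R : ℕ} {Y X' : Finset ℤ} (hR : R ≤ N) (hY : Y ⊆ box N)
    (hX' : X' ⊆ box N) (hYne : Y.Nonempty) {s q Q : ℝ} (hq : 0 < q) (hQ : 0 < Q)
    (h1 : ∑ a ∈ box N ×ˢ box N, p (a.2 - a.1) * E a.1 a.2 ≤ s)
    (h2 : ∑ a ∈ box N ×ˢ box N, p (a.2 - a.1) * F a.1 a.2 ≤ s)
    (hpq : ∀ y ∈ Y, ∀ x ∈ box R, q ≤ p (y - x))
    (hpQ : ∀ y ∈ Y, Q ≤ ∑ x' ∈ X', p (y - x')) :
    ∃ y ∈ Y, ∃ x' ∈ X', ∑ x ∈ box R, E x y ≤ 2 * s / (Y.card * q) ∧
      F x' y ≤ 2 * s / (Y.card * Q) := by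
  have hcard : (0 : ℝ) < Y.card := by exact_mod_cast hYne.card_pos
  have h3 : ∑ y ∈ Y, (∑ x ∈ box R, p (y - x) * E x y + ∑ x' ∈ X', p (y - x') * F x' y)
      ≤ ∑ y ∈ Y, 2 * s / Y.card := by
    rw [Finset.sum_const, nsmul_eq_mul, Finset.sum_add_distrib]
    have e : (Y.card : ℝ) * (2 * s / Y.card) = s + s := by field_simp; ring
    rw [e]
    refine add_le_add ?_ ?_
    · refine le_trans ?_ h1
      rw [Finset.sum_comm, ← Finset.sum_product' (f := fun a b => p (b - a) * E a b)]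
      refine Finset.sum_le_sum_of_subset_of_nonneg
        (Finset.product_subset_product (box_mono hR) hY) fun a _ _ => mul_nonneg (hp _) (hE _ _)
    · refine le_trans ?_ h2
      rw [Finset.sum_comm, ← Finset.sum_product' (f := fun a b => p (b - a) * F a b)]
      refine Finset.sum_le_sum_of_subset_of_nonneg
        (Finset.product_subset_product hX' hY) fun a _ _ => mul_nonneg (hp _) (hF _ _)
  obtain ⟨y, hy, hle⟩ := Finset.exists_le_of_sum_le hYne h3
  have h4 : 0 ≤ ∑ x ∈ box R, p (y - x) * E x y :=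
    Finset.sum_nonneg fun x _ => mul_nonneg (hp _) (hE _ _)
  have h5 : 0 ≤ ∑ x' ∈ X', p (y - x') * F x' y :=
    Finset.sum_nonneg fun x _ => mul_nonneg (hp _) (hF _ _)
  have h6 : q * ∑ x ∈ box R, E x y ≤ ∑ x ∈ box R, p (y - x) * E x y := by
    rw [Finset.mul_sum]
    exact Finset.sum_le_sum fun x hx => mul_le_mul_of_nonneg_right (hpq y hy x hx) (hE _ _)
  have hX'ne : X'.Nonempty := by
    rw [Finset.nonempty_iff_ne_empty]
    intro he
    have := hpQ y hy
    rw [he, Finset.sum_empty] at this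
    linarith
  have h7 : ∃ x' ∈ X', Q * F x' y ≤ 2 * s / Y.card := by
    by_contra hcon
    push Not at hcon
    have h8 : ∀ x' ∈ X', p (y - x') * (2 * s / Y.card / Q) ≤ p (y - x') * F x' y := by
      intro x' hx'
      refine mul_le_mul_of_nonneg_left ?_ (hp _)
      rw [div_le_iff₀ hQ]
      linarith [hcon x' hx']
    have hs0 : 0 ≤ 2 * s / Y.card := by linarith
    -- strictness
    have h9 : ∃ x' ∈ X', 0 < p (y - x') := by
      by_contra hcon2
      push Not at hcon2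
      have := Finset.sum_nonpos hcon2
      linarith [hpQ y hy]
    obtain ⟨x0, hx0, hpx0⟩ := h9
    have h10 : ∑ x' ∈ X', p (y - x') * (2 * s / Y.card / Q) < ∑ x' ∈ X', p (y - x') * F x' y := by
      refine Finset.sum_lt_sum h8 ⟨x0, hx0, ?_⟩
      refine mul_lt_mul_of_pos_left ?_ hpx0
      rw [div_lt_iff₀ hQ]
      linarith [hcon x0 hx0]
    rw [← Finset.sum_mul] at h10
    have h11 : Q * (2 * s / Y.card / Q) ≤ (∑ x' ∈ X', p (y - x')) * (2 * s / Y.card / Q) :=
      mul_le_mul_of_nonneg_right (hpQ y hy) (by positivity)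
    have h12 : Q * (2 * s / Y.card / Q) = 2 * s / Y.card := by field_simp
    linarith
  obtain ⟨x', hx', h8⟩ := h7
  refine ⟨y, hy, x', hx', ?_, ?_⟩
  · rw [← div_div, le_div_iff₀ hq]
    linarith
  · rw [← div_div, le_div_iff₀ hQ]
    linarith

end Pool.Agent.Helper28Excl
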