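import Pool.Agent.Helper28_Excl.Semi3
import Pool.Agent.Helper28_Excl.Example

/-! For kernels with finite mean whose left tail dominates a power law with exponent less than
`(3 + √5) / 2`, the exclusion process has no stationary distribution whose density tends to `0`
at `-∞` and to `1` at `+∞`; this covers an explicit irreducible kernel satisfying (H). -/

namespace Pool.Agent.Helper28Excl.NoBlockingOld

open Pool.Agent.Helper28Excl MeasureTheory

/-- Main theorem. First part: for every kernel `p` with finite mean and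
`p (-n) ≥ c * n ^ (-β)`, `β < (3 + √5) / 2`, the exclusion process with kernel `p` (its Feller
semigroup `S` exists and is unique) has no stationary distribution with the two limits; more
generally no probability measure annihilated by the generator has the two limits. Second
part: the explicit irreducible kernel `pex`, with `pex (-n) = cex * n ^ (-5/2)`, satisfies (H). -/
theorem result :
    (∀ (p : ℤ → ℝ) (c β : ℝ), IsKernel p → FiniteMean p → 0 < c → β < (3 + Real.sqrt 5) / 2 →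
      (∀ n : ℕ, 1 ≤ n → c * (n : ℝ) ^ (-β) ≤ p (-(n : ℤ))) →
      (∃ S : ℝ → C(ℤ → Bool, ℝ) →ₗ[ℝ] C(ℤ → Bool, ℝ), IsExclusionSemigroup p S ∧
        (∀ S' : ℝ → C(ℤ → Bool, ℝ) →ₗ[ℝ] C(ℤ → Bool, ℝ), IsExclusionSemigroup p S' →
          ∀ t : ℝ, 0 ≤ t → S' t = S t) ∧
        ∀ μ : Measure (ℤ → Bool), IsStationary S μ → ¬ HasLimits μ) ∧
      ∀ μ : Measure (ℤ → Bool), IsProbabilityMeasure μ →
        (∀ f : C(ℤ → Bool, ℝ), IsCyl f → ∫ η, gen p f η ∂μ = 0) → ¬ HasLimits μ) ∧
    (IsKernel pex ∧ Irred pex ∧ CondH pex ∧ 0 < cex ∧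
      ∀ n : ℕ, 1 ≤ n → pex (-(n : ℤ)) = cex * (n : ℝ) ^ (-(5 / 2) : ℝ)) := by
  refine ⟨fun p c β hp hm hc hβ hlow => ?_, isKernel_pex, irred_pex, condH_pex,
    cex_pos, fun n hn => pex_neg' n hn⟩
  have hpos : ∀ n : ℕ, 1 ≤ n → 0 < p (-(n : ℤ)) := fun n hn =>
    lt_of_lt_of_le (mul_pos hc (Real.rpow_pos_of_pos (by exact_mod_cast hn) _)) (hlow n hn)
  have h1 : ∀ μ : Measure (ℤ → Bool), IsProbabilityMeasure μ →
      (∀ f : C(ℤ → Bool, ℝ), IsCyl f → ∫ η, gen p f η ∂μ = 0) → ¬ HasLimits μ :=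
    fun μ hμ h => no_measure (reach_power hc hβ hlow) hpos hp hm h
  refine ⟨⟨Sinf (mkKern hp hm), isExclusionSemigroup_Sinf hp hm,
    fun S' hS' t ht => semigroup_unique hp hm hS' ht, fun μ hμ => ?_⟩, h1⟩
  exact h1 μ hμ.1 (gen_of_stationary hp hm (isExclusionSemigroup_Sinf hp hm) hμ)

end Pool.Agent.Helper28Excl.NoBlockingOld
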