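import Pool.Agent.Helper28_Excl.Main

/-! No stationary state with the two limits. -/

namespace Pool.Agent.Helper28Excl

open Filter Topology

set_option linter.unusedSectionVars false
set_option linter.unusedVariables false

variable {k : Kern}

/-- The reachability condition on the kernel: at all scales there is a set `Y` of far left sites
and a set `X'` of sites to the right of `b`, such that the rates into `Y` from near the origin
and from `X'` are large compared with `1 / (#Y * b)`. -/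
def Reach (p : ℤ → ℝ) : Prop :=
  ∀ (R : ℕ) (B : ℝ), ∃ (Y X' : Finset ℤ) (b q Q : ℝ), Y.Nonempty ∧ B ≤ b ∧
    (∀ y ∈ Y, (y : ℝ) ≤ -B) ∧ (∀ x' ∈ X', b ≤ (x' : ℝ)) ∧ 0 < q ∧ 0 < Q ∧
    (∀ y ∈ Y, ∀ x : ℤ, |x| ≤ R → q ≤ p (y - x)) ∧ (∀ y ∈ Y, Q ≤ ∑ x' ∈ X', p (y - x')) ∧
    B ≤ Y.card * b * q ∧ B ≤ Y.card * b * Q

lemma Gam_eval {Λ : C(Config, ℝ) →ₗ[ℝ] ℝ} (N : ℕ) (h : C(Config, ℝ)) :
    Λ (Gam X k N h) = ∑ a ∈ box N ×ˢ box N, k.p (a.2 - a.1) * Λ (Esq h a.1 a.2) := by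
  unfold Gam
  rw [map_sum]
  refine Finset.sum_congr rfl fun q _ => ?_
  rw [map_smul, smul_eq_mul]
  rfl

lemma card_box (R : ℕ) : ((box R).card : ℝ) = 2 * R + 1 := by
  unfold box
  rw [Int.card_Icc]
  have : ((R : ℤ) + 1 - -(R : ℤ)).toNat = 2 * R + 1 := by omega
  rw [this]
  push_cast
  ring

lemma norm_ev_le (x : ℤ) : ‖ev x‖ ≤ 1 := by
  rw [ContinuousMap.norm_le _ zero_le_one]
  intro z
  rw [Real.norm_eq_abs, abs_of_nonneg (ev_nonneg _ _)]
  exact ev_le_one _ _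

lemma arith_frac {ε δ θ B c m : ℝ} (hε : 0 < ε) (hδ : 0 < δ) (hθ : 0 < θ)
    (hm : 1 ≤ m) (hk : 8 * m ≤ B * (ε * δ * θ)) (hc : B ≤ c) (hc0 : 0 < c) :
    1 / (2 * ε * δ * c) ≤ θ / 16 ∧ m / (2 * ε * δ * c) ≤ θ / 16 := by
  have h3 : B * (ε * δ * θ) ≤ c * (ε * δ * θ) := mul_le_mul_of_nonneg_right hc (by positivity)
  have h4 : θ * (2 * ε * δ * c) = 2 * (c * (ε * δ * θ)) := by ring
  constructor
  · rw [div_le_div_iff₀ (by positivity) (by norm_num), h4]
    linarith
  · rw [div_le_div_iff₀ (by positivity) (by norm_num), h4]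
    linarith

lemma arith_psi {m M θ b δ : ℝ} (hm : 0 < m) (hM : 0 ≤ M) (hθ : 0 < θ) (hb : 0 < b)
    (hδ : δ = θ / (128 * m * (M + 1))) :
    4 * M * (δ * b) ≤ θ / (16 * m) * (b / 2) := by
  have h4 : 4 * M * (δ * b) = (M / (M + 1)) * (θ * b / (32 * m)) := by
    rw [hδ]
    field_simp
    ring
  rw [h4]
  have h5 : M / (M + 1) ≤ 1 := by
    rw [div_le_one (by linarith)]
    linarith
  have h6 : 0 ≤ θ * b / (32 * m) := by positivity
  have h7 : θ / (16 * m) * (b / 2) = θ * b / (32 * m) := by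
    field_simp
    ring
  rw [h7]
  have := mul_le_mul_of_nonneg_right h5 h6
  rwa [one_mul] at this

lemma arith_e1 {ε t Y q δ b : ℝ} (hε : 0 < ε) (hY : 0 < Y) (hq : 0 < q) (hδ : 0 < δ) (hb : 0 < b)
    (ht : t = δ * b) (m : ℝ) :
    1 / (4 * ε) * (2 * (1 / t) / (Y * q)) = 1 / (2 * ε * δ * (Y * b * q)) ∧
    m * (1 / (4 * ε)) * (2 * (1 / t) / (Y * q)) = m / (2 * ε * δ * (Y * b * q)) := by
  constructor
  · rw [ht]; field_simp; ring
  · rw [ht]; field_simp; ring

/-- The final contradiction. -/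
theorem no_coupling (hreach : Reach k.p) {Λ : C(Config, ℝ) →ₗ[ℝ] ℝ} (hΛ : InvState X k Λ)
    {ν : C(Config × Config, ℝ) →ₗ[ℝ] ℝ} (hν : InvState XX k ν) (hν1 : ν ∘ₗ pull pfst = Λ)
    (hν2 : ν ∘ₗ pull psnd = Λ ∘ₗ pull sh) (hsm : ∀ x, ν (site sm x) = 0)
    (hexc : ∀ K, ν (exc K) = 0) (hkap : ∀ ε : ℝ, 0 < ε → ∃ K, ν (kap K) ≤ ε)
    {z0 : ℤ} (hz0 : Λ (ev z0) < Λ (ev (z0 + 1)))
    (htail : ∀ ε : ℝ, 0 < ε → ∃ A : ℝ, ∀ x : ℤ, ((x : ℝ) ≤ -A → Λ (ev x) ≤ ε) ∧
      (A ≤ (x : ℝ) → 1 - Λ (ev x) ≤ ε)) : False := by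
  set θ := Λ (ev (z0 + 1)) - Λ (ev z0) with hθ
  have hθ0 : 0 < θ := by rw [hθ]; linarith
  obtain ⟨R, hR⟩ := hkap (θ / 8) (by positivity)
  set m : ℝ := 2 * R + 1 with hm
  have hm1 : 1 ≤ m := by rw [hm]; linarith [Nat.cast_nonneg (α := ℝ) R]
  have hm0 : 0 < m := by linarith
  have hmom := mom_nonneg k
  set ε := θ / (32 * m) with hε
  have hε0 : 0 < ε := by positivity
  set δ := θ / (128 * m * (mom k + 1)) with hδ
  have hδ0 : 0 < δ := by positivity
  obtain ⟨A, hA⟩ := htail (θ / (16 * m)) (by positivity)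
  set Kz := z0.natAbs with hKz
  set B : ℝ := max (max A (R + 1)) (max (2 * Kz + 1) (8 * m / (ε * δ * θ))) with hB
  have hBA : A ≤ B := (le_max_left _ _).trans (le_max_left _ _)
  have hBR : (R : ℝ) + 1 ≤ B := (le_max_right _ _).trans (le_max_left _ _)
  have hBK : 2 * (Kz : ℝ) + 1 ≤ B := (le_max_left _ _).trans (le_max_right _ _)
  have hBm : 8 * m / (ε * δ * θ) ≤ B := (le_max_right _ _).trans (le_max_right _ _)
  have hB0 : 0 < B := by
    have : (0 : ℝ) ≤ R := Nat.cast_nonneg _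
    linarith
  obtain ⟨Y, X', b, q, Q, hYne, hBb, hY, hX', hq, hQ, hpq, hpQ, hc1, hc2⟩ := hreach R B
  have hb0 : 0 < b := by linarith
  set t := δ * b with ht
  have ht0 : 0 < t := by positivity
  have hz0mem : z0 ∈ box Kz := by
    rw [mem_box, hKz, Int.abs_eq_natAbs]
  have hcylf : Cyl X Kz (ev z0) := Cyl_ev hz0mem
  -- choose N
  have hfin : ∀ S : Finset ℤ, ∀ᶠ N in atTop, S ⊆ box N := by
    intro S
    have h1 : ∀ x ∈ S, ∀ᶠ N in atTop, x ∈ box N := fun x _ => by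
      obtain ⟨K, hK⟩ := exists_box x
      filter_upwards [eventually_ge_atTop K] with N hN
      exact box_mono hN hK
    exact (Filter.eventually_all_finset S).mpr h1
  have herr1 := (err_tendsto k hcylf ht0.le).eventually
    (gt_mem_nhds (by positivity : 0 < θ / (32 * t)))
  have herr2 := (err_sq_tendsto k hcylf (ev_nonneg z0) (ev_le_one z0) ht0.le).eventually
    (gt_mem_nhds (by positivity : 0 < 1 / (2 * t)))
  obtain ⟨N, hN1, hN2, hNY, hNX', hNR, hNK⟩ := (herr1.and (herr2.and ((hfin Y).and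
    ((hfin X').and ((eventually_ge_atTop R).and (eventually_ge_atTop Kz)))))).exists
  set h := Rop X k N t (ev z0) with hh
  have hcyl : Cyl X N h := Cyl_Rop X k ht0.le (hcylf.mono hNK)
  have hh0 : ∀ z, 0 ≤ h z := Rop_nonneg X k ht0.le (ev_nonneg z0)
  have hh1 : ∀ z, h z ≤ 1 := Rop_le_one X k ht0.le (ev_le_one z0)
  -- discrepancy bound
  set L := b - Kz with hL
  have hL0 : b / 2 ≤ L := by rw [hL]; linarith
  have hLpos : 0 < L := by linarith
  have hdisc := Disc_Rop_Cyl k hcylf ht0.le hLpos N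
  set ψ : ℤ → ℝ := fun x => 2 * ‖ev z0‖ * tent Kz L x + 4 * mom k * ‖ev z0‖ * t / L with hψ
  have hψ0 : ∀ x, 0 ≤ ψ x := fun x => by
    have := tent_nonneg Kz L x
    have := norm_nonneg (ev z0)
    simp only [hψ]
    positivity
  have hψX' : ∀ x' ∈ X', ψ x' ≤ θ / (16 * m) := by
    intro x' hx'
    have h1 : tent Kz L x' = 0 := by
      refine tent_eq_zero Kz hLpos ?_
      have h2 := hX' x' hx'
      have h3 := le_abs_self (x' : ℝ)
      rw [hL]
      linarith
    simp only [hψ, h1, mul_zero, zero_add]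
    have hn := norm_ev_le z0
    have hn0 := norm_nonneg (ev z0)
    have h2 : 4 * mom k * ‖ev z0‖ * t ≤ 4 * mom k * t := by
      have : 0 ≤ 4 * mom k * t := by positivity
      nlinarith
    rw [div_le_iff₀ hLpos]
    have h3 : 4 * mom k * t ≤ θ / (16 * m) * (b / 2) := by
      rw [ht]
      exact arith_psi hm0 hmom hθ0 hb0 hδ
    have h4 : θ / (16 * m) * (b / 2) ≤ θ / (16 * m) * L :=
      mul_le_mul_of_nonneg_left hL0 (by positivity)
    linarith
  -- energies
  have hΛsh := hΛ.sh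
  have hen1 := energy_le hΛ.1 hΛ.2.1 hΛ.2.2 (hcylf.mono hNK) (ev_nonneg z0) (ev_le_one z0) ht0
  have hen2 := energy_le hΛsh.1 hΛsh.2.1 hΛsh.2.2 (hcylf.mono hNK) (ev_nonneg z0)
    (ev_le_one z0) ht0
  rw [← hh, Gam_eval] at hen1 hen2
  have hs : 1 / (2 * t) + ‖Linf X k (h * h) - LN X k N (h * h)‖ ≤ 1 / t := by
    have h1 : 1 / (2 * t) + 1 / (2 * t) = 1 / t := by field_simp; ring
    linarith
  obtain ⟨y, hy, x', hx', hE, hF⟩ := pigeon (E := fun u v => (Λ ∘ₗ pull sh) (Esq h u v))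
    (F := fun u v => Λ (Esq h u v)) (p := k.p) k.nonneg
    (fun u v => hΛsh.1.nonneg fun z => Esq_nonneg h u v z)
    (fun u v => hΛ.1.nonneg fun z => Esq_nonneg h u v z) hNR hNY hNX' hYne hq hQ
    (hen2.trans hs) (hen1.trans hs) (fun y hy x hx => hpq y hy x (mem_box.mp hx)) hpQ
  have hyN := hNY hy
  have hx'N := hNX' hx'
  have hyle := hY y hy
  have hx'ge := hX' x' hx'
  -- three step comparison
  have hstep : ∀ x ∈ box R, ν (site sd x * (pull psnd h - pull pfst h)) ≤ 2 * ε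
      + 1 / (4 * ε) * (Λ ∘ₗ pull sh) (Esq h x y) + 1 / (4 * ε) * Λ (Esq h x' y)
      + ψ x' + Λ (ev y) + (1 - Λ (ev x')) := by
    intro x hx
    have hxR : |(x : ℝ)| ≤ R := by exact_mod_cast mem_box.mp hx
    have hxR' := abs_le.mp hxR
    have hxy : x ≠ y := by
      intro e
      rw [e] at hxR'
      linarith [hxR'.1]
    have hxx' : x ≠ x' := by
      intro e
      rw [e] at hxR'
      linarith [hxR'.2]
    have hyx' : y ≠ x' := by
      intro e
      rw [e] at hyle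
      linarith
    exact three_step_int hν hν1 hν2 hsm hexc hcyl hh0 hh1 hψ0 hdisc (box_mono hNR hx) hyN hx'N
      hxy hxx' hyx' hε0
  have hdec := decomp hν hν1 hν2 hexc hh0 hh1 R
  have hsum := Finset.sum_le_sum hstep
  have hsumeq : ∑ x ∈ box R, (2 * ε
      + 1 / (4 * ε) * (Λ ∘ₗ pull sh) (Esq h x y) + 1 / (4 * ε) * Λ (Esq h x' y)
      + ψ x' + Λ (ev y) + (1 - Λ (ev x')))
      = m * (2 * ε) + 1 / (4 * ε) * ∑ x ∈ box R, (Λ ∘ₗ pull sh) (Esq h x y)
        + m * (1 / (4 * ε)) * Λ (Esq h x' y) + m * ψ x' + m * Λ (ev y)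
        + m * (1 - Λ (ev x')) := by
    simp only [Finset.sum_add_distrib, Finset.sum_const, nsmul_eq_mul, card_box,
      ← Finset.mul_sum]
    rw [← hm]
    ring
  rw [hsumeq] at hsum
  -- lower bound
  have hlow1 := abs_Rop_sub_le hΛ.1 hΛ.2.1 hΛ.2.2 (hcylf.mono hNK) ht0.le
  have hlow2 := abs_Rop_sub_le hΛsh.1 hΛsh.2.1 hΛsh.2.2 (hcylf.mono hNK) ht0.le
  rw [← hh] at hlow1 hlow2
  have hterr : t * ‖Linf X k h - LN X k N h‖ ≤ θ / 32 := by
    have h1 := mul_le_mul_of_nonneg_left hN1.le ht0.le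
    have h2 : t * (θ / (32 * t)) = θ / 32 := by field_simp
    rw [h2] at h1
    exact h1
  have hev1 : (Λ ∘ₗ pull sh) (ev z0) = Λ (ev (z0 + 1)) := rfl
  have hl1 := (abs_le.mp hlow1).2
  have hl2 := (abs_le.mp hlow2).1
  rw [hev1] at hl2
  have hlow : θ - 2 * (θ / 32) ≤ (Λ ∘ₗ pull sh) h - Λ h := by
    linarith
  -- bounds of the terms
  have hb1 : m * (2 * ε) = θ / 16 := by rw [hε]; field_simp; ring
  have hk1 : 8 * m ≤ B * (ε * δ * θ) := by
    rw [div_le_iff₀ (by positivity)] at hBm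
    exact hBm
  have hcard0 : (0 : ℝ) < Y.card := by exact_mod_cast hYne.card_pos
  have hb2 : 1 / (4 * ε) * ∑ x ∈ box R, (Λ ∘ₗ pull sh) (Esq h x y) ≤ θ / 16 := by
    have h1 := mul_le_mul_of_nonneg_left hE (by positivity : 0 ≤ 1 / (4 * ε))
    refine h1.trans ?_
    rw [(arith_e1 hε0 hcard0 hq hδ0 hb0 ht m).1]
    exact (arith_frac hε0 hδ0 hθ0 hm1 hk1 hc1 (lt_of_lt_of_le hB0 hc1)).1
  have hb3 : m * (1 / (4 * ε)) * Λ (Esq h x' y) ≤ θ / 16 := by
    have h1 := mul_le_mul_of_nonneg_left hF (by positivity : 0 ≤ m * (1 / (4 * ε)))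
    refine h1.trans ?_
    rw [(arith_e1 hε0 hcard0 hQ hδ0 hb0 ht m).2]
    exact (arith_frac hε0 hδ0 hθ0 hm1 hk1 hc2 (lt_of_lt_of_le hB0 hc2)).2
  have hm16 : m * (θ / (16 * m)) = θ / 16 := by field_simp
  have hb4 : m * ψ x' ≤ θ / 16 := by
    rw [← hm16]
    exact mul_le_mul_of_nonneg_left (hψX' x' hx') hm0.le
  have hb5 : m * Λ (ev y) ≤ θ / 16 := by
    rw [← hm16]
    exact mul_le_mul_of_nonneg_left ((hA y).1 (by linarith)) hm0.le
  have hb6 : m * (1 - Λ (ev x')) ≤ θ / 16 := by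
    rw [← hm16]
    exact mul_le_mul_of_nonneg_left ((hA x').2 (by linarith)) hm0.le
  linarith

/-- No stationary state has density tending to zero on the left and to one on the right. -/
theorem no_state (hreach : Reach k.p) (hp : ∀ n : ℕ, 1 ≤ n → 0 < k.p (-(n : ℤ)))
    {Λ : C(Config, ℝ) →ₗ[ℝ] ℝ} (hΛ : InvState X k Λ)
    (hleft : Tendsto (fun x : ℤ => Λ (ev x)) atBot (𝓝 0))
    (hright : Tendsto (fun x : ℤ => Λ (ev x)) atTop (𝓝 1)) : False := by
  -- choose the windows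
  have hwin : ∀ j : ℕ, ∃ K : ℕ, j + 3 ≤ K ∧ Λ (WW K j) ≤ (1 / 2) ^ j := by
    intro j
    set η : ℝ := (1 / 2) ^ j / (2 * (2 * j + 3) + 1) with hη
    have hη0 : 0 < η := by positivity
    obtain ⟨A1, hA1⟩ := (hleft.eventually (gt_mem_nhds hη0)).exists_mem
    have h1 : ∀ᶠ x : ℤ in atBot, Λ (ev x) < η := hleft.eventually (gt_mem_nhds hη0)
    have h2 : ∀ᶠ x : ℤ in atTop, 1 - η < Λ (ev x) :=
      hright.eventually (lt_mem_nhds (by linarith))
    rw [eventually_atBot] at h1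
    rw [eventually_atTop] at h2
    obtain ⟨a1, ha1⟩ := h1
    obtain ⟨a2, ha2⟩ := h2
    set K : ℕ := a1.natAbs + a2.natAbs + j + 3 with hK
    refine ⟨K, by omega, ?_⟩
    unfold WW
    rw [map_sum]
    have h3 : ∀ x ∈ nearBd K (j + 1), Λ (ew x) ≤ η := by
      intro x hx
      rw [nearBd, Finset.mem_filter, mem_box] at hx
      have hx2 := hx.2
      push_cast at hx2
      unfold ew
      split_ifs with hneg
      · refine (ha1 x ?_).le
        rw [abs_of_neg hneg] at hx2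
        omega
      · rw [map_sub, hΛ.2.1]
        have := ha2 x (by
          rw [abs_of_nonneg (not_lt.mp hneg)] at hx2
          omega)
        linarith
    refine (Finset.sum_le_sum h3).trans ?_
    rw [Finset.sum_const, nsmul_eq_mul]
    have h4 : ((nearBd K (j + 1)).card : ℝ) ≤ 2 * (2 * j + 3) + 1 := by
      have h5 : nearBd K (j + 1) ⊆ Finset.Icc (-(K + (j + 1) : ℤ)) (-(K - (j + 1) : ℤ))
          ∪ Finset.Icc ((K : ℤ) - (j + 1)) (K + (j + 1)) := by
        intro x hx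
        rw [nearBd, Finset.mem_filter, mem_box] at hx
        push_cast at hx
        rw [Finset.mem_union, Finset.mem_Icc, Finset.mem_Icc]
        rcases lt_or_ge x 0 with h | h
        · rw [abs_of_neg h] at hx
          left; omega
        · rw [abs_of_nonneg h] at hx
          right; omega
      have h6 := (Finset.card_le_card h5).trans (Finset.card_union_le _ _)
      rw [Int.card_Icc, Int.card_Icc] at h6
      have h7 : (nearBd K (j + 1)).card ≤ 2 * (2 * j + 3) + 1 := by omega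
      exact_mod_cast h7
    have h5 : η * (2 * (2 * (j : ℝ) + 3) + 1) = (1 / 2) ^ j := by
      rw [hη]; field_simp
    nlinarith
  choose Ks hKs hW using hwin
  set V : ℕ → C(Config, ℝ) := fun n => ∑ j ∈ Finset.range n, WW (Ks j) j with hV
  have hWW0 : ∀ K j z, 0 ≤ WW K j z := by
    intro K j z
    unfold WW
    rw [ContinuousMap.coe_sum, Finset.sum_apply]
    exact Finset.sum_nonneg fun x _ => ew_nonneg x z
  have hVapp : ∀ n z, V n z = ∑ j ∈ Finset.range n, WW (Ks j) j z := by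
    intro n z
    rw [hV]
    simp only
    rw [ContinuousMap.coe_sum, Finset.sum_apply]
  have hV0 : ∀ n z, 0 ≤ V n z := by
    intro n z
    rw [hVapp]
    exact Finset.sum_nonneg fun j _ => hWW0 _ _ _
  have hVm : ∀ n m, n ≤ m → ∀ z, V n z ≤ V m z := by
    intro n m hnm z
    rw [hVapp, hVapp]
    exact Finset.sum_le_sum_of_subset_of_nonneg (Finset.range_mono hnm) fun j _ _ => hWW0 _ _ _
  have hc : ∀ n, Λ (V n) ≤ 2 := by
    intro n
    rw [hV]
    simp only
    rw [map_sum]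
    refine (Finset.sum_le_sum fun j _ => hW j).trans ?_
    have h1 := (summable_geometric_two).sum_le_tsum (Finset.range n) fun j _ => by positivity
    rw [tsum_geometric_two] at h1
    exact h1
  obtain ⟨Λ0, hΛ0, hb, hext⟩ := exists_ext (J := X) (k := k) V hV0 hVm hΛ hc
  have hsumm : Summable fun j => Λ0 (WW (Ks j) j) := by
    refine summable_of_sum_range_le (c := 2) (fun j => hΛ0.1.nonneg fun z => hWW0 _ _ _)
      fun n => ?_
    have := hb n
    rw [hV] at this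
    simp only at this
    rwa [map_sum] at this
  have hW0 := hsumm.tendsto_atTop_zero
  obtain ⟨ν, hν, hν1, hν2, hsm, hexc, hkap, hmono, z0, hz0⟩ :=
    structure_thm hΛ0 hext hKs hW0 hp
  -- monotonicity
  have hmono' : ∀ x y : ℤ, x ≤ y → Λ0 (ev x) ≤ Λ0 (ev y) := by
    intro x y hxy
    obtain ⟨n, rfl⟩ := Int.le.dest hxy
    clear hxy
    induction n with
    | zero => simp
    | succ n ih =>
      refine ih.trans ?_
      have := hmono (x + n)
      push_cast
      rw [← add_assoc]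
      exact this
  refine no_coupling hreach hΛ0 hν hν1 hν2 hsm hexc hkap hz0 fun ε hε => ?_
  obtain ⟨j, hj⟩ := (hW0.eventually (gt_mem_nhds hε)).exists
  have hwx : ∀ x ∈ nearBd (Ks j) (j + 1), Λ0 (ew x) < ε := by
    intro x hx
    refine lt_of_le_of_lt ?_ hj
    unfold WW
    rw [map_sum]
    exact Finset.single_le_sum (f := fun x => Λ0 (ew x))
      (fun y _ => hΛ0.1.nonneg fun z => ew_nonneg y z) hx
  have h3 := hKs j
  refine ⟨Ks j, fun x => ⟨fun hx => ?_, fun hx => ?_⟩⟩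
  · have hx' : x ≤ -(Ks j : ℤ) := by exact_mod_cast hx
    refine (hmono' _ _ hx').trans ?_
    have := hwx (-(Ks j : ℤ)) (by
      rw [nearBd, Finset.mem_filter, mem_box, abs_neg, Nat.abs_cast]
      push_cast
      constructor <;> omega)
    unfold ew at this
    rw [if_pos (by omega)] at this
    exact this.le
  · have hx' : (Ks j : ℤ) ≤ x := by exact_mod_cast hx
    have h4 := hmono' _ _ hx'
    have := hwx (Ks j : ℤ) (by
      rw [nearBd, Finset.mem_filter, mem_box, Nat.abs_cast]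
      push_cast
      constructor <;> omega)
    unfold ew at this
    rw [if_neg (by omega), map_sub, hΛ0.2.1] at this
    linarith

end Pool.Agent.Helper28Excl
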