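import Pool.Agent.Helper28_Excl.Order

/-! The stationary coupling of an extremal state with its shift has exactly one discrepancy. -/

namespace Pool.Agent.Helper28Excl

open Filter Topology

set_option linter.unusedSectionVars false
set_option linter.unusedVariables false

variable {k : Kern}

/-- Particle to the left, hole to the right. -/
noncomputable def ew (x : ℤ) : C(Config, ℝ) := if x < 0 then ev x else 1 - ev x

/-- Window observable near the boundary of the box. -/
noncomputable def WW (K j : ℕ) : C(Config, ℝ) := ∑ x ∈ nearBd K (j + 1), ew x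

lemma ev_nonneg (x : ℤ) (η : Config) : 0 ≤ ev x η := by
  rw [ev_apply]; split_ifs <;> norm_num

lemma ev_le_one (x : ℤ) (η : Config) : ev x η ≤ 1 := by
  rw [ev_apply]; split_ifs <;> norm_num

lemma ew_nonneg (x : ℤ) (η : Config) : 0 ≤ ew x η := by
  unfold ew
  split_ifs
  · exact ev_nonneg x η
  · rw [ContinuousMap.sub_apply, ContinuousMap.one_apply]
    linarith [ev_le_one x η]

/-- Inverse shift. -/
def shi : C(Config, Config) := ⟨fun η x => η (x - 1), by
  exact continuous_pi fun x => continuous_apply (x - 1)⟩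

@[simp] lemma shi_apply (η : Config) (x : ℤ) : shi η x = η (x - 1) := rfl

lemma shi_T (u v : ℤ) (η : Config) : shi (X.T u v η) = X.T (u + 1) (v + 1) (shi η) := by
  funext x
  simp only [X_T, shi_apply]
  unfold jmp
  have h1 : (x - 1 = u) ↔ (x = u + 1) := by omega
  have h2 : (x - 1 = v) ↔ (x = v + 1) := by omega
  simp only [h1, h2, shi_apply]
  have e1 : u + 1 - 1 = u := by ring
  have e2 : v + 1 - 1 = v := by ring
  rw [e1, e2]

lemma Cyl_shi {K : ℕ} {f : C(Config, ℝ)} (hf : Cyl X K f) : Cyl X (K + 1) (pull shi f) := by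
  intro η ζ h
  refine hf _ _ fun x hx => ?_
  refine h (x - 1) ?_
  rw [mem_box] at *
  push_cast
  rw [abs_le] at *
  constructor <;> omega

lemma isExt_sh {Λ : C(Config, ℝ) →ₗ[ℝ] ℝ} (h : IsExt X k Λ) : IsExt X k (Λ ∘ₗ pull sh) := by
  intro M hM hMs hdiff
  have e1 : ∀ g : C(Config, ℝ), pull sh (pull shi g) = g := by
    intro g
    ext η
    simp only [pull_apply]
    congr 1
    funext x
    simp
  have e2 : ∀ g : C(Config, ℝ), pull shi (pull sh g) = g := by
    intro g
    ext η
    simp only [pull_apply]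
    congr 1
    funext x
    simp
  have h1 := h (M ∘ₗ pull shi) (hM.pull _) (hMs.pull _ 1 shi_T 1 fun K f hf => Cyl_shi hf)
    (fun g hg => by
      have := hdiff (pull shi g) fun z => hg _
      rwa [LinearMap.sub_apply, LinearMap.comp_apply, e1] at this)
  ext g
  have h2 := LinearMap.congr_fun h1 (pull sh g)
  rw [LinearMap.comp_apply, e2] at h2
  rw [h2]
  rfl

/-- The diagonal embedding `η ↦ (η, sh η)`. -/
def dg : C(Config, Config × Config) := (ContinuousMap.id Config).prodMk sh

lemma nearBd_shift {w : ℤ → ℝ} (hw : ∀ x, 0 ≤ w x) (K j : ℕ) :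
    ∑ x ∈ nearBd K j, (w x + w (x + 1)) ≤ 2 * ∑ x ∈ nearBd K (j + 1), w x := by
  classical
  rw [Finset.sum_add_distrib, two_mul]
  refine add_le_add ?_ ?_
  · refine Finset.sum_le_sum_of_subset_of_nonneg (fun x hx => ?_) fun x _ _ => hw x
    rw [nearBd, Finset.mem_filter, mem_box] at *
    push_cast at *
    constructor <;> omega
  · have : ∑ x ∈ nearBd K j, w (x + 1) = ∑ x ∈ (nearBd K j).image (fun x => x + 1), w x := by
      rw [Finset.sum_image]
      intro x _ y _ hxy
      simpa using hxy
    rw [this]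
    refine Finset.sum_le_sum_of_subset_of_nonneg (fun x hx => ?_) fun x _ _ => hw x
    rw [Finset.mem_image] at hx
    obtain ⟨y, hy, rfl⟩ := hx
    rw [nearBd, Finset.mem_filter, mem_box] at *
    push_cast at *
    have h1 := abs_add_le y 1
    have h2 := abs_sub_abs_le_abs_sub y (-1)
    rw [sub_neg_eq_add] at h2
    simp only [abs_one, abs_neg] at h1 h2
    constructor <;> omega

lemma telescope (ρ : ℤ → ℝ) (K : ℕ) :
    ∑ x ∈ box K, (ρ (x + 1) - ρ x) = ρ (K + 1) - ρ (-K) := by
  induction K with
  | zero =>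
    have : box 0 = {0} := by
      ext x
      rw [mem_box, Finset.mem_singleton]
      constructor
      · intro h
        have := abs_nonneg x
        have h2 : |x| = 0 := le_antisymm (by exact_mod_cast h) this
        exact abs_eq_zero.mp h2
      · intro h; rw [h]; simp
    rw [this, Finset.sum_singleton]
    simp
  | succ K ih =>
    have h1 : box (K + 1) = insert ((K : ℤ) + 1) (insert (-((K : ℤ) + 1)) (box K)) := by
      ext x
      rw [Finset.mem_insert, Finset.mem_insert, mem_box, mem_box]
      push_cast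
      rw [abs_le, abs_le]
      omega
    rw [h1, Finset.sum_insert, Finset.sum_insert, ih]
    · push_cast
      have e : -((K : ℤ) + 1) + 1 = -K := by ring
      rw [e]
      ring
    · rw [mem_box, abs_le]; omega
    · rw [Finset.mem_insert, mem_box, abs_le]; omega

/-- Structure of the coupling with the shift. -/
theorem structure_thm {Λ : C(Config, ℝ) →ₗ[ℝ] ℝ} (hΛ : InvState X k Λ) (hext : IsExt X k Λ)
    {Ks : ℕ → ℕ} (hKs : ∀ j, j + 3 ≤ Ks j)
    (hW : Tendsto (fun j => Λ (WW (Ks j) j)) atTop (𝓝 0))
    (hp : ∀ n : ℕ, 1 ≤ n → 0 < k.p (-(n : ℤ))) :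
    ∃ ν : C(Config × Config, ℝ) →ₗ[ℝ] ℝ, InvState XX k ν ∧ ν ∘ₗ pull pfst = Λ ∧
      ν ∘ₗ pull psnd = Λ ∘ₗ pull sh ∧ (∀ x, ν (site sm x) = 0) ∧ (∀ K, ν (exc K) = 0) ∧
      (∀ ε : ℝ, 0 < ε → ∃ K, ν (kap K) ≤ ε) ∧ (∀ x, Λ (ev x) ≤ Λ (ev (x + 1))) ∧
      (∃ x, Λ (ev x) < Λ (ev (x + 1))) := by
  obtain ⟨ν, hν, hν1, hν2⟩ := exists_coupling (k := k) (M := Λ ∘ₗ pull dg) (hΛ.1.pull _)
    (by rw [LinearMap.comp_apply, pull_one]; exact hΛ.2.1) hΛ.2.2 hΛ.sh.2.2
  have hν1 : ν ∘ₗ pull pfst = Λ := hν1
  have hν2 : ν ∘ₗ pull psnd = Λ ∘ₗ pull sh := hν2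
  have hKtop : Tendsto Ks atTop atTop := tendsto_atTop_mono (fun j => by
    have := hKs j
    simp only [id]
    omega) tendsto_id
  set ρ : ℤ → ℝ := fun x => Λ (ev x) with hρ
  have hρ1 : ∀ x, ν (pull pfst (ev x)) = ρ x := fun x => LinearMap.congr_fun hν1 (ev x)
  have hshev : ∀ x, pull sh (ev x) = ev (x + 1) := fun x => rfl
  have hρ2 : ∀ x, ν (pull psnd (ev x)) = ρ (x + 1) := fun x => by
    have := LinearMap.congr_fun hν2 (ev x)
    rw [LinearMap.comp_apply, LinearMap.comp_apply, hshev] at this
    exact this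
  have hρ0 : ∀ x, 0 ≤ ρ x := fun x => hΛ.1.nonneg fun z => ev_nonneg x z
  have hρle : ∀ x, ρ x ≤ 1 := fun x => by
    rw [← hΛ.2.1]; exact hΛ.1.mono fun z => ev_le_one x z
  set w : ℤ → ℝ := fun x => Λ (ew x) with hw
  have hw0 : ∀ x, 0 ≤ w x := fun x => hΛ.1.nonneg fun z => ew_nonneg x z
  have hwneg : ∀ x, x < 0 → w x = ρ x := fun x hx => by
    simp only [hw, ew, if_pos hx, hρ]
  have hwpos : ∀ x, 0 ≤ x → w x = 1 - ρ x := fun x hx => by
    simp only [hw, ew, if_neg (not_lt.mpr hx), hρ, map_sub, hΛ.2.1]
  have hWW : ∀ K j, Λ (WW K j) = ∑ x ∈ nearBd K (j + 1), w x := fun K j => by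
    unfold WW; rw [map_sum]
  -- density of discrepancies
  have hdens : ∀ x : ℤ, 2 ≤ |x| → ν (site sd x) ≤ w x + w (x + 1) := by
    intro x hx
    rcases lt_or_ge x 0 with h | h
    · have hx2 : x ≤ -2 := by rw [abs_of_neg h] at hx; omega
      rw [hwneg x h, hwneg (x + 1) (by omega), ← hρ1 x, ← hρ2 x, ← map_add]
      refine hν.1.mono fun z => ?_
      simp only [site_apply, ContinuousMap.add_apply, pull_apply, ev_apply, sd, pfst_apply,
        psnd_apply]
      cases z.1 x <;> cases z.2 x <;> simp
    · rw [hwpos x h, hwpos (x + 1) (by omega)]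
      have e1 : ν (1 - pull pfst (ev x)) = 1 - ρ x := by rw [map_sub, hν.2.1, hρ1]
      have e2 : ν (1 - pull psnd (ev x)) = 1 - ρ (x + 1) := by rw [map_sub, hν.2.1, hρ2]
      rw [← e1, ← e2, ← map_add]
      refine hν.1.mono fun z => ?_
      simp only [site_apply, ContinuousMap.add_apply, ContinuousMap.sub_apply,
        ContinuousMap.one_apply, pull_apply, ev_apply, sd, pfst_apply, psnd_apply]
      cases z.1 x <;> cases z.2 x <;> simp
  have hflux : Tendsto (fun j => flux k ν (Ks j) j) atTop (𝓝 0) := by
    have h1 : Tendsto (fun j => 8 * Λ (WW (Ks j) j) + 4 * tmom k j) atTop (𝓝 0) := by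
      have := (hW.const_mul 8).add ((tmom_tendsto k).const_mul 4)
      simpa using this
    refine squeeze_zero (fun j => ?_) (fun j => ?_) h1
    · unfold flux
      have := tmom_nonneg k j
      have h2 : 0 ≤ ∑ x ∈ nearBd (Ks j) j, ν (site sd x) :=
        Finset.sum_nonneg fun x _ => dens_nonneg hν x
      linarith
    · unfold flux
      have h2 : ∑ x ∈ nearBd (Ks j) j, ν (site sd x) ≤ ∑ x ∈ nearBd (Ks j) j, (w x + w (x + 1)) := by
        refine Finset.sum_le_sum fun x hx => hdens x ?_
        rw [nearBd, Finset.mem_filter] at hx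
        have := hKs j
        omega
      have h3 := nearBd_shift hw0 (Ks j) j
      rw [hWW]
      linarith
  have hopp : ∀ u v, ν (opp u v) = 0 := by
    intro u v
    rcases lt_trichotomy u v with h | h | h
    · rw [opp_comm]
      refine opp_eq_zero hν hKtop hflux ?_
      have := hp (v - u).toNat (by omega)
      have e : (((v - u).toNat : ℕ) : ℤ) = v - u := by omega
      rw [e, neg_sub] at this
      exact this
    · subst h
      have : opp u u = 0 := by
        ext z
        rw [opp_self]
        rfl
      rw [this, map_zero]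
    · refine opp_eq_zero hν hKtop hflux ?_
      have := hp (u - v).toNat (by omega)
      have e : (((u - v).toNat : ℕ) : ℤ) = u - v := by omega
      rw [e, neg_sub] at this
      exact this
  -- no monotone decrease
  have hnodec : ¬ ∀ x, ρ (x + 1) ≤ ρ x := by
    intro hdec
    have hanti : ∀ (n : ℕ) (x : ℤ), ρ (x + n) ≤ ρ x := by
      intro n
      induction n with
      | zero => intro x; simp
      | succ n ih =>
        intro x
        have := hdec (x + n)
        push_cast
        rw [← add_assoc]
        exact this.trans (ih x)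
    obtain ⟨j, hj⟩ := ((hW.eventually (gt_mem_nhds (by norm_num : (0 : ℝ) < 1 / 4)))).exists
    rw [hWW] at hj
    have h1 : w (-(Ks j : ℤ)) ≤ ∑ x ∈ nearBd (Ks j) (j + 1), w x := by
      refine Finset.single_le_sum (fun x _ => hw0 x) ?_
      rw [nearBd, Finset.mem_filter, mem_box, abs_neg, Nat.abs_cast]
      push_cast
      constructor <;> omega
    have h2 : w (Ks j : ℤ) ≤ ∑ x ∈ nearBd (Ks j) (j + 1), w x := by
      refine Finset.single_le_sum (fun x _ => hw0 x) ?_
      rw [nearBd, Finset.mem_filter, mem_box, Nat.abs_cast]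
      push_cast
      constructor <;> omega
    have h3 := hKs j
    rw [hwneg _ (by omega)] at h1
    rw [hwpos _ (by omega)] at h2
    have h4 := hanti (2 * Ks j) (-(Ks j : ℤ))
    have e : -(Ks j : ℤ) + ((2 * Ks j : ℕ) : ℤ) = Ks j := by push_cast; ring
    rw [e] at h4
    linarith
  have hdiffsite : ∀ x, pull psnd (ev x) - pull pfst (ev x) = site sp x - site sm x := by
    intro x
    ext z
    simp only [ContinuousMap.sub_apply, pull_apply, site_apply, ev_apply, sp, sm, pfst_apply,
      psnd_apply]
    cases z.1 x <;> cases z.2 x <;> simp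
  have hsdsite : ∀ x, site sd x = site sp x + site sm x := by
    intro x
    ext z
    simp only [ContinuousMap.add_apply, site_apply, sd, sp, sm]
    cases z.1 x <;> cases z.2 x <;> simp
  -- marginals of cut functionals
  have hmarg : ∀ M : C(Config × Config, ℝ) →ₗ[ℝ] ℝ, IsPos M → Stat XX k M → IsPos (ν - M) →
      ∀ x, M (pull pfst (ev x)) = M 1 * ρ x ∧ M (pull psnd (ev x)) = M 1 * ρ (x + 1) := by
    intro M hM hMs hdiff x
    constructor
    · have h1 := hext (M ∘ₗ pull pfst) (hM.pull _)
        (hMs.pull pfst 0 (fun u v z => by rw [add_zero, add_zero]; rfl) 0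
          fun K f hf => Cyl_fst hf) (fun g hg => by
          have := hdiff (pull pfst g) fun z => hg _
          rw [LinearMap.sub_apply] at this
          have e := LinearMap.congr_fun hν1 g
          rw [LinearMap.comp_apply] at e
          rw [e] at this
          exact this)
      have h2 := LinearMap.congr_fun h1 (ev x)
      exact h2
    · have h1 := isExt_sh hext (M ∘ₗ pull psnd) (hM.pull _)
        (hMs.pull psnd 0 (fun u v z => by rw [add_zero, add_zero]; rfl) 0
          fun K f hf => Cyl_snd hf) (fun g hg => by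
          have := hdiff (pull psnd g) fun z => hg _
          rw [LinearMap.sub_apply] at this
          have e := LinearMap.congr_fun hν2 g
          rw [LinearMap.comp_apply] at e
          rw [e] at this
          exact this)
      have h2 := LinearMap.congr_fun h1 (ev x)
      exact h2
  -- no extra particle of the first configuration
  have hUle : (hyperfilter ℕ : Filter ℕ) ≤ atTop := Nat.hyperfilter_le_atTop
  have hsm : ∀ x, ν (site sm x) = 0 := by
    obtain ⟨M, hM, hMs, hdiff, hlim⟩ := cut_limit hν hopp hflux Cut_chi chi_nonneg chi_le_one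
    have h1 : ∀ x, M (site sp x) ≤ 0 := by
      intro x
      refine le_of_tendsto (hlim (site sp x)) ?_
      obtain ⟨K0, hK0⟩ := exists_box x
      refine Filter.Eventually.of_forall fun j => ?_
      have h2 : ν (chi (Ks j) * site sp x) ≤ ν (∑ y ∈ box (Ks j), opp x y) := by
        refine hν.1.mono fun z => ?_
        simp only [ContinuousMap.mul_apply, ContinuousMap.coe_sum, Finset.sum_apply]
        have h3 : chi (Ks j) z ≤ cnt sm (Ks j) z := min_le_right _ _
        have h4 := mul_le_mul_of_nonneg_right h3 (sp_nonneg (z.1 x) (z.2 x))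
        refine h4.trans ?_
        rw [cnt_apply, Finset.sum_mul]
        refine Finset.sum_le_sum fun y _ => ?_
        rw [opp_apply]
        have := mul_nonneg (sm_nonneg (z.1 x) (z.2 x)) (sp_nonneg (z.1 y) (z.2 y))
        linarith
      rw [map_sum, Finset.sum_eq_zero fun y _ => hopp x y] at h2
      exact h2
    have hm0 : M 1 = 0 := by
      by_contra hne
      have hpos : 0 < M 1 := lt_of_le_of_ne (hM.nonneg fun z => zero_le_one) (Ne.symm hne)
      apply hnodec
      intro x
      obtain ⟨e1, e2⟩ := hmarg M hM hMs hdiff x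
      have h2 : M (pull psnd (ev x)) - M (pull pfst (ev x)) ≤ 0 := by
        rw [← map_sub, hdiffsite, map_sub]
        have := h1 x
        have h3 : 0 ≤ M (site sm x) := hM.nonneg fun z => sm_nonneg _ _
        linarith
      rw [e1, e2] at h2
      nlinarith
    intro x
    have h2 : 0 ≤ ν (site sm x) := hν.1.nonneg fun z => sm_nonneg _ _
    have h3 := hlim 1
    rw [hm0] at h3
    obtain ⟨K0, hK0⟩ := exists_box x
    have h4 : ν (site sm x) ≤ 0 := by
      refine ge_of_tendsto h3 ?_
      filter_upwards [hUle (hKtop.eventually_ge_atTop K0)] with j hj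
      rw [mul_one]
      refine hν.1.mono fun z => ?_
      rw [chi_apply, site_apply]
      refine le_min ?_ ?_
      · unfold sm; split_ifs <;> norm_num
      · rw [cnt_apply]
        exact Finset.single_le_sum (f := fun y => sm (z.1 y) (z.2 y)) (fun y _ => sm_nonneg _ _)
          (box_mono hj hK0)
    exact le_antisymm h4 h2
  have hmono : ∀ x, ρ x ≤ ρ (x + 1) := by
    intro x
    have h1 : ν (pull psnd (ev x)) - ν (pull pfst (ev x)) = ν (site sp x) := by
      rw [← map_sub, hdiffsite, map_sub, hsm, sub_zero]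
    have h2 : 0 ≤ ν (site sp x) := hν.1.nonneg fun z => sp_nonneg _ _
    rw [hρ1, hρ2] at h1
    linarith
  have hsd : ∀ x, ν (site sd x) = ρ (x + 1) - ρ x := by
    intro x
    have h1 : ν (pull psnd (ev x)) - ν (pull pfst (ev x)) = ν (site sp x) := by
      rw [← map_sub, hdiffsite, map_sub, hsm, sub_zero]
    rw [hρ1, hρ2] at h1
    rw [hsdsite, map_add, hsm, add_zero, h1]
  -- some discrepancy
  have hkap : Tendsto (fun j => ν (kap (Ks j))) (hyperfilter ℕ : Filter ℕ) (𝓝 0) := by
    obtain ⟨M, hM, hMs, hdiff, hlim⟩ := cut_limit hν hopp hflux Cut_kap kap_nonneg kap_le_one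
    have h1 : ∀ x, M (site sd x) = 0 := by
      intro x
      refine tendsto_nhds_unique (hlim (site sd x)) ?_
      obtain ⟨K0, hK0⟩ := exists_box x
      refine tendsto_const_nhds.congr' ?_
      filter_upwards [hUle (hKtop.eventually_ge_atTop K0)] with j hj
      have : kap (Ks j) * site sd x = 0 := by
        ext z
        rw [ContinuousMap.mul_apply, ContinuousMap.zero_apply, kap_apply, site_apply]
        by_cases h : z.1 x = z.2 x
        · have h4 : sd (z.1 x) (z.2 x) = 0 := by unfold sd; rw [if_pos h]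
          rw [h4, mul_zero]
        · have h4 : sd (z.1 x) (z.2 x) = 1 := by unfold sd; rw [if_neg h]
          have h2 : 1 ≤ cnt sd (Ks j) z := by
            rw [cnt_apply]
            have h3 := Finset.single_le_sum (f := fun y => sd (z.1 y) (z.2 y))
              (fun y _ => sd_nonneg _ _) (box_mono hj hK0)
            simp only [h4] at h3
            exact h3
          rw [min_eq_left h2]
          ring
      rw [this, map_zero]
    have hm0 : M 1 = 0 := by
      by_contra hne
      have hpos : 0 < M 1 := lt_of_le_of_ne (hM.nonneg fun z => zero_le_one) (Ne.symm hne)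
      apply hnodec
      intro x
      obtain ⟨e1, e2⟩ := hmarg M hM hMs hdiff x
      have h2 : M (pull psnd (ev x)) - M (pull pfst (ev x)) ≤ 0 := by
        rw [← map_sub, hdiffsite, map_sub]
        have h3 : 0 ≤ M (site sm x) := hM.nonneg fun z => sm_nonneg _ _
        have h4 := h1 x
        rw [hsdsite, map_add] at h4
        linarith
      rw [e1, e2] at h2
      nlinarith
    have h3 := hlim 1
    rw [hm0] at h3
    refine h3.congr fun j => ?_
    rw [mul_one]
  refine ⟨ν, hν, hν1, hν2, hsm, fun K => ?_, fun ε hε => ?_, hmono, by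
    by_contra hcon
    push Not at hcon
    exact hnodec hcon⟩
  · have h0 : 0 ≤ ν (exc K) := hν.1.nonneg fun z => exc_nonneg K z
    have h1 : ν (exc K) ≤ 0 := by
      refine ge_of_tendsto hkap ?_
      filter_upwards [hUle (hKtop.eventually_ge_atTop K)] with j hj
      have h2 : ν (exc K) ≤ ν (exc (Ks j)) := hν.1.mono fun z => exc_mono hj z
      have h3 : ν (cnt sd (Ks j)) ≤ 1 := by
        unfold cnt
        rw [map_sum]
        simp only [hsd]
        rw [telescope]
        have h5 := hρ0 (-(Ks j : ℤ))
        have h6 := hρle ((Ks j : ℤ) + 1)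
        linarith
      rw [exc_eq (Ks j), map_add, map_sub, hν.2.1] at h2
      linarith
    exact le_antisymm h1 h0
  · have h1 := (hkap.eventually (gt_mem_nhds hε)).exists
    obtain ⟨j, hj⟩ := h1
    exact ⟨Ks j, hj.le⟩

end Pool.Agent.Helper28Excl
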