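import Pool.Agent.Helper28_Excl.Sites

/-! Ordering of the stationary coupling of an extremal state with its shift. -/

namespace Pool.Agent.Helper28Excl

open Filter Topology

set_option linter.unusedSectionVars false
set_option linter.unusedVariables false

variable {k : Kern} {ν : C(Config × Config, ℝ) →ₗ[ℝ] ℝ}

/-- The flux bound through the boundary of the box. -/
noncomputable def flux (k : Kern) (ν : C(Config × Config, ℝ) →ₗ[ℝ] ℝ) (K j : ℕ) : ℝ :=
  4 * ∑ x ∈ nearBd K j, ν (site sd x) + 4 * tmom k j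

lemma dens_nonneg (hν : InvState XX k ν) (x : ℤ) : 0 ≤ ν (site sd x) :=
  hν.1.nonneg fun z => sd_nonneg _ _

lemma dens_le_one (hν : InvState XX k ν) (x : ℤ) : ν (site sd x) ≤ 1 := by
  rw [← hν.2.1]
  exact hν.1.mono fun z => sd_le_one _ _

lemma cross_flux (hν : InvState XX k ν) (K j : ℕ) (S : Finset ℤ) :
    ∑ u ∈ box K, ∑ v ∈ S \ box K, (k.p (v - u) + k.p (u - v))
      * (ν (site sd u) + ν (site sd v)) ≤ flux k ν K j :=
  flux_le k (dens_nonneg hν) (dens_le_one hν) K j S

/-- Number of opposite pairs is controlled by the flux. -/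
lemma opp_flux (hν : InvState XX k ν) (K j : ℕ) :
    ∑ q ∈ box K ×ˢ box K, k.p (q.2 - q.1) * (2 * ν (opp q.1 q.2)) ≤ flux k ν K j := by
  have h0 : Tendsto (fun N => -ν (LN XX k N (cnt sd K)) + flux k ν K j) atTop
      (𝓝 (-0 + flux k ν K j)) :=
    (hν.2.2.tendsto hν.1 (Cyl_cnt sd K)).neg.add_const _
  rw [neg_zero, zero_add] at h0
  refine ge_of_tendsto h0 ?_
  filter_upwards [eventually_ge_atTop K] with N hN
  have h1 : ν (LN XX k N (cnt sd K)) ≤ ν (-(∑ q ∈ box K ×ˢ box K,
      k.p (q.2 - q.1) • ((2 : ℝ) • opp q.1 q.2)) + ∑ u ∈ box K, ∑ v ∈ box N \ box K,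
      (k.p (v - u) + k.p (u - v)) • (site sd u + site sd v)) := by
    refine hν.1.mono fun z => ?_
    obtain ⟨F, hF⟩ : ∃ F : ℤ → ℤ → ℝ, ∀ u v,
      F u v = k.p (v - u) * (cnt sd K (XX.T u v z) - cnt sd K z) := ⟨_, fun u v => rfl⟩
    have e1 : LN XX k N (cnt sd K) z = ∑ q ∈ box N ×ˢ box N, F q.1 q.2 := by
      rw [LN_apply]
      exact Finset.sum_congr rfl fun q _ => (hF _ _).symm
    rw [e1, sum_box_split F hN]
    have h2 : ∑ u ∈ box N \ box K, ∑ v ∈ box N \ box K, F u v = 0 := by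
      refine Finset.sum_eq_zero fun u hu => Finset.sum_eq_zero fun v hv => ?_
      have := Cyl_cnt sd K _ _ (XX.loc z (Finset.mem_sdiff.mp hu).2 (Finset.mem_sdiff.mp hv).2)
      rw [hF, this, sub_self, mul_zero]
    rw [h2, add_zero]
    simp only [ContinuousMap.add_apply, ContinuousMap.neg_apply, ContinuousMap.coe_sum,
      Finset.sum_apply, ContinuousMap.smul_apply, smul_eq_mul]
    refine add_le_add (le_of_eq ?_) ?_
    · rw [← Finset.sum_neg_distrib]
      refine Finset.sum_congr rfl fun q hq => ?_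
      rw [Finset.mem_product] at hq
      rw [hF]
      by_cases huv : q.1 = q.2
      · rw [huv, XX_T, jmp_self, jmp_self, sub_self, opp_self]
        ring
      · rw [cnt_T_in sd huv hq.1 hq.2, sd_in, ← opp_apply]
        ring
    · refine Finset.sum_le_sum fun u hu => Finset.sum_le_sum fun v hv => ?_
      have h3 := (Cut_sd K).cross u hu v (Finset.mem_sdiff.mp hv).2 z
      have h4 := le_trans (le_abs_self _) h3.1
      have h5 := le_trans (le_abs_self _) h3.2
      have h6 := mul_le_mul_of_nonneg_left h4 (k.nonneg (v - u))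
      have h7 := mul_le_mul_of_nonneg_left h5 (k.nonneg (u - v))
      rw [hF, hF]
      linarith
  have h2 : ν (∑ q ∈ box K ×ˢ box K, k.p (q.2 - q.1) • ((2 : ℝ) • opp q.1 q.2))
      = ∑ q ∈ box K ×ˢ box K, k.p (q.2 - q.1) * (2 * ν (opp q.1 q.2)) := by
    rw [map_sum]
    refine Finset.sum_congr rfl fun q _ => ?_
    rw [map_smul, map_smul, smul_eq_mul, smul_eq_mul]
  have h3 : ν (∑ u ∈ box K, ∑ v ∈ box N \ box K,
      (k.p (v - u) + k.p (u - v)) • (site sd u + site sd v))
      = ∑ u ∈ box K, ∑ v ∈ box N \ box K, (k.p (v - u) + k.p (u - v))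
      * (ν (site sd u) + ν (site sd v)) := by
    rw [map_sum]
    refine Finset.sum_congr rfl fun u _ => ?_
    rw [map_sum]
    refine Finset.sum_congr rfl fun v _ => ?_
    rw [map_smul, map_add, smul_eq_mul]
  rw [map_add, map_neg, h2, h3] at h1
  have h4 := cross_flux hν K j (box N)
  linarith

/-- Opposite discrepancies do not exist if the flux can be made small. -/
lemma opp_eq_zero (hν : InvState XX k ν) {Ks : ℕ → ℕ} (hK : Tendsto Ks atTop atTop)
    (hf : Tendsto (fun j => flux k ν (Ks j) j) atTop (𝓝 0)) {u v : ℤ}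
    (hp : 0 < k.p (v - u)) : ν (opp u v) = 0 := by
  have h0 : 0 ≤ ν (opp u v) := hν.1.nonneg fun z => opp_nonneg u v z
  have h1 : k.p (v - u) * (2 * ν (opp u v)) ≤ 0 := by
    refine ge_of_tendsto hf ?_
    obtain ⟨M1, hM1⟩ := exists_box u
    obtain ⟨M2, hM2⟩ := exists_box v
    filter_upwards [hK.eventually_ge_atTop (max M1 M2)] with j hj
    refine le_trans ?_ (opp_flux hν (Ks j) j)
    have hmem : (u, v) ∈ box (Ks j) ×ˢ box (Ks j) := by
      rw [Finset.mem_product]
      exact ⟨box_mono ((le_max_left _ _).trans hj) hM1, box_mono ((le_max_right _ _).trans hj) hM2⟩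
    exact Finset.single_le_sum (f := fun q : ℤ × ℤ => k.p (q.2 - q.1) * (2 * ν (opp q.1 q.2)))
      (fun q _ => mul_nonneg (k.nonneg _)
        (mul_nonneg (by norm_num) (hν.1.nonneg fun z => opp_nonneg _ _ z))) hmem
  nlinarith

lemma opp_comm (u v : ℤ) : opp u v = opp v u := by
  unfold opp
  ring

/-- Restricting a stationary coupling. -/
lemma cut_le (hν : InvState XX k ν) (hopp : ∀ u v, ν (opp u v) = 0) {K : ℕ}
    {φ : C(Config × Config, ℝ)} (hφ : Cut K φ) {K0 : ℕ} {g : C(Config × Config, ℝ)}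
    (hg : Cyl XX K0 g) (j : ℕ) :
    |ν (φ * Linf XX k g)| ≤ ‖g‖ * flux k ν K j := by
  have hgφ : Cyl XX (max K K0) (g * φ) :=
    Cyl_mul (hg.mono (le_max_right _ _)) (hφ.cyl.mono (le_max_left _ _))
  have h0 : Tendsto (fun N => ν (LN XX k N (g * φ)) - ν (φ * LN XX k N g)) atTop
      (𝓝 (0 - ν (φ * Linf XX k g))) :=
    (hν.2.2.tendsto hν.1 hgφ).sub (hν.1.tendsto ((LN_tendsto XX k hg).const_mul φ))
  have h1 : Tendsto (fun N => |ν (LN XX k N (g * φ)) - ν (φ * LN XX k N g)|) atTop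
      (𝓝 |ν (φ * Linf XX k g)|) := by
    have := h0.abs
    rwa [zero_sub, abs_neg] at this
  refine le_of_tendsto h1 ?_
  filter_upwards [eventually_ge_atTop K] with N hN
  rw [← map_sub]
  set B : C(Config × Config, ℝ) := ‖g‖ • (∑ q ∈ box K ×ˢ box K,
      k.p (q.2 - q.1) • ((2 : ℝ) • opp q.1 q.2) + ∑ u ∈ box K, ∑ v ∈ box N \ box K,
      (k.p (v - u) + k.p (u - v)) • (site sd u + site sd v)) with hB
  have h2 : ∀ z, |(LN XX k N (g * φ) - φ * LN XX k N g) z| ≤ B z := by
    intro z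
    obtain ⟨F, hF⟩ : ∃ F : ℤ → ℤ → ℝ, ∀ u v,
      F u v = k.p (v - u) * (g (XX.T u v z) * (φ (XX.T u v z) - φ z)) := ⟨_, fun u v => rfl⟩
    have e1 : (LN XX k N (g * φ) - φ * LN XX k N g) z = ∑ q ∈ box N ×ˢ box N, F q.1 q.2 := by
      simp only [ContinuousMap.sub_apply, ContinuousMap.mul_apply]
      rw [LN_apply, LN_apply, Finset.mul_sum, ← Finset.sum_sub_distrib]
      refine Finset.sum_congr rfl fun q _ => ?_
      simp only [ContinuousMap.mul_apply]
      rw [hF]
      ring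
    rw [e1, sum_box_split F hN]
    have h2 : ∑ u ∈ box N \ box K, ∑ v ∈ box N \ box K, F u v = 0 := by
      refine Finset.sum_eq_zero fun u hu => Finset.sum_eq_zero fun v hv => ?_
      have := hφ.cyl _ _ (XX.loc z (Finset.mem_sdiff.mp hu).2 (Finset.mem_sdiff.mp hv).2)
      rw [hF, this, sub_self, mul_zero, mul_zero]
    rw [h2, add_zero, hB]
    simp only [ContinuousMap.add_apply, ContinuousMap.coe_sum,
      Finset.sum_apply, ContinuousMap.smul_apply, smul_eq_mul]
    rw [mul_add]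
    refine (abs_add_le _ _).trans (add_le_add ?_ ?_)
    · refine (Finset.abs_sum_le_sum_abs _ _).trans ?_
      rw [Finset.mul_sum]
      refine Finset.sum_le_sum fun q hq => ?_
      rw [Finset.mem_product] at hq
      have h3 := hφ.inn q.1 hq.1 q.2 hq.2 z
      have h4 := g.norm_coe_le_norm (XX.T q.1 q.2 z)
      rw [Real.norm_eq_abs] at h4
      rw [hF, abs_mul, abs_mul, abs_of_nonneg (k.nonneg _)]
      have h5 := mul_le_mul h4 h3 (abs_nonneg _) (norm_nonneg g)
      have h6 := mul_le_mul_of_nonneg_left h5 (k.nonneg (q.2 - q.1))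
      linarith
    · refine (Finset.abs_sum_le_sum_abs _ _).trans ?_
      rw [Finset.mul_sum]
      refine Finset.sum_le_sum fun u hu => ?_
      refine (Finset.abs_sum_le_sum_abs _ _).trans ?_
      rw [Finset.mul_sum]
      refine Finset.sum_le_sum fun v hv => ?_
      obtain ⟨h3, h3'⟩ := hφ.cross u hu v (Finset.mem_sdiff.mp hv).2 z
      have h4 := g.norm_coe_le_norm (XX.T u v z)
      have h4' := g.norm_coe_le_norm (XX.T v u z)
      rw [Real.norm_eq_abs] at h4 h4'
      have h5 := mul_le_mul h4 h3 (abs_nonneg _) (norm_nonneg g)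
      have h5' := mul_le_mul h4' h3' (abs_nonneg _) (norm_nonneg g)
      have h6 := mul_le_mul_of_nonneg_left h5 (k.nonneg (v - u))
      have h6' := mul_le_mul_of_nonneg_left h5' (k.nonneg (u - v))
      refine (abs_add_le _ _).trans ?_
      rw [hF, hF, abs_mul, abs_mul, abs_of_nonneg (k.nonneg _), abs_mul, abs_mul,
        abs_of_nonneg (k.nonneg _)]
      linarith
  have h3 : |ν (LN XX k N (g * φ) - φ * LN XX k N g)| ≤ ν B := by
    rw [abs_le]
    constructor
    · rw [← map_neg]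
      refine hν.1.mono fun z => ?_
      rw [ContinuousMap.neg_apply]
      linarith [(abs_le.mp (h2 z)).1]
    · exact hν.1.mono fun z => (abs_le.mp (h2 z)).2
  refine h3.trans ?_
  rw [hB, map_smul, smul_eq_mul, map_add]
  refine mul_le_mul_of_nonneg_left ?_ (norm_nonneg g)
  have h4 : ν (∑ q ∈ box K ×ˢ box K, k.p (q.2 - q.1) • ((2 : ℝ) • opp q.1 q.2)) = 0 := by
    rw [map_sum]
    refine Finset.sum_eq_zero fun q _ => ?_
    rw [map_smul, map_smul, hopp, smul_zero, smul_zero]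
  have h5 : ν (∑ u ∈ box K, ∑ v ∈ box N \ box K,
      (k.p (v - u) + k.p (u - v)) • (site sd u + site sd v))
      = ∑ u ∈ box K, ∑ v ∈ box N \ box K, (k.p (v - u) + k.p (u - v))
      * (ν (site sd u) + ν (site sd v)) := by
    rw [map_sum]
    refine Finset.sum_congr rfl fun u _ => ?_
    rw [map_sum]
    refine Finset.sum_congr rfl fun v _ => ?_
    rw [map_smul, map_add, smul_eq_mul]
  rw [h4, h5, zero_add]
  exact cross_flux hν K j (box N)

/-- Limits of cut functionals are stationary. -/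
lemma cut_limit (hν : InvState XX k ν) (hopp : ∀ u v, ν (opp u v) = 0) {Ks : ℕ → ℕ}
    (hf : Tendsto (fun j => flux k ν (Ks j) j) atTop (𝓝 0)) {φ : ℕ → C(Config × Config, ℝ)}
    (hφ : ∀ K, Cut K (φ K)) (h0 : ∀ K z, 0 ≤ φ K z) (h1 : ∀ K z, φ K z ≤ 1) :
    ∃ M : C(Config × Config, ℝ) →ₗ[ℝ] ℝ, IsPos M ∧ Stat XX k M ∧ IsPos (ν - M) ∧
      ∀ g, Tendsto (fun j => ν (φ (Ks j) * g)) (hyperfilter ℕ : Filter ℕ) (𝓝 (M g)) := by
  set a : ℕ → (C(Config × Config, ℝ) →ₗ[ℝ] ℝ) :=
    fun j => ν ∘ₗ LinearMap.mulLeft ℝ (φ (Ks j)) with ha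
  have hapos : ∀ j, IsPos (a j) := fun j g hg => hν.1 _ fun z => mul_nonneg (h0 _ _) (hg z)
  have ha1 : ∀ j, a j 1 ≤ 1 := fun j => by
    rw [← hν.2.1]
    refine hν.1.mono fun z => ?_
    simp only [LinearMap.mulLeft_apply, mul_one, ContinuousMap.one_apply]
    exact h1 _ _
  obtain ⟨M, hM, hlim⟩ := exists_ulim (hyperfilter ℕ) a hapos ha1
  refine ⟨M, hM, fun K g hg => ?_, fun g hg => ?_, fun g => hlim g⟩
  · refine tendsto_nhds_unique (hlim (Linf XX k g)) ?_
    have h2 := (hf.const_mul ‖g‖).mono_left (Nat.hyperfilter_le_atTop)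
    rw [mul_zero] at h2
    refine squeeze_zero_norm (fun j => ?_) h2
    rw [Real.norm_eq_abs]
    exact cut_le hν hopp (hφ (Ks j)) hg j
  · rw [LinearMap.sub_apply, sub_nonneg]
    refine le_of_tendsto' (hlim g) fun j => ?_
    refine hν.1.mono fun z => ?_
    simp only [LinearMap.mulLeft_apply, ContinuousMap.mul_apply]
    have := mul_le_mul_of_nonneg_right (h1 (Ks j) z) (hg z)
    rwa [one_mul] at this

end Pool.Agent.Helper28Excl
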