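import Pool.Agent.Helper28_Excl.NoState

/-! Power law kernels satisfy the reachability condition. -/

namespace Pool.Agent.Helper28Excl

open Filter Topology

set_option linter.unusedSectionVars false
set_option linter.unusedVariables false

lemma reach_power_aux {p : ℤ → ℝ} {c β : ℝ} (hc : 0 < c) (hβ2 : 2 < β)
    (hβ : (β - 1) * (β - 2) < 1)
    (h : ∀ n : ℕ, 1 ≤ n → c * (n : ℝ) ^ (-β) ≤ p (-(n : ℤ))) : Reach p := by
  intro R B
  set s : ℝ := ((β - 1) + 1 / (β - 2)) / 2 with hs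
  have hβ20 : 0 < β - 2 := by linarith
  have hlt : β - 1 < 1 / (β - 2) := by rw [lt_div_iff₀ hβ20]; exact hβ
  have hs1 : β - 1 < s := by rw [hs]; linarith
  have hs2 : s < 1 / (β - 2) := by rw [hs]; linarith
  have hs3 : s * (β - 2) < 1 := by rwa [lt_div_iff₀ hβ20] at hs2
  have hsge : 1 < s := by linarith
  have he1 : 0 < 1 - β + s := by linarith
  have he2 : 0 < 1 - s * (β - 2) := by linarith
  have t1 : Tendsto (fun a : ℕ => (c * (3 : ℝ) ^ (-β)) * (a : ℝ) ^ (1 - β + s)) atTop atTop :=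
    ((tendsto_rpow_atTop he1).comp tendsto_natCast_atTop_atTop).const_mul_atTop (by positivity)
  have t2 : Tendsto (fun a : ℕ => (c * (4 : ℝ) ^ (-β) * (2 : ℝ) ^ (2 - β))
      * (a : ℝ) ^ (1 - s * (β - 2))) atTop atTop :=
    ((tendsto_rpow_atTop he2).comp tendsto_natCast_atTop_atTop).const_mul_atTop (by positivity)
  have t3 : Tendsto (fun a : ℕ => (a : ℝ)) atTop atTop := tendsto_natCast_atTop_atTop
  obtain ⟨a, ha1, ha2, ha3, haR⟩ := ((t1.eventually_ge_atTop B).and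
    ((t2.eventually_ge_atTop B).and ((t3.eventually_ge_atTop B).and
      (eventually_ge_atTop (R + 1))))).exists
  have ha1' : (1 : ℝ) ≤ a := by
    have : 1 ≤ a := by omega
    exact_mod_cast this
  have ha0 : (0 : ℝ) < a := by linarith
  set b : ℕ := ⌈(a : ℝ) ^ s⌉₊ with hb
  have hbge : (a : ℝ) ^ s ≤ b := Nat.le_ceil _
  have hapow1 : (1 : ℝ) ≤ (a : ℝ) ^ s := Real.one_le_rpow ha1' (by linarith)
  have hble : (b : ℝ) ≤ 2 * (a : ℝ) ^ s := by
    have := Nat.ceil_lt_add_one (by positivity : 0 ≤ (a : ℝ) ^ s)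
    rw [← hb] at this
    linarith
  have hab : (a : ℝ) ≤ b := by
    refine le_trans ?_ hbge
    calc (a : ℝ) = (a : ℝ) ^ (1 : ℝ) := (Real.rpow_one _).symm
      _ ≤ (a : ℝ) ^ s := Real.rpow_le_rpow_of_exponent_le ha1' hsge.le
  have habn : a ≤ b := by exact_mod_cast hab
  have hb0 : (0 : ℝ) < b := by linarith
  have hmono : ∀ (n : ℕ) (M : ℝ), 1 ≤ n → (n : ℝ) ≤ M → c * M ^ (-β) ≤ p (-(n : ℤ)) := by
    intro n M hn hnM
    refine le_trans ?_ (h n hn)
    refine mul_le_mul_of_nonneg_left ?_ hc.le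
    exact Real.rpow_le_rpow_of_nonpos (by exact_mod_cast hn) hnM (by linarith)
  refine ⟨Finset.Ico (-(2 * a : ℤ)) (-(a : ℤ)), Finset.Ioc (b : ℤ) (2 * b), b,
    c * (3 * (a : ℝ)) ^ (-β), b * (c * (4 * (b : ℝ)) ^ (-β)), ?_, by linarith, ?_, ?_, by positivity,
    by positivity, ?_, ?_, ?_, ?_⟩
  · rw [Finset.nonempty_Ico]
    omega
  · intro y hy
    rw [Finset.mem_Ico] at hy
    have h1 : (y : ℝ) < -(a : ℝ) := by exact_mod_cast hy.2
    linarith
  · intro x' hx'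
    rw [Finset.mem_Ioc] at hx'
    have h1 : (b : ℝ) < (x' : ℝ) := by exact_mod_cast hx'.1
    exact h1.le
  · intro y hy x hx
    rw [Finset.mem_Ico] at hy
    rw [abs_le] at hx
    have h1 := hmono (x - y).toNat (3 * a) (by omega) (by
      have h2 : (x - y).toNat ≤ 3 * a := by omega
      exact_mod_cast h2)
    have h2 : -(((x - y).toNat : ℕ) : ℤ) = y - x := by omega
    rwa [h2] at h1
  · intro y hy
    rw [Finset.mem_Ico] at hy
    have h1 : ∀ x' ∈ Finset.Ioc (b : ℤ) (2 * b), c * (4 * (b : ℝ)) ^ (-β) ≤ p (y - x') := by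
      intro x' hx'
      rw [Finset.mem_Ioc] at hx'
      have h1 := hmono (x' - y).toNat (4 * b) (by omega) (by
        have h2 : (x' - y).toNat ≤ 4 * b := by omega
        exact_mod_cast h2)
      have h2 : -(((x' - y).toNat : ℕ) : ℤ) = y - x' := by omega
      rwa [h2] at h1
    have h2 := Finset.sum_le_sum h1
    rw [Finset.sum_const, nsmul_eq_mul, Int.card_Ioc] at h2
    have h3 : (2 * (b : ℤ) - b).toNat = b := by omega
    rw [h3] at h2
    exact h2
  · rw [Int.card_Ico]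
    have h3 : (-(a : ℤ) - -(2 * a : ℤ)).toNat = a := by omega
    rw [h3]
    refine ha1.trans ?_
    have h4 : (a : ℝ) ^ (1 - β + s) = (a : ℝ) * (a : ℝ) ^ (-β) * (a : ℝ) ^ s := by
      have : (1 - β + s) = 1 + (-β) + s := by ring
      rw [this, Real.rpow_add ha0, Real.rpow_add ha0, Real.rpow_one]
    rw [h4, Real.mul_rpow (by norm_num) ha0.le]
    have h5 : 0 ≤ c * (3 : ℝ) ^ (-β) * ((a : ℝ) * (a : ℝ) ^ (-β)) := by positivity
    have h6 := mul_le_mul_of_nonneg_left hbge h5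
    calc c * (3 : ℝ) ^ (-β) * ((a : ℝ) * (a : ℝ) ^ (-β) * (a : ℝ) ^ s)
        = c * (3 : ℝ) ^ (-β) * ((a : ℝ) * (a : ℝ) ^ (-β)) * (a : ℝ) ^ s := by ring
      _ ≤ c * (3 : ℝ) ^ (-β) * ((a : ℝ) * (a : ℝ) ^ (-β)) * b := h6
      _ = (a : ℝ) * b * (c * ((3 : ℝ) ^ (-β) * (a : ℝ) ^ (-β))) := by ring
  · rw [Int.card_Ico]
    have h3 : (-(a : ℤ) - -(2 * a : ℤ)).toNat = a := by omega
    rw [h3]
    refine ha2.trans ?_
    have h4 : (2 : ℝ) ^ (2 - β) * (a : ℝ) ^ (1 - s * (β - 2))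
        = (a : ℝ) * (2 * (a : ℝ) ^ s) ^ (2 - β) := by
      rw [Real.mul_rpow (by norm_num) (by positivity), ← Real.rpow_mul ha0.le]
      have : 1 - s * (β - 2) = 1 + s * (2 - β) := by ring
      rw [this, Real.rpow_add ha0, Real.rpow_one]
      ring
    have h5 : (2 * (a : ℝ) ^ s) ^ (2 - β) ≤ (b : ℝ) ^ (2 - β) :=
      Real.rpow_le_rpow_of_nonpos hb0 hble (by linarith)
    have h6 : (b : ℝ) ^ (2 - β) = b * b * (b : ℝ) ^ (-β) := by
      have : (2 - β) = 1 + 1 + -β := by ring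
      rw [this, Real.rpow_add hb0, Real.rpow_add hb0, Real.rpow_one]
    rw [Real.mul_rpow (by norm_num) hb0.le]
    calc c * (4 : ℝ) ^ (-β) * (2 : ℝ) ^ (2 - β) * (a : ℝ) ^ (1 - s * (β - 2))
        = c * (4 : ℝ) ^ (-β) * (a * (2 * (a : ℝ) ^ s) ^ (2 - β)) := by rw [← h4]; ring
      _ ≤ c * (4 : ℝ) ^ (-β) * (a * (b : ℝ) ^ (2 - β)) := by gcongr
      _ = (a : ℝ) * b * (b * (c * ((4 : ℝ) ^ (-β) * (b : ℝ) ^ (-β)))) := by rw [h6]; ring

/-- Kernels whose left tail dominates a power law with exponent less than the square of the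
golden ratio. -/
theorem reach_power {p : ℤ → ℝ} {c β : ℝ} (hc : 0 < c) (hβ : β < (3 + Real.sqrt 5) / 2)
    (h : ∀ n : ℕ, 1 ≤ n → c * (n : ℝ) ^ (-β) ≤ p (-(n : ℤ))) : Reach p := by
  have h5 : Real.sqrt 5 * Real.sqrt 5 = 5 := Real.mul_self_sqrt (by norm_num)
  have h50 : 0 ≤ Real.sqrt 5 := Real.sqrt_nonneg 5
  have h52 : 2 < Real.sqrt 5 := by nlinarith
  refine reach_power_aux (c := c) (β := max β (5 / 2)) hc ?_ ?_ fun n hn => ?_
  · exact lt_of_lt_of_le (by norm_num) (le_max_right _ _)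
  · have h1 : max β (5 / 2) < (3 + Real.sqrt 5) / 2 := max_lt hβ (by linarith)
    have h2 : (5 / 2 : ℝ) ≤ max β (5 / 2) := le_max_right _ _
    nlinarith
  · refine le_trans ?_ (h n hn)
    refine mul_le_mul_of_nonneg_left ?_ hc.le
    refine Real.rpow_le_rpow_of_exponent_le (by exact_mod_cast hn) ?_
    have := le_max_left β (5 / 2)
    linarith

end Pool.Agent.Helper28Excl
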