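import Pool.Agent.Helper28_Excl.Exp
import Pool.Agent.Helper28_Excl.Bridge

/-! Construction and uniqueness of the exclusion semigroup. -/

namespace Pool.Agent.Helper28Excl

open Filter Topology

set_option linter.unusedSectionVars false
set_option linter.unusedVariables false
set_option maxHeartbeats 1000000

variable (k : Kern)

/-- Uniform finite volume error. -/
lemma cross_unif {K : ℕ} {A B : ℝ} (hA : 0 ≤ A) (hB : 0 ≤ B) {ε : ℝ} (hε : 0 < ε) :
    ∃ N0, ∀ N ≥ N0, ∀ h : C(Config, ℝ), Cyl X N h →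
      (∀ L : ℝ, 0 < L → Disc (fun x => A * tent K L x + B / L) h) →
      (∀ M ≥ N, ‖LN X k M h - LN X k N h‖ ≤ ε) ∧ ‖Linf X k h - LN X k N h‖ ≤ ε := by
  have hm := mom_nonneg k
  set c := B * (2 * mom k) with hc
  have hc0 : 0 ≤ c := by positivity
  obtain ⟨L, hL⟩ := exists_nat_gt (2 * c / ε)
  have hLpos : (0 : ℝ) < L := lt_of_le_of_lt (by positivity) hL
  set s := B / L with hs
  have hs0 : 0 ≤ s := by positivity
  have hsm : 2 * s * mom k < ε / 2 := by
    have h1 : 2 * s * mom k = c / L := by rw [hs, hc]; ring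
    rw [h1, div_lt_iff₀ hLpos]
    rw [div_lt_iff₀ hε] at hL
    linarith
  set a := A + s with ha
  have ha0 : 0 ≤ a := by positivity
  have h2 : Tendsto (fun N : ℕ => 2 * a * tmom k (N - (K + L))) atTop (𝓝 0) := by
    have h3 : Tendsto (fun N : ℕ => tmom k (N - (K + L))) atTop (𝓝 0) :=
      (tmom_tendsto k).comp (tendsto_sub_atTop_nat _)
    have := h3.const_mul (2 * a)
    rwa [mul_zero] at this
  obtain ⟨N1, hN1⟩ := (Metric.tendsto_atTop.mp h2) (ε / 2) (by positivity)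
  refine ⟨max N1 (K + L), fun N hN h hcyl hd => ?_⟩
  have hN4 : N1 ≤ N := (le_max_left _ _).trans hN
  have hN2 : K + L ≤ N := (le_max_right _ _).trans hN
  have h3 := hN1 N hN4
  rw [Real.dist_eq, sub_zero] at h3
  have hψ0 : ∀ x, 0 ≤ A * tent K L x := fun x => mul_nonneg hA (tent_nonneg _ _ _)
  have h5 := le_abs_self (2 * a * tmom k (N - (K + L)))
  have hψ1 : ∀ x, 0 ≤ A * tent K (L : ℝ) x + B / (L : ℝ) := fun x => by
    have := hψ0 x
    linarith
  have hψ2 : ∀ u ∈ box (K + L), A * tent K (L : ℝ) u + B / (L : ℝ) ≤ a := fun u _ => by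
    have := mul_le_mul_of_nonneg_left (tent_le_one K L u) hA
    rw [ha]
    linarith
  have hψ3 : ∀ u ∉ box (K + L), A * tent K (L : ℝ) u + B / (L : ℝ) ≤ s := fun u hu => by
    rw [tent_eq_zero K hLpos]
    · rw [mul_zero, zero_add]
    · rw [mem_box, not_le] at hu
      push_cast at hu
      have : (K : ℝ) + L < |(u : ℝ)| := by exact_mod_cast hu
      exact this.le
  constructor
  · intro M hM
    refine (norm_LN_sub_le k hM hcyl hψ1 (hd L hLpos)).trans ?_
    refine (weighted_cross_le k hN2 hψ1 hψ2 hψ3 ha0 hs0 _).trans ?_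
    linarith
  · refine (norm_Linf_sub_le k hN2 hcyl hψ1 (hd L hLpos) hψ2 hψ3 ha0 hs0).trans ?_
    linarith

/-- Discrepancy bound of the finite volume semigroup applied to a cylinder function. -/
lemma Disc_EN_Cyl {K : ℕ} {f : C(Config, ℝ)} (hf : Cyl X K f) {s t : ℝ} (hs : 0 ≤ s)
    (hst : s ≤ t) {L : ℝ} (hL : 0 < L) (N : ℕ) :
    Disc (fun x => 2 * ‖f‖ * tent K L x + 4 * mom k * ‖f‖ * t / L) (EN X k N s f) := by
  have hf0 := norm_nonneg f
  have hm := mom_nonneg k
  have hlip : ∀ x y : ℤ, |2 * ‖f‖ * tent K L x - 2 * ‖f‖ * tent K L y|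
      ≤ (2 * ‖f‖ / L) * |((x - y : ℤ) : ℝ)| := by
    intro x y
    rw [← mul_sub, abs_mul, abs_of_nonneg (by positivity)]
    have := mul_le_mul_of_nonneg_left (tent_lip K hL x y) (by positivity : 0 ≤ 2 * ‖f‖)
    calc _ ≤ _ := this
      _ = _ := by ring
  have hψ0 : ∀ x, 0 ≤ 2 * ‖f‖ * tent K L x := fun x =>
    mul_nonneg (by positivity) (tent_nonneg _ _ _)
  have hD := Disc_EN k (by positivity : 0 ≤ 2 * ‖f‖ / L) hψ0 hlip (Disc_of_Cyl hf hL) N hs
  intro x η
  refine (hD x η).trans ?_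
  have h1 : 2 * mom k * (2 * ‖f‖ / L) * s ≤ 4 * mom k * ‖f‖ * t / L := by
    have h2 : 2 * mom k * (2 * ‖f‖ / L) * s = (4 * mom k * ‖f‖ / L) * s := by ring
    have h3 : 4 * mom k * ‖f‖ * t / L = (4 * mom k * ‖f‖ / L) * t := by ring
    rw [h2, h3]
    exact mul_le_mul_of_nonneg_left hst (by positivity)
  linarith

/-- Comparison of finite volume semigroups. -/
lemma EN_cauchy {K : ℕ} {f : C(Config, ℝ)} (hf : Cyl X K f) {t : ℝ} (ht : 0 ≤ t) {ε : ℝ}
    (hε : 0 < ε) : ∃ N0, ∀ N ≥ N0, ∀ M ≥ N, ‖EN X k N t f - EN X k M t f‖ ≤ ε := by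
  have hm := mom_nonneg k
  have hf0 := norm_nonneg f
  obtain ⟨N0, hN0⟩ := cross_unif k (K := K) (A := 2 * ‖f‖) (B := 4 * mom k * ‖f‖ * t)
    (by positivity) (by positivity) (by positivity : 0 < ε / (t + 1))
  refine ⟨max N0 K, fun N hN M hM => ?_⟩
  have hN1 : N0 ≤ N := (le_max_left _ _).trans hN
  have hNK : K ≤ N := (le_max_right _ _).trans hN
  set F : ℝ → C(Config, ℝ) := fun s => EN X k M (t - s) (EN X k N s f) with hF
  have hder : ∀ s, HasDerivAt F
      (EN X k M (t - s) (LN X k N (EN X k N s f) - LN X k M (EN X k N s f))) s := by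
    intro s
    have h1 := Eg_diff (Acl X k N) (crate k N) (Acl X k M) (crate k M) t f s
    rw [LN_eq, LN_eq]
    exact h1
  have hbound : ∀ s ∈ Set.Ico 0 t,
      ‖EN X k M (t - s) (LN X k N (EN X k N s f) - LN X k M (EN X k N s f))‖ ≤ ε / (t + 1) := by
    intro s hs
    refine (EN_norm_le X k M (by linarith [hs.2]) _).trans ?_
    rw [norm_sub_rev]
    exact (hN0 N hN1 _ (Cyl_EN X k N s (hf.mono hNK)) (fun L hL =>
      Disc_EN_Cyl k hf hs.1 hs.2.le hL N)).1 M hM
  have h3 := norm_image_sub_le_of_norm_deriv_le_segment' (f := F) (a := 0) (b := t)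
    (fun s _ => (hder s).hasDerivWithinAt) hbound t ⟨ht, le_rfl⟩
  have h4 : F t = EN X k N t f := by
    simp only [hF, sub_self, EN_zero]
  have h5 : F 0 = EN X k M t f := by
    simp only [hF, sub_zero, EN_zero]
  rw [h4, h5, sub_zero] at h3
  refine h3.trans ?_
  rw [div_mul_eq_mul_div, div_le_iff₀ (by linarith)]
  nlinarith

end Pool.Agent.Helper28Excl
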