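import Pool.Agent.Helper28_Excl.Semi

/-! The infinite volume semigroup: existence and uniqueness. -/

namespace Pool.Agent.Helper28Excl

open Filter Topology

set_option linter.unusedSectionVars false
set_option linter.unusedVariables false
set_option maxHeartbeats 1000000

variable (k : Kern)

lemma dense_cyl (f : C(Config, ℝ)) {ε : ℝ} (hε : 0 < ε) : ∃ K g, Cyl X K g ∧ ‖f - g‖ < ε := by
  have h1 : f ∈ closure (cylAlg : Set C(Config, ℝ)) := by
    rw [← Subalgebra.topologicalClosure_coe, cylAlg_dense]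
    trivial
  obtain ⟨g, ⟨K, hK⟩, hg⟩ := Metric.mem_closure_iff.mp h1 ε hε
  exact ⟨K, g, hK, by rwa [dist_eq_norm] at hg⟩

lemma EN_conv (f : C(Config, ℝ)) {t : ℝ} (ht : 0 ≤ t) :
    ∃ g, Tendsto (fun N => EN X k N t f) atTop (𝓝 g) := by
  refine cauchySeq_tendsto_of_complete ?_
  rw [Metric.cauchySeq_iff']
  intro ε hε
  obtain ⟨K, g, hK, hg⟩ := dense_cyl f (by positivity : 0 < ε / 4)
  obtain ⟨N0, hN0⟩ := EN_cauchy k hK ht (by positivity : 0 < ε / 4)
  refine ⟨N0, fun N hN => ?_⟩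
  rw [dist_eq_norm, norm_sub_rev]
  have h1 := hN0 N0 le_rfl N hN
  have h2 : ‖EN X k N0 t f - EN X k N0 t g‖ ≤ ‖f - g‖ := by
    rw [← map_sub]; exact EN_norm_le X k N0 ht _
  have h3 : ‖EN X k N t f - EN X k N t g‖ ≤ ‖f - g‖ := by
    rw [← map_sub]; exact EN_norm_le X k N ht _
  have h4 : EN X k N0 t f - EN X k N t f = (EN X k N0 t f - EN X k N0 t g)
      + (EN X k N0 t g - EN X k N t g) - (EN X k N t f - EN X k N t g) := by abel
  rw [h4]
  have h5 := norm_sub_le ((EN X k N0 t f - EN X k N0 t g) + (EN X k N0 t g - EN X k N t g))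
    (EN X k N t f - EN X k N t g)
  have h6 := norm_add_le (EN X k N0 t f - EN X k N0 t g) (EN X k N0 t g - EN X k N t g)
  linarith

/-- The value of the semigroup. -/
noncomputable def Sval (t : ℝ) (f : C(Config, ℝ)) : C(Config, ℝ) :=
  (EN_conv k f (le_max_right t 0)).choose

lemma Sval_spec (t : ℝ) (f : C(Config, ℝ)) :
    Tendsto (fun N => EN X k N (max t 0) f) atTop (𝓝 (Sval k t f)) :=
  (EN_conv k f (le_max_right t 0)).choose_spec

/-- The exclusion semigroup. -/
noncomputable def Sinf (t : ℝ) : C(Config, ℝ) →ₗ[ℝ] C(Config, ℝ) where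
  toFun f := Sval k t f
  map_add' f g := by
    refine tendsto_nhds_unique (Sval_spec k t (f + g)) ?_
    refine ((Sval_spec k t f).add (Sval_spec k t g)).congr fun N => ?_
    rw [map_add]
  map_smul' c f := by
    refine tendsto_nhds_unique (Sval_spec k t (c • f)) ?_
    refine ((Sval_spec k t f).const_smul c).congr fun N => ?_
    rw [map_smul]

lemma Sinf_spec {t : ℝ} (ht : 0 ≤ t) (f : C(Config, ℝ)) :
    Tendsto (fun N => EN X k N t f) atTop (𝓝 (Sinf k t f)) := by
  have := Sval_spec k t f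
  rwa [max_eq_left ht] at this

lemma Sinf_norm_le {t : ℝ} (ht : 0 ≤ t) (f : C(Config, ℝ)) : ‖Sinf k t f‖ ≤ ‖f‖ :=
  le_of_tendsto' (Sinf_spec k ht f).norm fun N => EN_norm_le X k N ht f

lemma LN_norm_le {K : ℕ} {f : C(Config, ℝ)} (hf : Cyl X K f) (N : ℕ) :
    ‖LN X k N f‖ ≤ 2 * ‖f‖ * ∑' q, Wt k K q := by
  rw [LN_eq_sum]
  refine (norm_sum_le _ _).trans ?_
  refine (Finset.sum_le_sum fun q _ => norm_Lterm_le X k hf q).trans ?_
  rw [← Finset.mul_sum]
  refine mul_le_mul_of_nonneg_left ?_ (by positivity)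
  refine (summable_Wt k K).sum_le_tsum _ fun q _ => ?_
  unfold Wt
  have := k.nonneg (q.2 - q.1)
  split_ifs <;> linarith

lemma Wt_tsum_nonneg (K : ℕ) : 0 ≤ ∑' q, Wt k K q := by
  refine tsum_nonneg fun q => ?_
  unfold Wt
  have := k.nonneg (q.2 - q.1)
  split_ifs <;> linarith

lemma EN_short {K : ℕ} {f : C(Config, ℝ)} (hf : Cyl X K f) (N : ℕ) {s : ℝ} (hs : 0 ≤ s) :
    ‖EN X k N s f - f‖ ≤ 2 * ‖f‖ * (∑' q, Wt k K q) * s := by
  have h := norm_image_sub_le_of_norm_deriv_le_segment' (f := fun s => EN X k N s f)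
    (f' := fun s => EN X k N s (LN X k N f)) (a := 0) (b := s)
    (C := 2 * ‖f‖ * (∑' q, Wt k K q))
    (fun r _ => (EN_apply_deriv X k N f r).hasDerivWithinAt)
    (fun r hr => (EN_norm_le X k N hr.1 _).trans (LN_norm_le k hf N)) s ⟨hs, le_rfl⟩
  rwa [EN_zero, sub_zero] at h

lemma Sinf_short {K : ℕ} {f : C(Config, ℝ)} (hf : Cyl X K f) {s : ℝ} (hs : 0 ≤ s) :
    ‖Sinf k s f - f‖ ≤ 2 * ‖f‖ * (∑' q, Wt k K q) * s :=
  le_of_tendsto' ((Sinf_spec k hs f).sub_const f).norm fun N => EN_short k hf N hs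

lemma Sinf_zero (f : C(Config, ℝ)) : Sinf k 0 f = f := by
  refine tendsto_nhds_unique (Sinf_spec k le_rfl f) ?_
  refine tendsto_const_nhds.congr fun N => ?_
  rw [EN_zero]

lemma Sinf_add {s t : ℝ} (hs : 0 ≤ s) (ht : 0 ≤ t) (f : C(Config, ℝ)) :
    Sinf k (s + t) f = Sinf k s (Sinf k t f) := by
  refine tendsto_nhds_unique (Sinf_spec k (add_nonneg hs ht) f) ?_
  have h1 := Sinf_spec k hs (Sinf k t f)
  have h2 : Tendsto (fun N => EN X k N s (EN X k N t f - Sinf k t f)) atTop (𝓝 0) := by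
    have h3 : Tendsto (fun N => ‖EN X k N t f - Sinf k t f‖) atTop (𝓝 0) :=
      tendsto_iff_norm_sub_tendsto_zero.mp (Sinf_spec k ht f)
    exact squeeze_zero_norm (fun N => EN_norm_le X k N hs _) h3
  have h3 := h1.add h2
  rw [add_zero] at h3
  refine h3.congr fun N => ?_
  rw [← map_add, add_sub_cancel, EN_add]

lemma Sinf_nonneg {t : ℝ} (ht : 0 ≤ t) {f : C(Config, ℝ)} (hf : ∀ z, 0 ≤ f z) :
    ∀ z, 0 ≤ Sinf k t f z := fun z =>
  ge_of_tendsto' (((continuous_ev z).tendsto _).comp (Sinf_spec k ht f)) fun N =>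
    EN_nonneg X k N ht hf z

lemma Sinf_one {t : ℝ} (ht : 0 ≤ t) : Sinf k t 1 = 1 := by
  refine tendsto_nhds_unique (Sinf_spec k ht 1) ?_
  refine tendsto_const_nhds.congr fun N => ?_
  rw [EN_one]

lemma Sinf_cont (f : C(Config, ℝ)) : Tendsto (fun t => Sinf k t f) (𝓝[>] 0) (𝓝 f) := by
  rw [Metric.tendsto_nhdsWithin_nhds]
  intro ε hε
  obtain ⟨K, g, hK, hg⟩ := dense_cyl f (by positivity : 0 < ε / 4)
  have hW := Wt_tsum_nonneg k K
  have hg0 := norm_nonneg g
  set C := 2 * ‖g‖ * (∑' q, Wt k K q) with hC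
  have hC0 : 0 ≤ C := by positivity
  refine ⟨ε / (4 * (C + 1)), by positivity, fun {t} ht htd => ?_⟩
  have ht0 : 0 < t := ht
  rw [Real.dist_eq, sub_zero, abs_of_pos ht0] at htd
  rw [dist_eq_norm]
  have h1 := Sinf_short k hK ht0.le
  have h2 : ‖Sinf k t (f - g)‖ ≤ ‖f - g‖ := Sinf_norm_le k ht0.le _
  have h3 : Sinf k t f - f = Sinf k t (f - g) + (Sinf k t g - g) - (f - g) := by
    rw [map_sub]; abel
  rw [h3]
  have h4 := norm_sub_le (Sinf k t (f - g) + (Sinf k t g - g)) (f - g)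
  have h5 := norm_add_le (Sinf k t (f - g)) (Sinf k t g - g)
  have h6 : C * t ≤ ε / 4 := by
    rw [lt_div_iff₀ (by positivity)] at htd
    nlinarith
  linarith

lemma Sinf_gen {K : ℕ} {f : C(Config, ℝ)} (hf : Cyl X K f) {ε : ℝ} (hε : 0 < ε) :
    ∃ δ : ℝ, 0 < δ ∧ ∀ t, 0 < t → t < δ → ‖Sinf k t f - f - t • Linf X k f‖ ≤ ε * t := by
  set g := Linf X k f with hg
  obtain ⟨K', g', hK', hg'⟩ := dense_cyl g (by positivity : 0 < ε / 8)
  have hW := Wt_tsum_nonneg k K'
  have hg0 := norm_nonneg g'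
  set C := 2 * ‖g'‖ * (∑' q, Wt k K' q) with hC
  have hC0 : 0 ≤ C := by positivity
  refine ⟨ε / (4 * (C + 1)), by positivity, fun t ht htd => ?_⟩
  have h1 : ∀ N, ‖EN X k N t f - f - t • g‖ ≤ (‖LN X k N f - g‖ + ε / 2) * t := by
    intro N
    have hder : ∀ s, HasDerivAt (fun s => EN X k N s f - s • g)
        (EN X k N s (LN X k N f) - g) s := by
      intro s
      have h2 := (EN_apply_deriv X k N f s).sub ((hasDerivAt_id s).smul_const g)
      rw [one_smul] at h2
      exact h2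
    have hb : ∀ s ∈ Set.Ico 0 t, ‖EN X k N s (LN X k N f) - g‖ ≤ ‖LN X k N f - g‖ + ε / 2 := by
      intro s hs
      have e1 : EN X k N s (LN X k N f) - g = EN X k N s (LN X k N f - g)
          + (EN X k N s (g - g') + (EN X k N s g' - g') - (g - g')) := by
        rw [map_sub, map_sub]; abel
      rw [e1]
      have e2 := norm_add_le (EN X k N s (LN X k N f - g))
        (EN X k N s (g - g') + (EN X k N s g' - g') - (g - g'))
      have e3 := norm_sub_le (EN X k N s (g - g') + (EN X k N s g' - g')) (g - g')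
      have e4 := norm_add_le (EN X k N s (g - g')) (EN X k N s g' - g')
      have e5 := EN_norm_le X k N hs.1 (LN X k N f - g)
      have e6 := EN_norm_le X k N hs.1 (g - g')
      have e7 := EN_short k hK' N hs.1
      have e8 : C * s ≤ ε / 4 := by
        have : s < ε / (4 * (C + 1)) := hs.2.trans htd
        rw [lt_div_iff₀ (by positivity)] at this
        nlinarith [hs.1]
      linarith
    have h3 := norm_image_sub_le_of_norm_deriv_le_segment' (f := fun s => EN X k N s f - s • g)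
      (a := 0) (b := t) (fun s _ => (hder s).hasDerivWithinAt) hb t ⟨ht.le, le_rfl⟩
    rw [EN_zero, zero_smul, sub_zero, sub_zero] at h3
    have e : EN X k N t f - f - t • g = EN X k N t f - t • g - f := by abel
    rw [e]
    exact h3
  have h2 := ((Sinf_spec k ht.le f).sub_const f).sub_const (t • g)
  have h3 : Tendsto (fun N => (‖LN X k N f - g‖ + ε / 2) * t) atTop (𝓝 ((0 + ε / 2) * t)) :=
    ((tendsto_iff_norm_sub_tendsto_zero.mp (LN_tendsto X k hf)).add_const _).mul_const _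
  have h4 := le_of_tendsto_of_tendsto' h2.norm h3 h1
  refine h4.trans ?_
  rw [zero_add]
  nlinarith

variable {p : ℤ → ℝ} (hp : IsKernel p) (hm : FiniteMean p)

/-- Existence of the exclusion semigroup. -/
theorem isExclusionSemigroup_Sinf : IsExclusionSemigroup p (Sinf (mkKern hp hm)) where
  zero := Sinf_zero _
  add s t hs ht f := Sinf_add _ hs ht f
  nonneg t ht f hf := Sinf_nonneg _ ht hf
  one t ht := Sinf_one _ ht
  cont f := Sinf_cont _ f
  generator f hf := by
    obtain ⟨K, hK⟩ := exists_Cyl hf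
    rw [Metric.tendstoUniformly_iff]
    intro ε hε
    obtain ⟨δ, hδ, h⟩ := Sinf_gen (mkKern hp hm) hK (by positivity : 0 < ε / 2)
    have h1 : Set.Ioo (0 : ℝ) δ ∈ 𝓝[>] (0 : ℝ) := Ioo_mem_nhdsGT hδ
    filter_upwards [h1] with t ht η
    rw [← Linf_apply hp hm hK η, Real.dist_eq]
    have h2 := h t ht.1 ht.2
    have h3 := (Sinf (mkKern hp hm) t f - f - t • Linf X (mkKern hp hm) f).norm_coe_le_norm η
    simp only [ContinuousMap.sub_apply, ContinuousMap.smul_apply, smul_eq_mul,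
      Real.norm_eq_abs] at h3
    have h4 : Linf X (mkKern hp hm) f η - (Sinf (mkKern hp hm) t f η - f η) / t
        = -((Sinf (mkKern hp hm) t f η - f η - t * Linf X (mkKern hp hm) f η) / t) := by
      have := ht.1.ne'
      field_simp
      ring
    rw [h4, abs_neg, abs_div, abs_of_pos ht.1, div_lt_iff₀ ht.1]
    have h5 : 0 < ε * t := mul_pos hε ht.1
    linarith

section uniqueness

variable {S : ℝ → C(ℤ → Bool, ℝ) →ₗ[ℝ] C(ℤ → Bool, ℝ)} (hS : IsExclusionSemigroup p S)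

include hS

lemma S_norm_le {t : ℝ} (ht : 0 ≤ t) (f : C(Config, ℝ)) : ‖S t f‖ ≤ ‖f‖ := by
  rw [ContinuousMap.norm_le _ (norm_nonneg f)]
  intro z
  have h1 : 0 ≤ S t (‖f‖ • (1 : C(Config, ℝ)) - f) z := hS.nonneg t ht _ (fun η => by
    simp only [ContinuousMap.sub_apply, ContinuousMap.smul_apply, ContinuousMap.one_apply,
      smul_eq_mul, mul_one]
    have := f.norm_coe_le_norm η
    rw [Real.norm_eq_abs] at this
    linarith [le_abs_self (f η)]) z
  have h2 : 0 ≤ S t (‖f‖ • (1 : C(Config, ℝ)) + f) z := hS.nonneg t ht _ (fun η => by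
    simp only [ContinuousMap.add_apply, ContinuousMap.smul_apply, ContinuousMap.one_apply,
      smul_eq_mul, mul_one]
    have := f.norm_coe_le_norm η
    rw [Real.norm_eq_abs] at this
    linarith [neg_abs_le (f η)]) z
  rw [map_sub, map_smul, hS.one t ht] at h1
  rw [map_add, map_smul, hS.one t ht] at h2
  simp only [ContinuousMap.sub_apply, ContinuousMap.add_apply, ContinuousMap.smul_apply,
    ContinuousMap.one_apply, smul_eq_mul, mul_one] at h1 h2
  rw [Real.norm_eq_abs, abs_le]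
  constructor <;> linarith

lemma S_cont_zero (f : C(Config, ℝ)) {ε : ℝ} (hε : 0 < ε) :
    ∃ δ : ℝ, 0 < δ ∧ ∀ h, 0 ≤ h → h < δ → ‖S h f - f‖ < ε := by
  have h1 := hS.cont f
  rw [Metric.tendsto_nhdsWithin_nhds] at h1
  obtain ⟨δ, hδ, h⟩ := h1 ε hε
  refine ⟨δ, hδ, fun r hr hrd => ?_⟩
  rcases hr.eq_or_lt with h0 | h0
  · rw [← h0, hS.zero, sub_self, norm_zero]
    exact hε
  · have := h (x := r) h0 (by rwa [Real.dist_eq, sub_zero, abs_of_pos h0])
    rwa [dist_eq_norm] at this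

/-- Uniform modulus of continuity in time. -/
lemma S_cont (f : C(Config, ℝ)) {ε : ℝ} (hε : 0 < ε) :
    ∃ δ : ℝ, 0 < δ ∧ ∀ s t, 0 ≤ s → 0 ≤ t → |s - t| < δ → ‖S s f - S t f‖ < ε := by
  obtain ⟨δ, hδ, h⟩ := S_cont_zero hS f hε
  have key : ∀ s t, 0 ≤ s → s ≤ t → |s - t| < δ → ‖S s f - S t f‖ < ε := by
    intro s t hs hst hd
    have e : t = s + (t - s) := by ring
    rw [e, hS.add s (t - s) hs (by linarith), ← map_sub]
    refine lt_of_le_of_lt (S_norm_le hS hs _) ?_
    rw [norm_sub_rev]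
    refine h (t - s) (by linarith) ?_
    rwa [abs_sub_comm, abs_of_nonneg (by linarith)] at hd
  refine ⟨δ, hδ, fun s t hs ht hd => ?_⟩
  rcases le_total s t with h1 | h1
  · exact key s t hs h1 hd
  · rw [norm_sub_rev]
    rw [abs_sub_comm] at hd
    exact key t s ht h1 hd

end uniqueness

end Pool.Agent.Helper28Excl
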