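import Pool.Agent.Helper28_Excl.Semi2

/-! Uniqueness of the exclusion semigroup. -/

namespace Pool.Agent.Helper28Excl

open Filter Topology

set_option linter.unusedSectionVars false
set_option linter.unusedVariables false
set_option maxHeartbeats 1000000

variable {p : ℤ → ℝ}

lemma S_gen_tendsto (hp : IsKernel p) (hm : FiniteMean p)
    {S : ℝ → C(ℤ → Bool, ℝ) →ₗ[ℝ] C(ℤ → Bool, ℝ)} (hS : IsExclusionSemigroup p S)
    {K : ℕ} {f : C(Config, ℝ)} (hK : Cyl X K f) :
    Tendsto (fun t : ℝ => t⁻¹ • (S t f - f)) (𝓝[>] 0) (𝓝 (Linf X (mkKern hp hm) f)) := by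
  rw [ContinuousMap.tendsto_iff_tendstoUniformly]
  have h2 := hS.generator f (isCyl_of_Cyl hK)
  have h3 : (⇑(Linf X (mkKern hp hm) f) : Config → ℝ) = gen p f := by
    funext η
    exact Linf_apply hp hm hK η
  rw [h3]
  intro u hu
  filter_upwards [h2 u hu] with t ht η
  have h4 := ht η
  have h5 : (t⁻¹ • (S t f - f)) η = (S t f η - f η) / t := by
    simp only [ContinuousMap.smul_apply, ContinuousMap.sub_apply, smul_eq_mul]
    ring
  rw [h5]
  exact h4

/-- The exclusion semigroup is unique. -/
theorem semigroup_unique (hp : IsKernel p) (hm : FiniteMean p)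
    {S : ℝ → C(ℤ → Bool, ℝ) →ₗ[ℝ] C(ℤ → Bool, ℝ)} (hS : IsExclusionSemigroup p S) {t : ℝ}
    (ht : 0 ≤ t) : S t = Sinf (mkKern hp hm) t := by
  set k := mkKern hp hm with hk
  have hmom := mom_nonneg k
  -- cylinder functions
  have hcyl : ∀ (K : ℕ) (f : C(Config, ℝ)), Cyl X K f → S t f = Sinf k t f := by
    intro K f hf
    have hf0 := norm_nonneg f
    refine tendsto_nhds_unique ?_ (Sinf_spec k ht f)
    rw [Metric.tendsto_atTop]
    intro ε hε
    obtain ⟨N0, hN0⟩ := cross_unif k (K := K) (A := 2 * ‖f‖) (B := 4 * mom k * ‖f‖ * t)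
      (by positivity) (by positivity) (by positivity : 0 < ε / (2 * (t + 1)))
    refine ⟨max N0 K, fun N hN => ?_⟩
    have hN1 : N0 ≤ N := (le_max_left _ _).trans hN
    have hNK : K ≤ N := (le_max_right _ _).trans hN
    set F : ℝ → C(Config, ℝ) := fun s => S (t - s) (EN X k N s f) with hF
    have hENcyl : ∀ s, Cyl X N (EN X k N s f) := fun s => Cyl_EN X k N s (hf.mono hNK)
    have hENcont : Continuous fun s => EN X k N s f :=
      continuous_iff_continuousAt.mpr fun s => (EN_apply_deriv X k N f s).continuousAt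
    have hcont : ContinuousOn F (Set.Icc 0 t) := by
      intro s0 hs0
      rw [Metric.continuousWithinAt_iff]
      intro ε' hε'
      obtain ⟨δ1, hδ1, h1⟩ := S_cont hS (EN X k N s0 f) (by positivity : 0 < ε' / 2)
      obtain ⟨δ2, hδ2, h2⟩ := (Metric.continuousAt_iff.mp (hENcont.continuousAt (x := s0)))
        (ε' / 2) (by positivity)
      refine ⟨min δ1 δ2, lt_min hδ1 hδ2, fun {s} hs hd => ?_⟩
      have hd1 : |s - s0| < δ1 := lt_of_lt_of_le hd (min_le_left _ _)
      have hd2 : dist s s0 < δ2 := lt_of_lt_of_le hd (min_le_right _ _)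
      have h3 := h2 hd2
      rw [dist_eq_norm] at h3 ⊢
      have h4 : F s - F s0 = S (t - s) (EN X k N s f - EN X k N s0 f)
          + (S (t - s) (EN X k N s0 f) - S (t - s0) (EN X k N s0 f)) := by
        simp only [hF]
        rw [map_sub]
        abel
      rw [h4]
      have h5 := norm_add_le (S (t - s) (EN X k N s f - EN X k N s0 f))
        (S (t - s) (EN X k N s0 f) - S (t - s0) (EN X k N s0 f))
      have h6 := S_norm_le hS (by linarith [hs.2] : 0 ≤ t - s) (EN X k N s f - EN X k N s0 f)
      have h7 := h1 (t - s) (t - s0) (by linarith [hs.2]) (by linarith [hs0.2])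
        (by rw [sub_sub_sub_cancel_left, abs_sub_comm]; exact hd1)
      linarith
    set d : ℝ → C(Config, ℝ) := fun s =>
      LN X k N (EN X k N s f) - Linf X k (EN X k N s f) with hd
    have hder : ∀ s0 ∈ Set.Ico 0 t, HasDerivWithinAt F (S (t - s0) (d s0)) (Set.Ici s0) s0 := by
      intro s0 hs0
      rw [← hasDerivWithinAt_Ioi_iff_Ici, hasDerivWithinAt_iff_tendsto_slope' Set.self_notMem_Ioi]
      set w := EN X k N s0 f with hw
      set q : ℝ → C(Config, ℝ) := fun s => (s - s0)⁻¹ • (EN X k N s f - w)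
        - (s - s0)⁻¹ • (S (s - s0) w - w) with hq
      have hqlim : Tendsto q (𝓝[>] s0) (𝓝 (d s0)) := by
        have h1 : Tendsto (fun s => (s - s0)⁻¹ • (EN X k N s f - w)) (𝓝[>] s0)
            (𝓝 (LN X k N w)) := by
          have h2 := (EN_apply_deriv' X k N f s0).hasDerivWithinAt (s := Set.Ioi s0)
          rw [hasDerivWithinAt_iff_tendsto_slope' Set.self_notMem_Ioi] at h2
          exact h2
        have h2 : Tendsto (fun s => (s - s0)⁻¹ • (S (s - s0) w - w)) (𝓝[>] s0)
            (𝓝 (Linf X k w)) := by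
          have h3 := S_gen_tendsto hp hm hS (hENcyl s0)
          have h4 : Tendsto (fun s : ℝ => s - s0) (𝓝[>] s0) (𝓝[>] 0) := by
            refine tendsto_nhdsWithin_iff.mpr ⟨?_, ?_⟩
            · have h5 : Tendsto (fun s : ℝ => s - s0) (𝓝 s0) (𝓝 (s0 - s0)) :=
                (continuous_id.sub continuous_const).tendsto s0
              rw [sub_self] at h5
              exact h5.mono_left nhdsWithin_le_nhds
            · filter_upwards [self_mem_nhdsWithin] with s hs
              have hs' : s0 < s := hs
              exact sub_pos.mpr hs'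
          exact h3.comp h4
        exact h1.sub h2
      have heq : ∀ᶠ s in 𝓝[>] s0, S (t - s) (q s) = slope F s0 s := by
        have h1 : Set.Ioo s0 t ∈ 𝓝[>] s0 := Ioo_mem_nhdsGT hs0.2
        filter_upwards [h1] with s hs
        have e1 : S (t - s0) w = S (t - s) (S (s - s0) w) := by
          rw [← hS.add (t - s) (s - s0) (by linarith [hs.2]) (by linarith [hs.1])]
          congr 2
          ring
        rw [slope_def_module]
        simp only [hF, hq]
        rw [← hw, e1, ← map_sub, ← map_smul, ← smul_sub]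
        congr 2
        abel
      refine Tendsto.congr' heq ?_
      rw [tendsto_iff_norm_sub_tendsto_zero]
      have h1 : Tendsto (fun s => ‖q s - d s0‖ + ‖S (t - s) (d s0) - S (t - s0) (d s0)‖)
          (𝓝[>] s0) (𝓝 0) := by
        have h2 := tendsto_iff_norm_sub_tendsto_zero.mp hqlim
        have h3 : Tendsto (fun s => ‖S (t - s) (d s0) - S (t - s0) (d s0)‖)
            (𝓝[>] s0) (𝓝 0) := by
          rw [Metric.tendsto_nhdsWithin_nhds]
          intro ε' hε'
          obtain ⟨δ1, hδ1, h4⟩ := S_cont hS (d s0) hε'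
          refine ⟨min δ1 (t - s0), lt_min hδ1 (by linarith [hs0.2]), fun {s} hs hds => ?_⟩
          rw [Real.dist_eq] at hds
          have hd1 : |s - s0| < δ1 := lt_of_lt_of_le hds (min_le_left _ _)
          have hd2 : |s - s0| < t - s0 := lt_of_lt_of_le hds (min_le_right _ _)
          have hst : s < t := by
            have := le_abs_self (s - s0)
            linarith
          rw [Real.dist_eq, sub_zero, abs_of_nonneg (norm_nonneg _)]
          exact h4 (t - s) (t - s0) (by linarith) (by linarith [hs0.2])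
            (by rw [sub_sub_sub_cancel_left, abs_sub_comm]; exact hd1)
        have := h2.add h3
        rwa [add_zero] at this
      refine squeeze_zero' (Eventually.of_forall fun s => norm_nonneg _) ?_ h1
      have h2 : Set.Ioo s0 t ∈ 𝓝[>] s0 := Ioo_mem_nhdsGT hs0.2
      filter_upwards [h2] with s hs
      have e : S (t - s) (q s) - S (t - s0) (d s0) = S (t - s) (q s - d s0)
          + (S (t - s) (d s0) - S (t - s0) (d s0)) := by
        rw [map_sub (S (t - s)) (q s) (d s0), sub_add_sub_cancel]
      rw [e]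
      refine (norm_add_le _ _).trans (add_le_add ?_ le_rfl)
      exact S_norm_le hS (by linarith [hs.2]) _
    have hbound : ∀ s ∈ Set.Ico 0 t, ‖S (t - s) (d s)‖ ≤ ε / (2 * (t + 1)) := by
      intro s hs
      refine (S_norm_le hS (by linarith [hs.2]) _).trans ?_
      rw [hd]
      simp only
      rw [norm_sub_rev]
      exact (hN0 N hN1 _ (hENcyl s) (fun L hL =>
        Disc_EN_Cyl k hf hs.1 hs.2.le hL N)).2
    have h3 := norm_image_sub_le_of_norm_deriv_right_le_segment (f := F) (a := 0) (b := t)
      hcont hder hbound t ⟨ht, le_rfl⟩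
    have h4 : F t = EN X k N t f := by
      simp only [hF, sub_self, hS.zero]
    have h5 : F 0 = S t f := by
      simp only [hF, sub_zero, EN_zero]
    rw [h4, h5, sub_zero] at h3
    rw [dist_eq_norm]
    refine lt_of_le_of_lt h3 ?_
    rw [div_mul_eq_mul_div, div_lt_iff₀ (by linarith)]
    nlinarith
  -- all functions
  refine LinearMap.ext fun f => ?_
  refine eq_of_sub_eq_zero (norm_le_zero_iff.mp (le_of_forall_pos_le_add fun ε hε => ?_))
  obtain ⟨K, g, hK, hg⟩ := dense_cyl f (by positivity : 0 < ε / 2)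
  have h1 : S t f - Sinf k t f = S t (f - g) - Sinf k t (f - g) := by
    rw [map_sub, map_sub, hcyl K g hK]
    abel
  rw [h1]
  have h2 := norm_sub_le (S t (f - g)) (Sinf k t (f - g))
  have h3 := S_norm_le hS ht (f - g)
  have h4 := Sinf_norm_le k ht (f - g)
  linarith

end Pool.Agent.Helper28Excl
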