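import Pool.Agent.Helper28_Excl.Coup

/-! Discrepancy counts for pairs of configurations. -/

namespace Pool.Agent.Helper28Excl

open Filter Topology

set_option linter.unusedSectionVars false
set_option linter.unusedVariables false

/-- A function of the two values at one site. -/
noncomputable def site (s : Bool → Bool → ℝ) (x : ℤ) : C(Config × Config, ℝ) :=
  ⟨fun z => s (z.1 x) (z.2 x), by
    have h : Continuous fun b : Bool × Bool => s b.1 b.2 := continuous_of_discreteTopology
    have h2 : Continuous fun z : Config × Config => (z.1 x, z.2 x) :=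
      ((continuous_apply x).comp continuous_fst).prodMk ((continuous_apply x).comp continuous_snd)
    exact h.comp h2⟩

lemma site_apply (s : Bool → Bool → ℝ) (x : ℤ) (z : Config × Config) :
    site s x z = s (z.1 x) (z.2 x) := rfl

lemma Cyl_site (s : Bool → Bool → ℝ) {x : ℤ} {K : ℕ} (hx : x ∈ box K) :
    Cyl XX K (site s x) := by
  intro z z' h
  rw [site_apply, site_apply, h.1 x hx, h.2 x hx]

/-- Sum of a site function over a box. -/
noncomputable def cnt (s : Bool → Bool → ℝ) (K : ℕ) : C(Config × Config, ℝ) :=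
  ∑ x ∈ box K, site s x

lemma cnt_apply (s : Bool → Bool → ℝ) (K : ℕ) (z : Config × Config) :
    cnt s K z = ∑ x ∈ box K, s (z.1 x) (z.2 x) := by
  unfold cnt
  rw [ContinuousMap.coe_sum, Finset.sum_apply]
  rfl

lemma Cyl_cnt (s : Bool → Bool → ℝ) (K : ℕ) : Cyl XX K (cnt s K) := by
  intro z z' h
  rw [cnt_apply, cnt_apply]
  refine Finset.sum_congr rfl fun x hx => ?_
  rw [h.1 x hx, h.2 x hx]

lemma jmp_self (u : ℤ) (η : Config) : jmp u u η = η := by
  funext x
  unfold jmp
  by_cases h : x = u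
  · subst h; simp
  · simp [h]

lemma jmp_fst {u v : ℤ} (η : Config) : jmp u v η u = (η u && η v) := by
  unfold jmp; rw [if_pos rfl]

lemma jmp_snd {u v : ℤ} (h : v ≠ u) (η : Config) : jmp u v η v = (η u || η v) := by
  unfold jmp; rw [if_neg h, if_pos rfl]

lemma cnt_T_in (s : Bool → Bool → ℝ) {K : ℕ} {u v : ℤ} (huv : u ≠ v) (hu : u ∈ box K)
    (hv : v ∈ box K) (z : Config × Config) :
    cnt s K (XX.T u v z) - cnt s K z
      = s (z.1 u && z.1 v) (z.2 u && z.2 v) + s (z.1 u || z.1 v) (z.2 u || z.2 v)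
        - s (z.1 u) (z.2 u) - s (z.1 v) (z.2 v) := by
  rw [cnt_apply, cnt_apply, ← Finset.sum_sub_distrib]
  have h1 : ({u, v} : Finset ℤ) ⊆ box K := by
    intro x hx
    rw [Finset.mem_insert, Finset.mem_singleton] at hx
    rcases hx with rfl | rfl
    · exact hu
    · exact hv
  rw [← Finset.sum_subset h1, Finset.sum_pair huv]
  · simp only [XX_T]
    rw [jmp_fst, jmp_fst, jmp_snd huv.symm, jmp_snd huv.symm]
    ring
  · intro x _ hx
    rw [Finset.mem_insert, Finset.mem_singleton, not_or] at hx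
    simp only [XX_T]
    rw [jmp_of_ne _ hx.1 hx.2, jmp_of_ne _ hx.1 hx.2, sub_self]

lemma cnt_T_cross1 (s : Bool → Bool → ℝ) {K : ℕ} {u v : ℤ} (hu : u ∈ box K)
    (hv : v ∉ box K) (z : Config × Config) :
    cnt s K (XX.T u v z) - cnt s K z
      = s (z.1 u && z.1 v) (z.2 u && z.2 v) - s (z.1 u) (z.2 u) := by
  rw [cnt_apply, cnt_apply, ← Finset.sum_sub_distrib]
  rw [Finset.sum_eq_single_of_mem u hu]
  · simp only [XX_T]
    rw [jmp_fst, jmp_fst]
  · intro x hx hxu
    have hxv : x ≠ v := fun e => hv (e ▸ hx)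
    simp only [XX_T]
    rw [jmp_of_ne _ hxu hxv, jmp_of_ne _ hxu hxv, sub_self]

lemma cnt_T_cross2 (s : Bool → Bool → ℝ) {K : ℕ} {u v : ℤ} (hu : u ∈ box K)
    (hv : v ∉ box K) (z : Config × Config) :
    cnt s K (XX.T v u z) - cnt s K z
      = s (z.1 v || z.1 u) (z.2 v || z.2 u) - s (z.1 u) (z.2 u) := by
  have huv : u ≠ v := fun e => hv (e ▸ hu)
  rw [cnt_apply, cnt_apply, ← Finset.sum_sub_distrib]
  rw [Finset.sum_eq_single_of_mem u hu]
  · simp only [XX_T]
    rw [jmp_snd huv, jmp_snd huv]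
  · intro x hx hxu
    have hxv : x ≠ v := fun e => hv (e ▸ hx)
    simp only [XX_T]
    rw [jmp_of_ne _ hxv hxu, jmp_of_ne _ hxv hxu, sub_self]

/-- `ζ` has an extra particle. -/
noncomputable def sp : Bool → Bool → ℝ := fun a c => if a = false ∧ c = true then 1 else 0

/-- `η` has an extra particle. -/
noncomputable def sm : Bool → Bool → ℝ := fun a c => if a = true ∧ c = false then 1 else 0

/-- Discrepancy. -/
noncomputable def sd : Bool → Bool → ℝ := fun a c => if a = c then 0 else 1

/-- Opposite discrepancies. -/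
noncomputable def opp (u v : ℤ) : C(Config × Config, ℝ) :=
  site sp u * site sm v + site sm u * site sp v

lemma opp_apply (u v : ℤ) (z : Config × Config) :
    opp u v z = sp (z.1 u) (z.2 u) * sm (z.1 v) (z.2 v)
      + sm (z.1 u) (z.2 u) * sp (z.1 v) (z.2 v) := rfl

lemma sp_nonneg (a c : Bool) : 0 ≤ sp a c := by
  unfold sp; split_ifs <;> norm_num

lemma sm_nonneg (a c : Bool) : 0 ≤ sm a c := by
  unfold sm; split_ifs <;> norm_num

lemma sd_nonneg (a c : Bool) : 0 ≤ sd a c := by
  unfold sd; split_ifs <;> norm_num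

lemma sd_le_one (a c : Bool) : sd a c ≤ 1 := by
  unfold sd; split_ifs <;> norm_num

lemma opp_nonneg (u v : ℤ) (z : Config × Config) : 0 ≤ opp u v z := by
  rw [opp_apply]
  exact add_nonneg (mul_nonneg (sp_nonneg _ _) (sm_nonneg _ _))
    (mul_nonneg (sm_nonneg _ _) (sp_nonneg _ _))

lemma sd_in (a b c d : Bool) : sd (a && b) (c && d) + sd (a || b) (c || d) - sd a c - sd b d
    = -2 * (sp a c * sm b d + sm a c * sp b d) := by
  cases a <;> cases b <;> cases c <;> cases d <;> simp [sd, sp, sm] <;> norm_num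

lemma sm_in (a b c d : Bool) : sm (a && b) (c && d) + sm (a || b) (c || d) - sm a c - sm b d
    = -(sp a c * sm b d + sm a c * sp b d) := by
  cases a <;> cases b <;> cases c <;> cases d <;> simp [sp, sm]

lemma sd_cross1 (a b c d : Bool) : |sd (a && b) (c && d) - sd a c| ≤ sd a c + sd b d := by
  cases a <;> cases b <;> cases c <;> cases d <;> simp [sd]

lemma sd_cross2 (a b c d : Bool) : |sd (b || a) (d || c) - sd a c| ≤ sd a c + sd b d := by
  cases a <;> cases b <;> cases c <;> cases d <;> simp [sd]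

lemma sm_cross1 (a b c d : Bool) : |sm (a && b) (c && d) - sm a c| ≤ sd a c + sd b d := by
  cases a <;> cases b <;> cases c <;> cases d <;> simp [sd, sm]

lemma sm_cross2 (a b c d : Bool) : |sm (b || a) (d || c) - sm a c| ≤ sd a c + sd b d := by
  cases a <;> cases b <;> cases c <;> cases d <;> simp [sd, sm]

lemma opp_self (u : ℤ) (z : Config × Config) : opp u u z = 0 := by
  rw [opp_apply]
  unfold sp sm
  cases z.1 u <;> cases z.2 u <;> simp

/-- Functions of a box whose variation is controlled by opposite discrepancies and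
discrepancies across the boundary. -/
structure Cut (K : ℕ) (φ : C(Config × Config, ℝ)) : Prop where
  cyl : Cyl XX K φ
  inn : ∀ u ∈ box K, ∀ v ∈ box K, ∀ z, |φ (XX.T u v z) - φ z| ≤ 2 * opp u v z
  cross : ∀ u ∈ box K, ∀ v, v ∉ box K → ∀ z,
    |φ (XX.T u v z) - φ z| ≤ site sd u z + site sd v z ∧
    |φ (XX.T v u z) - φ z| ≤ site sd u z + site sd v z

lemma Cut_sd (K : ℕ) : Cut K (cnt sd K) where
  cyl := Cyl_cnt _ _
  inn := by
    intro u hu v hv z
    by_cases huv : u = v
    · subst huv
      rw [XX_T, jmp_self, jmp_self, sub_self, abs_zero]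
      exact mul_nonneg (by norm_num) (opp_nonneg _ _ _)
    · have h0 := opp_nonneg u v z
      rw [cnt_T_in sd huv hu hv, sd_in, ← opp_apply, abs_le]
      constructor <;> linarith
  cross := by
    intro u hu v hv z
    rw [cnt_T_cross1 sd hu hv, cnt_T_cross2 sd hu hv]
    exact ⟨sd_cross1 _ _ _ _, sd_cross2 _ _ _ _⟩

lemma Cut_sm (K : ℕ) : Cut K (cnt sm K) where
  cyl := Cyl_cnt _ _
  inn := by
    intro u hu v hv z
    have h0 := opp_nonneg u v z
    by_cases huv : u = v
    · subst huv
      rw [XX_T, jmp_self, jmp_self, sub_self, abs_zero]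
      linarith
    · rw [cnt_T_in sm huv hu hv, sm_in, ← opp_apply, abs_neg, abs_of_nonneg h0]
      linarith
  cross := by
    intro u hu v hv z
    rw [cnt_T_cross1 sm hu hv, cnt_T_cross2 sm hu hv]
    exact ⟨sm_cross1 _ _ _ _, sm_cross2 _ _ _ _⟩

lemma abs_min_sub_min (a b : ℝ) : |min 1 a - min 1 b| ≤ |a - b| := by
  have := abs_min_sub_min_le_max 1 a 1 b
  rwa [sub_self, abs_zero, max_eq_right (abs_nonneg _)] at this

lemma Cut.min_one {K : ℕ} {φ : C(Config × Config, ℝ)} (h : Cut K φ) : Cut K (1 ⊓ φ) where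
  cyl := by
    intro z z' hz
    rw [ContinuousMap.inf_apply, ContinuousMap.inf_apply, h.cyl z z' hz]
    rfl
  inn := by
    intro u hu v hv z
    simp only [ContinuousMap.inf_apply, ContinuousMap.one_apply]
    exact (abs_min_sub_min _ _).trans (h.inn u hu v hv z)
  cross := by
    intro u hu v hv z
    simp only [ContinuousMap.inf_apply, ContinuousMap.one_apply]
    exact ⟨(abs_min_sub_min _ _).trans (h.cross u hu v hv z).1,
      (abs_min_sub_min _ _).trans (h.cross u hu v hv z).2⟩

lemma Cut.one_sub {K : ℕ} {φ : C(Config × Config, ℝ)} (h : Cut K φ) : Cut K (1 - φ) where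
  cyl := by
    intro z z' hz
    simp only [ContinuousMap.sub_apply, ContinuousMap.one_apply]
    rw [h.cyl z z' hz]
  inn := by
    intro u hu v hv z
    simp only [ContinuousMap.sub_apply, ContinuousMap.one_apply, sub_sub_sub_cancel_left]
    rw [abs_sub_comm]
    exact h.inn u hu v hv z
  cross := by
    intro u hu v hv z
    simp only [ContinuousMap.sub_apply, ContinuousMap.one_apply, sub_sub_sub_cancel_left]
    rw [abs_sub_comm, abs_sub_comm (φ z)]
    exact h.cross u hu v hv z

/-- The function `1 ∧ #(sites of the box with an extra `η`-particle)`. -/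
noncomputable def chi (K : ℕ) : C(Config × Config, ℝ) := 1 ⊓ cnt sm K

/-- Indicator of no discrepancy in the box. -/
noncomputable def kap (K : ℕ) : C(Config × Config, ℝ) := 1 - 1 ⊓ cnt sd K

/-- `(#discrepancies in the box - 1)⁺`. -/
noncomputable def exc (K : ℕ) : C(Config × Config, ℝ) := (cnt sd K - 1) ⊔ 0

lemma chi_apply (K : ℕ) (z : Config × Config) : chi K z = min 1 (cnt sm K z) := rfl

lemma kap_apply (K : ℕ) (z : Config × Config) : kap K z = 1 - min 1 (cnt sd K z) := rfl

lemma exc_apply (K : ℕ) (z : Config × Config) : exc K z = max (cnt sd K z - 1) 0 := rfl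

lemma cnt_nonneg {s : Bool → Bool → ℝ} (hs : ∀ a c, 0 ≤ s a c) (K : ℕ) (z : Config × Config) :
    0 ≤ cnt s K z := by
  rw [cnt_apply]
  exact Finset.sum_nonneg fun x _ => hs _ _

lemma cnt_mono {s : Bool → Bool → ℝ} (hs : ∀ a c, 0 ≤ s a c) {K M : ℕ} (h : K ≤ M)
    (z : Config × Config) : cnt s K z ≤ cnt s M z := by
  rw [cnt_apply, cnt_apply]
  exact Finset.sum_le_sum_of_subset_of_nonneg (box_mono h) fun x _ _ => hs _ _

lemma Cut_chi (K : ℕ) : Cut K (chi K) := (Cut_sm K).min_one

lemma Cut_kap (K : ℕ) : Cut K (kap K) := (Cut_sd K).min_one.one_sub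

lemma chi_nonneg (K : ℕ) (z : Config × Config) : 0 ≤ chi K z :=
  le_min zero_le_one (cnt_nonneg sm_nonneg K z)

lemma chi_le_one (K : ℕ) (z : Config × Config) : chi K z ≤ 1 := min_le_left _ _

lemma kap_nonneg (K : ℕ) (z : Config × Config) : 0 ≤ kap K z := by
  rw [kap_apply]
  linarith [min_le_left 1 (cnt sd K z)]

lemma kap_le_one (K : ℕ) (z : Config × Config) : kap K z ≤ 1 := by
  rw [kap_apply]
  linarith [le_min zero_le_one (cnt_nonneg sd_nonneg K z)]

lemma exc_eq (K : ℕ) : exc K = cnt sd K - 1 + kap K := by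
  ext z
  simp only [ContinuousMap.add_apply, ContinuousMap.sub_apply, ContinuousMap.one_apply, exc_apply,
    kap_apply]
  rcases le_total 1 (cnt sd K z) with h | h
  · rw [min_eq_left h, max_eq_left (by linarith)]; ring
  · rw [min_eq_right h, max_eq_right (by linarith)]; ring

lemma exc_nonneg (K : ℕ) (z : Config × Config) : 0 ≤ exc K z := le_max_right _ _

lemma exc_mono {K M : ℕ} (h : K ≤ M) (z : Config × Config) : exc K z ≤ exc M z := by
  rw [exc_apply, exc_apply]
  exact max_le_max (sub_le_sub_right (cnt_mono sd_nonneg h z) _) le_rfl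

lemma chi_mono {K M : ℕ} (h : K ≤ M) (z : Config × Config) : chi K z ≤ chi M z :=
  min_le_min le_rfl (cnt_mono sm_nonneg h z)

lemma kap_anti {K M : ℕ} (h : K ≤ M) (z : Config × Config) : kap M z ≤ kap K z := by
  rw [kap_apply, kap_apply]
  linarith [min_le_min (le_refl (1 : ℝ)) (cnt_mono sd_nonneg h z)]

end Pool.Agent.Helper28Excl
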