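import Mathlib

/-! Jump systems with pair interactions: finite volume generators, resolvents, infinite volume
generator on cylinder functions. -/

namespace Pool.Agent.Helper28Excl

open Filter Topology

set_option linter.unusedSectionVars false
set_option linter.unusedVariables false

/-- The box `[-N, N]`. -/
noncomputable def box (N : ℕ) : Finset ℤ := Finset.Icc (-(N : ℤ)) N

lemma mem_box {N : ℕ} {x : ℤ} : x ∈ box N ↔ |x| ≤ N := by
  simp only [box, Finset.mem_Icc, abs_le]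

lemma box_mono {N M : ℕ} (h : N ≤ M) : box N ⊆ box M := by
  intro x hx
  rw [mem_box] at *
  have : (N : ℤ) ≤ M := by exact_mod_cast h
  omega

/-- A system of maps `T u v` on a space `Z`, with a notion of agreement on boxes. -/
structure JumpSys (Z : Type*) [TopologicalSpace Z] where
  T : ℤ → ℤ → C(Z, Z)
  agree : ℕ → Z → Z → Prop
  agree_refl : ∀ N z, agree N z z
  agree_mono : ∀ {N M z z'}, N ≤ M → agree M z z' → agree N z z'
  loc : ∀ {N u v} z, u ∉ box N → v ∉ box N → agree N (T u v z) z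
  pres : ∀ {N u v z z'}, u ∈ box N → v ∈ box N → agree N z z' → agree N (T u v z) (T u v z')

/-- Transition kernels: nonnegative, total mass one, finite first absolute moment. -/
structure Kern where
  p : ℤ → ℝ
  nonneg : ∀ x, 0 ≤ p x
  sum_one : ∑' x, p x = 1
  summ : Summable p
  mom : Summable fun x : ℤ => |(x : ℝ)| * p x

variable {Z : Type*} [TopologicalSpace Z] [CompactSpace Z] (J : JumpSys Z) (k : Kern)

/-- Cylinder functions of level `K`. -/
def Cyl (K : ℕ) (h : C(Z, ℝ)) : Prop := ∀ z z', J.agree K z z' → h z = h z'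

variable {J} in
lemma Cyl.mono {K N : ℕ} {h : C(Z, ℝ)} (hh : Cyl J K h) (hKN : K ≤ N) : Cyl J N h :=
  fun z z' hz => hh z z' (J.agree_mono hKN hz)

/-- The sum over jumps inside the box. -/
noncomputable def Aop (N : ℕ) (g : C(Z, ℝ)) : C(Z, ℝ) :=
  ∑ q ∈ box N ×ˢ box N, k.p (q.2 - q.1) • g.comp (J.T q.1 q.2)

/-- The total rate in the box. -/
noncomputable def crate (N : ℕ) : ℝ := ∑ q ∈ box N ×ˢ box N, k.p (q.2 - q.1)

/-- The finite volume generator. -/
noncomputable def LN (N : ℕ) (g : C(Z, ℝ)) : C(Z, ℝ) :=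
  ∑ q ∈ box N ×ˢ box N, k.p (q.2 - q.1) • (g.comp (J.T q.1 q.2) - g)

lemma LN_eq (N : ℕ) (g : C(Z, ℝ)) : LN J k N g = Aop J k N g - crate k N • g := by
  simp only [LN, Aop, crate, smul_sub, Finset.sum_sub_distrib, Finset.sum_smul]

lemma crate_nonneg (N : ℕ) : 0 ≤ crate k N :=
  Finset.sum_nonneg fun q _ => k.nonneg _

/-- `Aop` as a linear map. -/
noncomputable def Alin (N : ℕ) : C(Z, ℝ) →ₗ[ℝ] C(Z, ℝ) where
  toFun := Aop J k N
  map_add' f g := by
    simp only [Aop, ← Finset.sum_add_distrib, ← smul_add]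
    rfl
  map_smul' c g := by
    simp only [Aop, Finset.smul_sum, RingHom.id_apply]
    refine Finset.sum_congr rfl fun q _ => ?_
    rw [smul_comm]
    rfl

lemma norm_comp_le (g : C(Z, ℝ)) (f : C(Z, Z)) : ‖g.comp f‖ ≤ ‖g‖ := by
  rw [ContinuousMap.norm_le _ (norm_nonneg _)]
  intro z
  exact g.norm_coe_le_norm (f z)

lemma norm_Aop_le (N : ℕ) (g : C(Z, ℝ)) : ‖Aop J k N g‖ ≤ crate k N * ‖g‖ := by
  unfold Aop crate
  rw [Finset.sum_mul]
  refine (norm_sum_le _ _).trans (Finset.sum_le_sum fun q _ => ?_)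
  rw [norm_smul, Real.norm_of_nonneg (k.nonneg _)]
  exact mul_le_mul_of_nonneg_left (norm_comp_le _ _) (k.nonneg _)

/-- `Aop` as a continuous linear map. -/
noncomputable def Acl (N : ℕ) : C(Z, ℝ) →L[ℝ] C(Z, ℝ) :=
  (Alin J k N).mkContinuous (crate k N) (norm_Aop_le J k N)

@[simp] lemma Acl_apply (N : ℕ) (g : C(Z, ℝ)) : Acl J k N g = Aop J k N g := rfl

lemma norm_Acl_le (N : ℕ) : ‖Acl J k N‖ ≤ crate k N :=
  (Alin J k N).mkContinuous_norm_le (crate_nonneg k N) _

/-- `1 / (1 + T c)`. -/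
noncomputable def alph (N : ℕ) (t : ℝ) : ℝ := 1 / (1 + t * crate k N)

lemma alph_pos (N : ℕ) {t : ℝ} (ht : 0 ≤ t) : 0 < alph k N t := by
  have := mul_nonneg ht (crate_nonneg k N)
  unfold alph
  positivity

lemma alph_mul (N : ℕ) {t : ℝ} (ht : 0 ≤ t) : alph k N t * (1 + t * crate k N) = 1 := by
  have := mul_nonneg ht (crate_nonneg k N)
  unfold alph
  field_simp

/-- The terms of the Neumann series of the resolvent. -/
noncomputable def Rterm (N : ℕ) (t : ℝ) (g : C(Z, ℝ)) (n : ℕ) : C(Z, ℝ) :=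
  (alph k N t * (alph k N t * t) ^ n) • (Aop J k N)^[n] g

lemma norm_Aop_iter_le (N : ℕ) (g : C(Z, ℝ)) (n : ℕ) :
    ‖(Aop J k N)^[n] g‖ ≤ crate k N ^ n * ‖g‖ := by
  induction n with
  | zero => simp
  | succ n ih =>
    rw [Function.iterate_succ_apply']
    calc ‖Aop J k N ((Aop J k N)^[n] g)‖ ≤ crate k N * ‖(Aop J k N)^[n] g‖ := norm_Aop_le _ _ _ _
      _ ≤ crate k N * (crate k N ^ n * ‖g‖) := mul_le_mul_of_nonneg_left ih (crate_nonneg k N)
      _ = crate k N ^ (n + 1) * ‖g‖ := by ring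

lemma ratio_lt (N : ℕ) {t : ℝ} (ht : 0 ≤ t) : alph k N t * t * crate k N < 1 := by
  have h1 := alph_pos k N ht
  have h2 := alph_mul k N ht
  nlinarith

lemma ratio_nonneg (N : ℕ) {t : ℝ} (ht : 0 ≤ t) : 0 ≤ alph k N t * t * crate k N := by
  have h1 := alph_pos k N ht
  have := crate_nonneg k N
  positivity

lemma norm_Rterm_le (N : ℕ) {t : ℝ} (ht : 0 ≤ t) (g : C(Z, ℝ)) (n : ℕ) :
    ‖Rterm J k N t g n‖ ≤ (alph k N t * t * crate k N) ^ n * (alph k N t * ‖g‖) := by
  have h1 := alph_pos k N ht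
  unfold Rterm
  rw [norm_smul, Real.norm_of_nonneg (by positivity)]
  calc alph k N t * (alph k N t * t) ^ n * ‖(Aop J k N)^[n] g‖
      ≤ alph k N t * (alph k N t * t) ^ n * (crate k N ^ n * ‖g‖) :=
        mul_le_mul_of_nonneg_left (norm_Aop_iter_le J k N g n) (by positivity)
    _ = _ := by rw [mul_pow (alph k N t * t)]; ring

lemma summable_Rterm (N : ℕ) {t : ℝ} (ht : 0 ≤ t) (g : C(Z, ℝ)) : Summable (Rterm J k N t g) := by
  refine Summable.of_norm_bounded ?_ (norm_Rterm_le J k N ht g)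
  exact (summable_geometric_of_lt_one (ratio_nonneg k N ht) (ratio_lt k N ht)).mul_right _

/-- The resolvent `(1 - t L_N)⁻¹` as a Neumann series. -/
noncomputable def Rop (N : ℕ) (t : ℝ) (g : C(Z, ℝ)) : C(Z, ℝ) := ∑' n, Rterm J k N t g n

lemma Aop_smul (N : ℕ) (c : ℝ) (g : C(Z, ℝ)) : Aop J k N (c • g) = c • Aop J k N g :=
  (Alin J k N).map_smul c g

lemma Aop_add (N : ℕ) (f g : C(Z, ℝ)) : Aop J k N (f + g) = Aop J k N f + Aop J k N g :=
  (Alin J k N).map_add f g

lemma Aop_iter_add (N : ℕ) (n : ℕ) (f g : C(Z, ℝ)) :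
    (Aop J k N)^[n] (f + g) = (Aop J k N)^[n] f + (Aop J k N)^[n] g := by
  induction n with
  | zero => rfl
  | succ n ih => rw [Function.iterate_succ_apply', ih, Aop_add, Function.iterate_succ_apply',
      Function.iterate_succ_apply']

lemma Aop_iter_smul (N : ℕ) (n : ℕ) (c : ℝ) (g : C(Z, ℝ)) :
    (Aop J k N)^[n] (c • g) = c • (Aop J k N)^[n] g := by
  induction n with
  | zero => rfl
  | succ n ih => rw [Function.iterate_succ_apply', ih, Aop_smul, Function.iterate_succ_apply']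

lemma Rop_add (N : ℕ) {t : ℝ} (ht : 0 ≤ t) (f g : C(Z, ℝ)) :
    Rop J k N t (f + g) = Rop J k N t f + Rop J k N t g := by
  unfold Rop
  rw [← (summable_Rterm J k N ht f).tsum_add (summable_Rterm J k N ht g)]
  refine tsum_congr fun n => ?_
  unfold Rterm
  rw [Aop_iter_add, smul_add]

lemma Rop_smul (N : ℕ) (t : ℝ) (c : ℝ) (g : C(Z, ℝ)) :
    Rop J k N t (c • g) = c • Rop J k N t g := by
  unfold Rop
  rw [← tsum_const_smul'' c]
  refine tsum_congr fun n => ?_
  unfold Rterm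
  rw [Aop_iter_smul, smul_comm]

lemma Rterm_succ (N : ℕ) (t : ℝ) (g : C(Z, ℝ)) (n : ℕ) :
    Rterm J k N t g (n + 1) = (alph k N t * t) • Aop J k N (Rterm J k N t g n) := by
  unfold Rterm
  rw [Aop_smul, smul_smul, Function.iterate_succ_apply']
  congr 1
  ring

lemma Rterm_succ' (N : ℕ) (t : ℝ) (g : C(Z, ℝ)) (n : ℕ) :
    Rterm J k N t (Aop J k N g) n = Aop J k N (Rterm J k N t g n) := by
  unfold Rterm
  rw [Aop_smul, ← Function.iterate_succ_apply, Function.iterate_succ_apply']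

lemma Rop_Aop (N : ℕ) {t : ℝ} (ht : 0 ≤ t) (g : C(Z, ℝ)) :
    Rop J k N t (Aop J k N g) = Aop J k N (Rop J k N t g) := by
  have h := (Acl J k N).map_tsum (summable_Rterm J k N ht g)
  simp only [Acl_apply] at h
  unfold Rop
  rw [h]
  exact tsum_congr fun n => Rterm_succ' J k N t g n

/-- Partial sums. -/
noncomputable def Rpart (N : ℕ) (t : ℝ) (g : C(Z, ℝ)) (m : ℕ) : C(Z, ℝ) :=
  ∑ n ∈ Finset.range m, Rterm J k N t g n

lemma Rpart_tendsto (N : ℕ) {t : ℝ} (ht : 0 ≤ t) (g : C(Z, ℝ)) :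
    Tendsto (Rpart J k N t g) atTop (𝓝 (Rop J k N t g)) :=
  (summable_Rterm J k N ht g).hasSum.tendsto_sum_nat

lemma Rpart_zero (N : ℕ) (t : ℝ) (g : C(Z, ℝ)) : Rpart J k N t g 0 = 0 := by
  simp [Rpart]

lemma Rterm_zero (N : ℕ) (t : ℝ) (g : C(Z, ℝ)) : Rterm J k N t g 0 = alph k N t • g := by
  simp [Rterm]

lemma Rpart_succ (N : ℕ) (t : ℝ) (g : C(Z, ℝ)) (m : ℕ) :
    Rpart J k N t g (m + 1) = alph k N t • (g + t • Aop J k N (Rpart J k N t g m)) := by
  unfold Rpart
  rw [Finset.sum_range_succ', Rterm_zero]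
  have h : Aop J k N (∑ n ∈ Finset.range m, Rterm J k N t g n)
      = ∑ n ∈ Finset.range m, Aop J k N (Rterm J k N t g n) := map_sum (Alin J k N) _ _
  rw [h, smul_add, add_comm, Finset.smul_sum, Finset.smul_sum]
  congr 1
  refine Finset.sum_congr rfl fun n _ => ?_
  rw [Rterm_succ, smul_smul]

/-- Closed-set induction principle for the resolvent. -/
lemma Rop_mem {S : Set C(Z, ℝ)} (hS : IsClosed S) (N : ℕ) {t : ℝ} (ht : 0 ≤ t) (g : C(Z, ℝ))
    (h0 : (0 : C(Z, ℝ)) ∈ S)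
    (hstep : ∀ s ∈ S, alph k N t • (g + t • Aop J k N s) ∈ S) : Rop J k N t g ∈ S := by
  refine hS.mem_of_tendsto (Rpart_tendsto J k N ht g) (Eventually.of_forall fun m => ?_)
  induction m with
  | zero => rw [Rpart_zero]; exact h0
  | succ m ih => rw [Rpart_succ]; exact hstep _ ih

lemma Rop_fix (N : ℕ) {t : ℝ} (ht : 0 ≤ t) (g : C(Z, ℝ)) :
    Rop J k N t g = alph k N t • (g + t • Aop J k N (Rop J k N t g)) := by
  have h1 := (Rpart_tendsto J k N ht g).comp (tendsto_add_atTop_nat 1)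
  have h2 : Tendsto (fun m => alph k N t • (g + t • Aop J k N (Rpart J k N t g m))) atTop
      (𝓝 (alph k N t • (g + t • Aop J k N (Rop J k N t g)))) := by
    have h3 : Tendsto (fun m => Acl J k N (Rpart J k N t g m)) atTop
        (𝓝 (Acl J k N (Rop J k N t g))) :=
      ((Acl J k N).continuous.tendsto _).comp (Rpart_tendsto J k N ht g)
    exact ((h3.const_smul t).const_add g).const_smul _
  refine tendsto_nhds_unique h1 ?_
  refine h2.congr fun m => ?_
  simp only [Function.comp_apply]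
  rw [Rpart_succ]

/-- The resolvent equation. -/
lemma Rop_eq (N : ℕ) {t : ℝ} (ht : 0 ≤ t) (g : C(Z, ℝ)) :
    Rop J k N t g - g = t • LN J k N (Rop J k N t g) := by
  have h1 := Rop_fix J k N ht g
  have h2 : (1 + t * crate k N) • Rop J k N t g = g + t • Aop J k N (Rop J k N t g) := by
    conv_lhs => rw [h1]
    rw [smul_smul, mul_comm, alph_mul k N ht, one_smul]
  rw [LN_eq, smul_sub, smul_smul]
  rw [add_smul, one_smul] at h2
  rw [sub_eq_sub_iff_add_eq_add, h2, add_comm]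

lemma Rop_LN (N : ℕ) {t : ℝ} (ht : 0 ≤ t) (g : C(Z, ℝ)) :
    Rop J k N t (LN J k N g) = LN J k N (Rop J k N t g) := by
  have h : ∀ f g : C(Z, ℝ), f - g = f + (-1 : ℝ) • g := fun f g => by rw [neg_one_smul, sub_eq_add_neg]
  rw [LN_eq, LN_eq, h, h, Rop_add J k N ht, Rop_Aop J k N ht, smul_smul, Rop_smul, smul_smul]

end Pool.Agent.Helper28Excl
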